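import Pool.Agent.Lib.MP_0775d3_lc.Ge.LinE

/-! `GE` for products of groups of wreath type, of linear type and of a group with a series. -/

set_option linter.unusedSectionVars false
set_option linter.unusedVariables false

namespace MP0775d3.Ge

open Matrix MP0775d3.Sl2 MP0775d3.Cf

/-- PROOF. As `Cf.base_gd` (same induction, `GE.prod` in place of `GD.prod`, `ge_of_gd` for
`gd_series` and `sym_gd`; for a factor `P` of linear type use `ge_lin d`, `GE.mono`). `tL`, `γL`, `m₀` from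
`ge_lin d`, `γ = η γL`, `t = tD + K₀ (max tS tL + 1)`. A factor of linear type has `n = |P| > N ^ η`, so
`n ^ (-γL) ≤ N ^ (-γ)`; a factor of wreath type has exceptional sets of size `0 ≤ N ^ (-γ)`. Statement
for the induction: `GE (C₁ |G| ^ (1 + e)) (C₁ N ^ d) (|G| ^ d) (k N ^ (-γ)) (tD + k (max tS tL + 1)) G`; at the
end `k ≤ K₀ ≤ C`. `w = |P| ≤ |P| ^ (1 + e)`. -/
theorem base_ge (d : ℝ) (hd : 0 < d) (hd1 : d ≤ 1) : ∃ η : ℝ, 0 < η ∧ ∃ γ : ℝ, 0 < γ ∧ ∃ m₀ : ℕ,
    ∃ t : ℕ, 1 ≤ t ∧ ∀ e : ℝ, 0 < e → ∃ h : ℝ, 0 < h ∧ ∀ A : ℝ, 1 ≤ A → ∃ C : ℝ, 1 ≤ C ∧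
      ∀ N : ℝ, 1 ≤ N → ∀ (k : ℕ) (G : Type) [Group G] [Finite G],
      Mult (fun P _ => (IsSymType (N ^ h) P ∨ IsLinType (N ^ h) m₀ P) ∧ N ^ η < Nat.card P)
        (fun D _ => HasSeries (N ^ η) D) k G → (Nat.card G : ℝ) ≤ A * N →
      GE (C * (Nat.card G : ℝ) ^ (1 + e)) (C * N ^ d) (C * (Nat.card G : ℝ) ^ d)
        (C * N ^ (-γ)) t G := by
  obtain ⟨tD, htD, CD, hCD, hD⟩ := gd_series d hd
  obtain ⟨tS, htS, hS⟩ := sym_gd d hd
  obtain ⟨γL, hγL, tL, htL, m₀, hl, hhl, hL⟩ := ge_lin d hd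
  have hη : 0 < d / 2 := by positivity
  obtain ⟨tM, htM⟩ : ∃ tM : ℕ, tM = max tS tL := ⟨_, rfl⟩
  have htMS : tS ≤ tM := by rw [htM]; exact le_max_left _ _
  have htML : tL ≤ tM := by rw [htM]; exact le_max_right _ _
  refine ⟨d / 2, hη, d / 2 * γL, by positivity, m₀, tD + ⌈2 / (d / 2)⌉₊ * (tM + 1), by omega,
    fun e he => ?_⟩
  obtain ⟨hs', hhs', n₀, hn₀'⟩ := hS e he
  obtain ⟨hs, hhs1⟩ : ∃ hs : ℝ, hs = min hs' hl := ⟨_, rfl⟩
  have hhs : 0 < hs := by
    rw [hhs1]
    exact lt_min hhs' hhl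
  have hs_l : hs ≤ hl := by
    rw [hhs1]
    exact min_le_right _ _
  have hn₀ : ∀ (G : Type) [Group G] [Finite G], n₀ ≤ Nat.card G →
      IsSymType ((Nat.card G : ℝ) ^ hs) G →
      GD ((Nat.card G : ℝ) ^ (1 + e)) ((Nat.card G : ℝ) ^ d) ((Nat.card G : ℝ) ^ d) tS G := by
    intro G _ _ h1 h2
    have h3 : (1 : ℝ) ≤ Nat.card G := by
      have h4 : 1 ≤ Nat.card G := Nat.card_pos
      exact_mod_cast h4
    refine hn₀' G h1 (h2.mono (Real.rpow_le_rpow_of_exponent_le h3 ?_))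
    rw [hhs1]
    exact min_le_left _ _
  refine ⟨d / 2 * hs, by positivity, fun A hA => ?_⟩
  obtain ⟨N₀, hN₀⟩ : ∃ N₀ : ℝ, N₀ = max ((n₀ : ℝ) ^ (1 / (d / 2))) A := ⟨_, rfl⟩
  have hN₀1 : A ≤ N₀ := by
    rw [hN₀]
    exact le_max_right _ _
  have hN₀2 : (n₀ : ℝ) ^ (1 / (d / 2)) ≤ N₀ := by
    rw [hN₀]
    exact le_max_left _ _
  have hA0 : 0 < A := by linarith
  have hC1 : 1 ≤ CD * A := one_le_mul_of_one_le_of_one_le hCD hA
  have hAN : 0 ≤ A * N₀ := mul_nonneg hA0.le (by linarith)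
  have hK0 : (0 : ℝ) ≤ (⌈2 / (d / 2)⌉₊ : ℝ) := Nat.cast_nonneg _
  refine ⟨CD * A + A * N₀ + (⌈2 / (d / 2)⌉₊ : ℝ), by linarith, fun N hN k G _ _ hG hc => ?_⟩
  have hN0 : 0 < N := by linarith
  have hNd : 1 ≤ N ^ d := Real.one_le_rpow hN hd.le
  have hNγ : 0 ≤ N ^ (-(d / 2 * γL)) := Real.rpow_nonneg hN0.le _
  have hcard1 : ∀ (G : Type) [Group G] [Finite G], (1 : ℝ) ≤ Nat.card G := by
    intro G _ _
    have h1 : 1 ≤ Nat.card G := Nat.card_pos
    exact_mod_cast h1
  have hG1 := hcard1 G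
  have hGd : 1 ≤ (Nat.card G : ℝ) ^ d := Real.one_le_rpow hG1 hd.le
  have hGe : (Nat.card G : ℝ) ≤ (Nat.card G : ℝ) ^ (1 + e) := by
    have h1 := Real.rpow_le_rpow_of_exponent_le hG1 (show (1 : ℝ) ≤ 1 + e by linarith)
    rwa [Real.rpow_one] at h1
  have hC0 : 1 ≤ CD * A + A * N₀ + (⌈2 / (d / 2)⌉₊ : ℝ) := by linarith
  have hs1 : 1 ≤ (CD * A + A * N₀ + (⌈2 / (d / 2)⌉₊ : ℝ)) * N ^ d :=
    one_le_mul_of_one_le_of_one_le hC0 hNd
  have hρ1 : 0 ≤ (CD * A + A * N₀ + (⌈2 / (d / 2)⌉₊ : ℝ)) * N ^ (-(d / 2 * γL)) :=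
    mul_nonneg (by linarith) hNγ
  rcases le_or_gt N N₀ with hNN | hNN
  · refine (ge_of_gd (gd_card G)).mono ?_ hs1 ?_ hρ1 hρ1 (by omega) hs1
    · exact hGe.trans (le_mul_of_one_le_left (by linarith) (by linarith))
    · have h1 : (Nat.card G : ℝ) ≤ CD * A + A * N₀ + (⌈2 / (d / 2)⌉₊ : ℝ) := by
        have h2 : A * N ≤ A * N₀ := mul_le_mul_of_nonneg_left hNN hA0.le
        linarith
      exact h1.trans (le_mul_of_one_le_right (by linarith) hGd)
  · have hN1 : 1 < N := by linarith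
    have hNη : 1 ≤ N ^ (d / 2) := Real.one_le_rpow hN hη.le
    have hk : k ≤ ⌈2 / (d / 2)⌉₊ := by
      have h1 := Mult.card hNη (fun P _ (h : (IsSymType (N ^ (d / 2 * hs)) P ∨
        IsLinType (N ^ (d / 2 * hs)) m₀ P) ∧ N ^ (d / 2) < Nat.card P) => h.2) hG
      have h2 : (N ^ (d / 2)) ^ k ≤ N ^ (2 : ℝ) := by
        refine h1.trans (hc.trans ?_)
        rw [show (2 : ℝ) = 1 + 1 by norm_num, Real.rpow_add hN0, Real.rpow_one]
        exact mul_le_mul_of_nonneg_right (by linarith) hN0.le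
      rw [← Real.rpow_natCast, ← Real.rpow_mul hN0.le, Real.rpow_le_rpow_left_iff hN1] at h2
      have h3 : (k : ℝ) ≤ 2 / (d / 2) := by
        rw [le_div_iff₀ hη, mul_comm]
        exact h2
      exact_mod_cast h3.trans (Nat.le_ceil _)
    have hn : (n₀ : ℝ) ≤ N ^ (d / 2) := by
      have h1 : ((n₀ : ℝ) ^ (1 / (d / 2))) ^ (d / 2) ≤ N ^ (d / 2) :=
        Real.rpow_le_rpow (by positivity) (hN₀2.trans hNN.le) hη.le
      rw [← Real.rpow_mul (Nat.cast_nonneg _), one_div, inv_mul_cancel₀ hη.ne', Real.rpow_one] at h1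
      exact h1
    have hANd : (A * N) ^ d ≤ A * N ^ d := by
      rw [Real.mul_rpow hA0.le hN0.le]
      refine mul_le_mul_of_nonneg_right ?_ (by linarith)
      have h1 := Real.rpow_le_rpow_of_exponent_le hA hd1
      rwa [Real.rpow_one] at h1
    have hs2 : 1 ≤ CD * A * N ^ d := one_le_mul_of_one_le_of_one_le hC1 hNd
    have key : ∀ (k : ℕ) (G : Type) [Group G] [Finite G],
        Mult (fun P _ => (IsSymType (N ^ (d / 2 * hs)) P ∨ IsLinType (N ^ (d / 2 * hs)) m₀ P) ∧
          N ^ (d / 2) < Nat.card P)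
          (fun D _ => HasSeries (N ^ (d / 2)) D) k G → (Nat.card G : ℝ) ≤ A * N →
        GE (CD * A * (Nat.card G : ℝ) ^ (1 + e)) (CD * A * N ^ d) ((Nat.card G : ℝ) ^ d)
          ((k : ℝ) * N ^ (-(d / 2 * γL))) (tD + k * (tM + 1)) G := by
      intro k
      induction k with
      | zero =>
        intro G _ _ hG hc
        have hG1 := hcard1 G
        have h0 : HasSeries (N ^ (d / 2)) G := hG
        have hAN1 : 1 ≤ A * N := one_le_mul_of_one_le_of_one_le hA hN
        have h1 : N ^ (d / 2) ≤ (A * N) ^ (d / 2) :=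
          Real.rpow_le_rpow hN0.le (le_mul_of_one_le_left hN0.le hA) hη.le
        have hGe : (Nat.card G : ℝ) ≤ (Nat.card G : ℝ) ^ (1 + e) := by
          have h1 := Real.rpow_le_rpow_of_exponent_le hG1 (show (1 : ℝ) ≤ 1 + e by linarith)
          rwa [Real.rpow_one] at h1
        have hρ0 : (0 : ℝ) ≤ ((0 : ℕ) : ℝ) * N ^ (-(d / 2 * γL)) :=
          mul_nonneg (Nat.cast_nonneg _) hNγ
        refine (ge_of_gd (hD (A * N) hAN1 G (h0.mono h1) hc)).mono ?_ ?_
          (Real.one_le_rpow hG1 hd.le) hρ0 hρ0 (by omega) hs2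
        · rw [mul_assoc]
          refine mul_le_mul_of_nonneg_left (hGe.trans ?_) (by linarith)
          exact le_mul_of_one_le_left (by linarith) hA
        · rw [mul_assoc]
          exact mul_le_mul_of_nonneg_left hANd (by linarith)
      | succ k ih =>
        intro G _ _ hG hc
        obtain ⟨P, R, iP, iR, ⟨hP1, hP2⟩, hR, ⟨f⟩⟩ := hG
        have hf : Finite (P × R) := Finite.of_equiv G f.toEquiv
        have hfP : Finite P := Finite.of_injective (fun p : P => ((p, 1) : P × R))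
          fun p q h => (Prod.ext_iff.1 h).1
        have hfR : Finite R := Finite.of_injective (fun r : R => ((1, r) : P × R))
          fun p q h => (Prod.ext_iff.1 h).2
        have hcG : (Nat.card G : ℝ) = Nat.card P * Nat.card R := by
          have h1 := Nat.card_congr f.toEquiv
          rw [Nat.card_prod] at h1
          exact_mod_cast h1
        have hP := hcard1 P
        have hRc := hcard1 R
        have hPG : (Nat.card P : ℝ) ≤ Nat.card G := by
          rw [hcG]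
          exact le_mul_of_one_le_right (by linarith) hRc
        have hRG : (Nat.card R : ℝ) ≤ Nat.card G := by
          rw [hcG]
          exact le_mul_of_one_le_left (by linarith) hP
        have h1 := ih R hR (hRG.trans hc)
        have h5 : (Nat.card P : ℝ) ^ d ≤ CD * A * N ^ d := by
          have h6 : (Nat.card P : ℝ) ^ d ≤ (A * N) ^ d :=
            Real.rpow_le_rpow (Nat.cast_nonneg _) (hPG.trans hc) hd.le
          have h7 : A * N ^ d ≤ CD * (A * N ^ d) :=
            le_mul_of_one_le_left (mul_nonneg hA0.le (by linarith)) hCD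
          rw [mul_assoc]
          exact h6.trans (hANd.trans h7)
        have h6 : GE ((Nat.card P : ℝ) ^ (1 + e)) (CD * A * N ^ d) ((Nat.card P : ℝ) ^ d)
            (N ^ (-(d / 2 * γL))) tM P := by
          rcases hP1 with hP1 | hP1
          · have h2 : n₀ ≤ Nat.card P := by
              exact_mod_cast hn.trans hP2.le
            have h3 : IsSymType ((Nat.card P : ℝ) ^ hs) P := by
              refine hP1.mono ?_
              rw [Real.rpow_mul hN0.le]
              exact Real.rpow_le_rpow (by linarith) hP2.le hhs.le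
            exact (ge_of_gd (hn₀ P h2 h3)).mono le_rfl h5 le_rfl hNγ hNγ htMS hs2
          · have h3 : IsLinType ((Nat.card P : ℝ) ^ hl) m₀ P := by
              refine hP1.mono ?_ le_rfl
              rw [Real.rpow_mul hN0.le]
              refine (Real.rpow_le_rpow (by linarith) hP2.le hhs.le).trans ?_
              exact Real.rpow_le_rpow_of_exponent_le hP hs_l
            refine (hL P h3).mono ?_ h5 le_rfl ?_ hNγ htML hs2
            · have h8 := Real.rpow_le_rpow_of_exponent_le hP (show (1 : ℝ) ≤ 1 + e by linarith)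
              rwa [Real.rpow_one] at h8
            · have h8 : (Nat.card P : ℝ) ^ (-γL) ≤ (N ^ (d / 2)) ^ (-γL) :=
                Real.rpow_le_rpow_of_nonpos (by linarith) hP2.le (by linarith)
              rw [← Real.rpow_mul hN0.le] at h8
              have h9 : d / 2 * -γL = -(d / 2 * γL) := by ring
              rwa [h9] at h8
        have h7 := GE.congr f.symm (GE.prod h6 h1 hs2 (by omega) (by omega))
        refine h7.mono ?_ le_rfl ?_ ?_ ?_ ?_ hs2
        · rw [hcG, Real.mul_rpow (Nat.cast_nonneg _) (Nat.cast_nonneg _)]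
          exact le_of_eq (by ring)
        · rw [hcG, Real.mul_rpow (Nat.cast_nonneg _) (Nat.cast_nonneg _)]
        · refine le_of_eq ?_
          push_cast
          ring
        · exact mul_nonneg (Nat.cast_nonneg _) hNγ
        · exact le_of_eq (by ring)
    refine (key k G hG hc).mono ?_ ?_ ?_ ?_ hρ1 ?_ hs1
    · exact mul_le_mul_of_nonneg_right (by linarith) (by linarith)
    · exact mul_le_mul_of_nonneg_right (by linarith) (by linarith)
    · exact le_mul_of_one_le_left (by linarith) hC0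
    · refine mul_le_mul_of_nonneg_right ?_ hNγ
      have h1 : (k : ℝ) ≤ (⌈2 / (d / 2)⌉₊ : ℝ) := by exact_mod_cast hk
      linarith
    · exact Nat.add_le_add_left (Nat.mul_le_mul_right _ hk) _

end MP0775d3.Ge
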