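import Pool.Agent.Lib.MP_0775d3_lc.Ge.Base

/-! `GE` for products of groups of wreath type, of linear type and of a group with a series. -/

set_option linter.unusedSectionVars false
set_option linter.unusedVariables false

namespace MP0775d3.Ge

open Matrix MP0775d3.Sl2 MP0775d3.Cf

/-- PROOF. As `Cf.base_gb`, with `GE.split` in place of `GD.bx`: `e = min (γ₁ / 2) (γ₂ / 2)` (or a third),
`γ₂` from `base_ge`, and the new term has rank `≤ 2 C N ^ (-γ₂) C |G| ^ (1 + e) ≤ C' |G| N ^ (-γ₂ / 2)`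
(`|G| ≤ A N`). The sum of the low rank parts is added to the rank. `γ = min (δ γ₁) (γ₂ / 2)`. -/
theorem base_gb (δ : ℝ) (hδ : 0 < δ) (hδ1 : δ ≤ 1) : ∃ η : ℝ, 0 < η ∧ ∃ h : ℝ, 0 < h ∧
    ∃ m₀ : ℕ, ∃ γ : ℝ, 0 < γ ∧ ∀ A : ℝ, 1 ≤ A → ∃ C : ℝ, 1 ≤ C ∧ ∀ N : ℝ, 1 ≤ N →
      ∀ (k : ℕ) (G : Type) [Group G] [Finite G],
      Mult (fun P _ => (IsSymType (N ^ h) P ∨ IsLinType (N ^ h) m₀ P) ∧ N ^ η < Nat.card P)
        (fun D _ => HasSeries (N ^ η) D) k G → (Nat.card G : ℝ) ≤ A * N →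
      Sl2H.GBound G (Nat.card G * (C * N ^ (-γ))) (C * N ^ δ) := by
  have hd : 0 < δ ^ 2 / 4 := by positivity
  have hd1 : δ ^ 2 / 4 ≤ 1 := by nlinarith
  obtain ⟨η, hη, γ₂, hγ₂, m₀, t, ht, hgd⟩ := base_ge (δ ^ 2 / 4) hd hd1
  obtain ⟨γ₁, hγ₁, n₁, hdec⟩ := bx_dec (δ / 2) (δ / 2) (half_pos hδ) (half_pos hδ) (2 * t + 3)
  obtain ⟨e, he⟩ : ∃ e : ℝ, e = min (γ₁ / 2) (γ₂ / 2) := ⟨_, rfl⟩
  have he0 : 0 < e := by
    rw [he]
    exact lt_min (half_pos hγ₁) (half_pos hγ₂)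
  have he1 : e ≤ γ₁ / 2 := by
    rw [he]
    exact min_le_left _ _
  have he2 : e ≤ γ₂ / 2 := by
    rw [he]
    exact min_le_right _ _
  obtain ⟨h, hh, hgd⟩ := hgd e he0
  obtain ⟨γ, hγ⟩ : ∃ γ : ℝ, γ = min (δ * γ₁) (γ₂ / 2) := ⟨_, rfl⟩
  have hγ0 : 0 < γ := by
    rw [hγ]
    exact lt_min (mul_pos hδ hγ₁) (half_pos hγ₂)
  have hγa : γ ≤ δ * γ₁ := by
    rw [hγ]
    exact min_le_left _ _
  have hγb : γ ≤ γ₂ / 2 := by
    rw [hγ]
    exact min_le_right _ _
  refine ⟨η, hη, h, hh, m₀, γ, hγ0, ?_⟩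
  intro A hA
  have hA0 : 0 < A := by linarith
  obtain ⟨C₀, hC₀, hgd⟩ := hgd A hA
  have hC₀0 : 0 < C₀ := by linarith
  obtain ⟨X₁, hX₁⟩ : ∃ X₁ : ℝ, X₁ = 1 + 2 * C₀ * C₀ * A ^ e := ⟨_, rfl⟩
  have hAe : 0 < A ^ e := by positivity
  have hX₁1 : 1 ≤ X₁ := by
    rw [hX₁]
    have : 0 < 2 * C₀ * C₀ * A ^ e := by positivity
    linarith
  obtain ⟨X₀, hX₀⟩ : ∃ X₀ : ℝ, X₀ = max (max (C₀ ^ (4 / δ)) (C₀ ^ (2 / γ₁))) (max (n₁ : ℝ) X₁) :=
    ⟨_, rfl⟩
  have hX1 : C₀ ^ (4 / δ) ≤ X₀ := by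
    rw [hX₀]
    exact (le_max_left _ _).trans (le_max_left _ _)
  have hX2 : C₀ ^ (2 / γ₁) ≤ X₀ := by
    rw [hX₀]
    exact (le_max_right _ _).trans (le_max_left _ _)
  have hX3 : (n₁ : ℝ) ≤ X₀ := by
    rw [hX₀]
    exact (le_max_left _ _).trans (le_max_right _ _)
  have hX4 : X₁ ≤ X₀ := by
    rw [hX₀]
    exact (le_max_right _ _).trans (le_max_right _ _)
  refine ⟨max A X₀, le_max_of_le_left hA, ?_⟩
  intro N hN k G _ _ hG hcard _ f hf
  have hN0 : 0 < N := by linarith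
  have hC0 : 0 < max A X₀ := by
    have : A ≤ max A X₀ := le_max_left _ _
    linarith
  obtain ⟨n, hn⟩ : ∃ n : ℝ, n = Nat.card G := ⟨_, rfl⟩
  have hn1 : 1 ≤ n := by
    rw [hn]
    exact_mod_cast Nat.card_pos
  have hn0 : 0 < n := by linarith
  have hNδ : 1 ≤ N ^ δ := Real.one_le_rpow hN hδ.le
  by_cases hsmall : n ≤ max A X₀ * N ^ δ
  · refine ⟨0, groupMat f, (zero_add _).symm, ?_, fun x => ?_, fun y => ?_⟩
    · rw [Matrix.rank_zero, Nat.cast_zero]
      positivity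
    · refine le_trans ?_ hsmall
      rw [hn]
      exact_mod_cast (Set.ncard_le_card _)
    · refine le_trans ?_ hsmall
      rw [hn]
      exact_mod_cast (Set.ncard_le_card _)
  · have hbig := not_le.1 hsmall
    have hnN : N ^ δ ≤ n := by
      have h1 : N ^ δ ≤ max A X₀ * N ^ δ := by
        have h2 : 1 ≤ max A X₀ := le_max_of_le_left hA
        nlinarith
      linarith
    have hnX : X₀ ≤ n := by
      have h1 : X₀ ≤ max A X₀ * N ^ δ := by
        have h2 : X₀ ≤ max A X₀ := le_max_right _ _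
        nlinarith
      linarith
    have hpow : ∀ {a b : ℝ}, a ≤ b → n ^ a ≤ n ^ b := fun hab =>
      Real.rpow_le_rpow_of_exponent_le hn1 hab
    have hCa : C₀ ≤ n ^ (δ / 4) := by
      calc C₀ = (C₀ ^ (4 / δ)) ^ (δ / 4) := by
            rw [← Real.rpow_mul hC₀0.le]
            have : 4 / δ * (δ / 4) = 1 := by field_simp
            rw [this, Real.rpow_one]
        _ ≤ n ^ (δ / 4) := Real.rpow_le_rpow (by positivity) (hX1.trans hnX) (by positivity)
    have hCb : C₀ ≤ n ^ (γ₁ / 2) := by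
      calc C₀ = (C₀ ^ (2 / γ₁)) ^ (γ₁ / 2) := by
            rw [← Real.rpow_mul hC₀0.le]
            have : 2 / γ₁ * (γ₁ / 2) = 1 := by field_simp
            rw [this, Real.rpow_one]
        _ ≤ n ^ (γ₁ / 2) := Real.rpow_le_rpow (by positivity) (hX2.trans hnX) (by positivity)
    have hw : C₀ * n ^ (1 + e) ≤ n ^ (1 + γ₁) := by
      calc C₀ * n ^ (1 + e) ≤ n ^ (γ₁ / 2) * n ^ (1 + e) :=
            mul_le_mul_of_nonneg_right hCb (by positivity)
        _ = n ^ (1 + e + γ₁ / 2) := by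
            rw [← Real.rpow_add hn0]
            congr 1
            ring
        _ ≤ n ^ (1 + γ₁) := hpow (by linarith)
    have hNd : N ^ (δ ^ 2 / 4) ≤ n ^ (δ / 4) := by
      calc N ^ (δ ^ 2 / 4) = (N ^ δ) ^ (δ / 4) := by
            rw [← Real.rpow_mul hN0.le]
            congr 1
            ring
        _ ≤ n ^ (δ / 4) := Real.rpow_le_rpow (by positivity) hnN (by positivity)
    have hdd : n ^ (δ / 4) * n ^ (δ / 4) = n ^ (δ / 2) := by
      rw [← Real.rpow_add hn0]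
      congr 1
      ring
    have hs : C₀ * N ^ (δ ^ 2 / 4) ≤ n ^ (δ / 2) := by
      rw [← hdd]
      exact mul_le_mul hCa hNd (by positivity) (by positivity)
    have hu : C₀ * n ^ (δ ^ 2 / 4) ≤ n ^ (δ / 2) := by
      rw [← hdd]
      exact mul_le_mul hCa (hpow (by nlinarith)) (by positivity) (by positivity)
    have hg := hgd N hN k G hG hcard
    rw [← hn] at hg
    have hs1 : 1 ≤ n ^ (δ / 2) := Real.one_le_rpow hn1 (by positivity)
    have hρ : 0 ≤ C₀ * N ^ (-γ₂) := by positivity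
    classical
    obtain ⟨P, Q, hPQ, hP, hQ⟩ :=
      (hg.mono le_rfl hs hu le_rfl hρ le_rfl hs1).split hs1 le_rfl hf
    have hcardF : (Fintype.card G : ℝ) = n := by
      rw [hn, Nat.card_eq_fintype_card]
    have hn₁ : n₁ ≤ Fintype.card G := by
      have : (n₁ : ℝ) ≤ Fintype.card G := by
        rw [hcardF]
        exact hX3.trans hnX
      exact_mod_cast this
    have hD := hdec G hn₁ P (by rw [hcardF]; exact hP.mono hw le_rfl le_rfl hs1)
    rw [hcardF] at hD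
    obtain ⟨R, S, hRS, hR, hS1, hS2⟩ := rdec_of_dec hD
    have hpos : 0 < N ^ (-γ) := by positivity
    have hSn : n ^ (δ / 2 + δ / 2) ≤ max A X₀ * N ^ δ := by
      have e1 : δ / 2 + δ / 2 = δ := by ring
      rw [e1]
      calc n ^ δ ≤ (A * N) ^ δ := Real.rpow_le_rpow hn0.le (by rw [hn]; exact hcard) hδ.le
        _ = A ^ δ * N ^ δ := Real.mul_rpow (by linarith) hN0.le
        _ ≤ max A X₀ * N ^ δ := by
            refine mul_le_mul_of_nonneg_right ?_ (by positivity)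
            calc A ^ δ ≤ A ^ (1 : ℝ) := Real.rpow_le_rpow_of_exponent_le hA hδ1
              _ = A := Real.rpow_one A
              _ ≤ max A X₀ := le_max_left _ _
    refine ⟨R + Q, S, ?_, ?_, fun x => (hS1 x).trans hSn, fun y => (hS2 y).trans hSn⟩
    · rw [hPQ, hRS]
      abel
    · rw [← hn]
      have h0 : ((R + Q).rank : ℝ) ≤ R.rank + Q.rank := by
        exact_mod_cast MP0775d3.Kron.rank_add_le R Q
      have h1 : n ^ (1 - γ₁) ≤ n * N ^ (-γ) := by
        calc n ^ (1 - γ₁) = n * n ^ (-γ₁) := by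
              rw [sub_eq_add_neg, Real.rpow_add hn0, Real.rpow_one]
          _ ≤ n * N ^ (-γ) := by
              refine mul_le_mul_of_nonneg_left ?_ hn0.le
              calc n ^ (-γ₁) ≤ (N ^ δ) ^ (-γ₁) :=
                    Real.rpow_le_rpow_of_nonpos (by positivity) hnN (by linarith)
                _ = N ^ (-(δ * γ₁)) := by
                    rw [← Real.rpow_mul hN0.le]
                    congr 1
                    ring
                _ ≤ N ^ (-γ) := Real.rpow_le_rpow_of_exponent_le hN (by linarith)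
      have h2 : 2 * (C₀ * N ^ (-γ₂)) * (C₀ * n ^ (1 + e)) ≤
          n * (2 * C₀ * C₀ * A ^ e * N ^ (-γ)) := by
        have h3 : n ^ (1 + e) = n * n ^ e := by
          rw [Real.rpow_add hn0, Real.rpow_one]
        have h4 : n ^ e ≤ A ^ e * N ^ e := by
          rw [← Real.mul_rpow hA0.le hN0.le]
          exact Real.rpow_le_rpow hn0.le (by rw [hn]; exact hcard) he0.le
        have h5 : N ^ (-γ₂) * N ^ e ≤ N ^ (-γ) := by
          rw [← Real.rpow_add hN0]
          exact Real.rpow_le_rpow_of_exponent_le hN (by linarith)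
        have h6 : 0 < N ^ (-γ₂) := by positivity
        calc 2 * (C₀ * N ^ (-γ₂)) * (C₀ * n ^ (1 + e)) =
              n * (2 * C₀ * C₀) * (N ^ (-γ₂) * n ^ e) := by
                rw [h3]
                ring
          _ ≤ n * (2 * C₀ * C₀) * (N ^ (-γ₂) * (A ^ e * N ^ e)) := by
                refine mul_le_mul_of_nonneg_left ?_ (by positivity)
                exact mul_le_mul_of_nonneg_left h4 h6.le
          _ = n * (2 * C₀ * C₀ * A ^ e) * (N ^ (-γ₂) * N ^ e) := by ring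
          _ ≤ n * (2 * C₀ * C₀ * A ^ e) * N ^ (-γ) :=
                mul_le_mul_of_nonneg_left h5 (by positivity)
          _ = n * (2 * C₀ * C₀ * A ^ e * N ^ (-γ)) := by ring
      have h7 : n * N ^ (-γ) + n * (2 * C₀ * C₀ * A ^ e * N ^ (-γ)) =
          n * (X₁ * N ^ (-γ)) := by
        rw [hX₁]
        ring
      have h8 : n * (X₁ * N ^ (-γ)) ≤ n * (max A X₀ * N ^ (-γ)) := by
        refine mul_le_mul_of_nonneg_left ?_ hn0.le
        exact mul_le_mul_of_nonneg_right (hX4.trans (le_max_right _ _)) hpos.le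
      linarith

end MP0775d3.Ge
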