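import Pool.Agent.Lib.MP_0775d3_lc.Ge.Defs

/-! `GE`: first properties. -/

set_option linter.unusedSectionVars false
set_option linter.unusedVariables false

namespace MP0775d3.Ge

open Matrix MP0775d3.Sl2 MP0775d3.Cf

section
variable {G H : Type} [Group G] [Group H] {w s u ρ w' s' u' ρ' : ℝ} {t t' : ℕ}

/-- PROOF. As `GD.mono`; `0 ≤ w` because `Z` has at most `w` elements (`Bx.card_le`). -/
theorem GE.mono (h : GE w s u ρ t G) (hw : w ≤ w') (hs : s ≤ s') (hu : u ≤ u') (hρ : ρ ≤ ρ')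
    (hρ' : 0 ≤ ρ') (ht : t ≤ t') (hs' : 1 ≤ s') : GE w' s' u' ρ' t' G := by
  obtain ⟨Z, i1, i2, U, U', L, l, l', X, X', h1, h2, x1, x2, h3, h4, h5⟩ := h
  have hw0 : 0 ≤ w := (Nat.cast_nonneg _).trans h2.card_le
  have h6 : ρ * w ≤ ρ' * w' :=
    (mul_le_mul_of_nonneg_right hρ hw0).trans (mul_le_mul_of_nonneg_left hw hρ')
  exact ⟨Z, i1, i2, U, U', L, l, l', X, X', h1.mono hw hs ht hs', h2.mono hw hs ht hs',
    x1.trans h6, x2.trans h6, fun a => (h3 a).trans hu, fun a => (h4 a).trans hu, h5⟩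

/-- PROOF. As `GD.congr`. -/
theorem GE.congr (e : G ≃* H) (h : GE w s u ρ t G) : GE w s u ρ t H := by
  obtain ⟨Z, i1, i2, U, U', L, l, l', X, X', h1, h2, x1, x2, h3, h4, h5⟩ := h
  refine ⟨Z, i1, i2, U.submatrix e.symm id, U'.submatrix id e.symm, L, l, l', X, X',
    h1.submatrix e.symm.injective Function.injective_id,
    h2.submatrix Function.injective_id e.symm.injective, x1, x2, h3, h4, fun f hf => ?_⟩
  obtain ⟨B, hB, hE⟩ := h5 (fun g => f (e g)) (by
    intro g x
    change f (e (g * x * g⁻¹)) = f (e x)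
    rw [map_mul, map_mul, map_inv]
    exact hf (e g) (e x))
  refine ⟨B, hB, ?_⟩
  ext x y
  have h6 := congrFun (congrFun hE (e.symm x)) (e.symm y)
  have h7 : groupMat (fun g => f (e g)) (e.symm x) (e.symm y) = groupMat f x y := by
    change f (e (e.symm x * (e.symm y)⁻¹)) = f (x * y⁻¹)
    rw [map_mul, map_inv, e.apply_symm_apply, e.apply_symm_apply]
  rw [← h7, h6]
  rfl

/-- PROOF. Empty exceptional sets. -/
theorem ge_of_gd (h : GD w s u t G) : GE w s u 0 t G := by
  obtain ⟨Z, i1, i2, U, U', L, l, l', h1, h2, h3, h4, h5⟩ := h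
  have e1 : ∀ (m : Z → L) (a : L), ({z | m z = a ∧ z ∉ (∅ : Set Z)} : Set Z) = {z | m z = a} := by
    intro m a
    ext z
    exact ⟨fun hz => hz.1, fun hz => ⟨hz, fun h => h⟩⟩
  refine ⟨Z, i1, i2, U, U', L, l, l', ∅, ∅, h1, h2, ?_, ?_, fun a => ?_, fun a => ?_, h5⟩
  · rw [Set.ncard_empty, Nat.cast_zero, zero_mul]
  · rw [Set.ncard_empty, Nat.cast_zero, zero_mul]
  · rw [e1]
    exact h3 a
  · rw [e1]
    exact h4 a

private theorem ge_fib {Z Z' L L' : Type} [Finite Z] [Finite Z'] {l : Z → L} {m : Z' → L'}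
    {X : Set Z} {Y : Set Z'}
    (h : ∀ a, (({z | l z = a ∧ z ∉ X} : Set Z).ncard : ℝ) ≤ u)
    (h' : ∀ a, (({z | m z = a ∧ z ∉ Y} : Set Z').ncard : ℝ) ≤ u') (a : L × L') :
    (({z | (l z.1, m z.2) = a ∧ z ∉ {z : Z × Z' | z.1 ∈ X ∨ z.2 ∈ Y}} :
      Set (Z × Z')).ncard : ℝ) ≤ u * u' := by
  have h1 : ({z | (l z.1, m z.2) = a ∧ z ∉ {z : Z × Z' | z.1 ∈ X ∨ z.2 ∈ Y}} : Set (Z × Z')) =
      {z | l z = a.1 ∧ z ∉ X} ×ˢ {z | m z = a.2 ∧ z ∉ Y} := by
    ext z
    constructor
    · rintro ⟨hz, hz'⟩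
      exact ⟨⟨congrArg Prod.fst hz, fun h => hz' (Or.inl h)⟩,
        ⟨congrArg Prod.snd hz, fun h => hz' (Or.inr h)⟩⟩
    · rintro ⟨⟨hz1, hz2⟩, ⟨hz3, hz4⟩⟩
      exact ⟨Prod.ext hz1 hz3, fun h => h.elim hz2 hz4⟩
  have h2 : (0 : ℝ) ≤ u := (Nat.cast_nonneg _).trans (h a.1)
  rw [h1, Set.ncard_prod, Nat.cast_mul]
  exact mul_le_mul (h a.1) (h' a.2) (Nat.cast_nonneg _) h2

private theorem ge_exc {Z Z' : Type} [Fintype Z] [Fintype Z'] {X : Set Z} {Y : Set Z'}
    (hX : (X.ncard : ℝ) ≤ ρ * w) (hY : (Y.ncard : ℝ) ≤ ρ' * w')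
    (hZ : (Fintype.card Z : ℝ) ≤ w) (hZ' : (Fintype.card Z' : ℝ) ≤ w') :
    ((({z : Z × Z' | z.1 ∈ X ∨ z.2 ∈ Y}) : Set (Z × Z')).ncard : ℝ) ≤
      (ρ + ρ') * (w * w') := by
  have h1 : ({z : Z × Z' | z.1 ∈ X ∨ z.2 ∈ Y} : Set (Z × Z')) =
      X ×ˢ Set.univ ∪ Set.univ ×ˢ Y := by
    ext z
    constructor
    · rintro (hz | hz)
      · exact Or.inl ⟨hz, Set.mem_univ _⟩
      · exact Or.inr ⟨Set.mem_univ _, hz⟩
    · rintro (hz | hz)
      · exact Or.inl hz.1
      · exact Or.inr hz.2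
  rw [h1]
  have h2 : ((X ×ˢ (Set.univ : Set Z') ∪ (Set.univ : Set Z) ×ˢ Y).ncard : ℝ) ≤
      (X.ncard : ℝ) * Fintype.card Z' + Fintype.card Z * (Y.ncard : ℝ) := by
    have h3 := Set.ncard_union_le (X ×ˢ (Set.univ : Set Z')) ((Set.univ : Set Z) ×ˢ Y)
    rw [Set.ncard_prod, Set.ncard_prod, Set.ncard_univ, Set.ncard_univ,
      Nat.card_eq_fintype_card, Nat.card_eq_fintype_card] at h3
    exact_mod_cast h3
  have h4 : (X.ncard : ℝ) * Fintype.card Z' ≤ ρ * w * w' :=
    mul_le_mul hX hZ' (Nat.cast_nonneg _) ((Nat.cast_nonneg _).trans hX)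
  have h5 : (Fintype.card Z : ℝ) * (Y.ncard : ℝ) ≤ w * (ρ' * w') :=
    mul_le_mul hZ hY (Nat.cast_nonneg _) ((Nat.cast_nonneg _).trans hZ)
  calc _ ≤ _ := h2
    _ ≤ ρ * w * w' + w * (ρ' * w') := add_le_add h4 h5
    _ = (ρ + ρ') * (w * w') := by ring

/-- PROOF. As `GD.prod` (same `Z × Z'`, same matrices, same labels), exceptional set
`{z | z.1 ∈ X ∨ z.2 ∈ Y}`: at most `|X| |Z'| + |Z| |Y| ≤ ρ w w' + w ρ' w'` elements (`Bx.card_le`). -/
theorem GE.prod [Finite G] [Finite H] (h : GE w s u ρ t G) (h' : GE w' s u' ρ' t' H) (hs : 1 ≤ s)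
    (ht : 1 ≤ t) (ht' : 1 ≤ t') : GE (w * w') s (u * u') (ρ + ρ') (t + t' + 1) (G × H) := by
  classical
  have := Fintype.ofFinite G
  have := Fintype.ofFinite H
  have : Fintype (ConjClasses G) := Fintype.ofFinite _
  obtain ⟨Z, i1, i2, U, U', L, l, l', X, X', h1, h2, x1, x2, h3, h4, h5⟩ := h
  obtain ⟨Y, i3, i4, V, V', M, m, m', W, W', k1, k2, y1, y2, k3, k4, k5⟩ := h'
  refine ⟨Z × Y, inferInstance, inferInstance, kroneckerMap (fun a b => a * b) U V,
    kroneckerMap (fun a b => a * b) U' V', L × M, fun z => (l z.1, m z.2),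
    fun z => (l' z.1, m' z.2),
    {z | z.1 ∈ X ∨ z.2 ∈ W}, {z | z.1 ∈ X' ∨ z.2 ∈ W'}, ?_, ?_,
    ge_exc x1 y1 h2.card_le k2.card_le, ge_exc x2 y2 h2.card_le k2.card_le,
    ge_fib h3 k3, ge_fib h4 k4, fun f hf => ?_⟩
  · exact h1.kron k1 ht ht' hs
  · exact h2.kron k2 ht ht' hs
  · have hφ : ∀ C : ConjClasses G, IsClassFun fun g : G =>
        if ConjClasses.mk g = C then (1 : ℂ) else 0 := by
      intro C g x
      have h6 : ConjClasses.mk (g * x * g⁻¹) = ConjClasses.mk x := by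
        rw [ConjClasses.mk_eq_mk_iff_isConj]
        exact (isConj_iff.2 ⟨g, rfl⟩ : IsConj x (g * x * g⁻¹)).symm
      change (if ConjClasses.mk (g * x * g⁻¹) = C then (1 : ℂ) else 0) = _
      rw [h6]
    have hψ : ∀ C : ConjClasses G, IsClassFun fun y : H => f (Quotient.out C, y) := by
      intro C g x
      have h6 := hf ((1 : G), g) (Quotient.out C, x)
      have h7 : ((1 : G), g) * (Quotient.out C, x) * ((1 : G), g)⁻¹ =
          (Quotient.out C, g * x * g⁻¹) := by
        rw [Prod.inv_mk, Prod.mk_mul_mk, Prod.mk_mul_mk, one_mul, inv_one, mul_one]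
      rw [h7] at h6
      exact h6
    choose B hB hE using fun C => h5 _ (hφ C)
    choose B' hB' hE' using fun C => k5 _ (hψ C)
    refine ⟨∑ C, kroneckerMap (fun a b => a * b) (B C) (B' C), fun z z' hz => ?_, ?_⟩
    · rw [Matrix.sum_apply] at hz
      obtain ⟨C, _, hC⟩ := Finset.exists_ne_zero_of_sum_ne_zero hz
      rw [kroneckerMap_apply] at hC
      exact Prod.ext (hB C _ _ (left_ne_zero_of_mul hC)) (hB' C _ _ (right_ne_zero_of_mul hC))
    · have h6 : groupMat f = ∑ C, kroneckerMap (fun a b => a * b)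
          (groupMat fun g : G => if ConjClasses.mk g = C then (1 : ℂ) else 0)
          (groupMat fun y : H => f (Quotient.out C, y)) := by
        ext p q
        rw [Matrix.sum_apply, Finset.sum_eq_single (ConjClasses.mk (p.1 * q.1⁻¹))]
        · rw [kroneckerMap_apply]
          change f (p * q⁻¹) = (if ConjClasses.mk (p.1 * q.1⁻¹) = ConjClasses.mk (p.1 * q.1⁻¹)
            then (1 : ℂ) else 0) *
            f (Quotient.out (ConjClasses.mk (p.1 * q.1⁻¹)), p.2 * q.2⁻¹)
          rw [if_pos rfl, one_mul]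
          have h7 : IsConj (p.1 * q.1⁻¹) (Quotient.out (ConjClasses.mk (p.1 * q.1⁻¹))) := by
            rw [← ConjClasses.mk_eq_mk_iff_isConj]
            exact (Quotient.out_eq (ConjClasses.mk (p.1 * q.1⁻¹))).symm
          obtain ⟨c, hc⟩ := isConj_iff.1 h7
          have h8 := hf (c, (1 : H)) (p * q⁻¹)
          have h9 : (c, (1 : H)) * (p * q⁻¹) * (c, (1 : H))⁻¹ =
              (Quotient.out (ConjClasses.mk (p.1 * q.1⁻¹)), p.2 * q.2⁻¹) := by
            rw [← hc]
            ext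
            · rfl
            · simp
          rw [h9] at h8
          exact h8.symm
        · intro C _ hC
          rw [kroneckerMap_apply]
          change (if ConjClasses.mk (p.1 * q.1⁻¹) = C then (1 : ℂ) else 0) * _ = 0
          rw [if_neg (fun h7 => hC h7.symm), zero_mul]
        · intro h7
          exact absurd (Finset.mem_univ _) h7
      rw [h6, Matrix.mul_sum, Matrix.sum_mul]
      refine Finset.sum_congr rfl fun C _ => ?_
      rw [hE, hE']
      have h10 := Matrix.mul_kronecker_mul (U * B C) U' (V * B' C) V'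
      have h11 := Matrix.mul_kronecker_mul U (B C) V (B' C)
      rw [h11] at h10
      exact h10

private theorem ge_rank_add {X Y : Type} [Fintype X] [Fintype Y] (A B : Matrix X Y ℂ) :
    (A + B).rank ≤ A.rank + B.rank := by
  classical
  have h : LinearMap.range (A + B).mulVecLin ≤
      LinearMap.range A.mulVecLin ⊔ LinearMap.range B.mulVecLin := by
    rintro _ ⟨x, rfl⟩
    rw [Matrix.mulVecLin_add]
    exact Submodule.add_mem_sup ⟨x, rfl⟩ ⟨x, rfl⟩
  exact (Submodule.finrank_mono h).trans (Submodule.finrank_add_le_finrank_add_finrank _ _)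

/-- the diagonal `0 1`-matrix of a set has rank at most the number of elements -/
private theorem ge_rank_diag {Z : Type} [Fintype Z] [DecidableEq Z] (X : Set Z)
    [DecidablePred (· ∈ X)] :
    (Matrix.diagonal fun z => if z ∈ X then (1 : ℂ) else 0).rank ≤ X.ncard := by
  classical
  rw [Matrix.rank_diagonal, ← Nat.card_eq_fintype_card, ← Nat.card_coe_set_eq]
  refine Nat.card_le_card_of_injective
    (fun z : {z // (if z ∈ X then (1 : ℂ) else 0) ≠ 0} => (⟨z.1, ?_⟩ : X)) ?_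
  · by_contra h
    exact z.2 (if_neg h)
  · intro a b hab
    exact Subtype.ext (congrArg (fun z : X => (z : Z)) hab)

/-- PROOF. `B = B₀ + B₁`, `B₀ z z' = 0` if `z ∈ X` or `z' ∈ X'`, else `B z z'`. `B₀` is `Blk s`
(labels in `L ⊕ Z`: the elements of the exceptional sets get their own labels), so `U * B₀ * U'` is
`Bx w s (2 * t + 3)` as in `GD.bx`. `rank B₁ ≤ |X| + |X'|`: `B₁ = D * B + (1 - D) * B * D'` with
diagonal `0 1`-matrices of rank `|X|`, `|X'|`. -/
theorem GE.split [Fintype G] [DecidableEq G] (h : GE w s u ρ t G) (hs : 1 ≤ s) (hu : u ≤ s)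
    {f : G → ℂ} (hf : IsClassFun f) : ∃ P Q : Matrix G G ℂ, groupMat f = P + Q ∧
      Bx w s (2 * t + 3) P ∧ (Q.rank : ℝ) ≤ 2 * ρ * w := by
  classical
  obtain ⟨Z, i1, i2, U, U', L, l, l', X, X', h1, h2, x1, x2, h3, h4, h5⟩ := h
  obtain ⟨B, hB, hE⟩ := h5 f hf
  have hZ : (Fintype.card Z : ℝ) ≤ w := h2.card_le
  obtain ⟨B₀, hB₀⟩ : ∃ B₀ : Matrix Z Z ℂ, B₀ = Matrix.of fun z z' =>
    if z ∈ X ∨ z' ∈ X' then (0 : ℂ) else B z z' := ⟨_, rfl⟩
  -- the regular part
  have b1 : Blk s B₀ := by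
    refine ⟨L ⊕ Z, fun z => if z ∈ X then Sum.inr z else Sum.inl (l z),
      fun z => if z ∈ X' then Sum.inr z else Sum.inl (l' z), ?_, ?_, ?_⟩
    · rintro (a | a)
      · refine le_trans ?_ ((h3 a).trans hu)
        refine Nat.cast_le.2 (Set.ncard_le_ncard ?_ (Set.toFinite _))
        intro z hz
        by_cases hX : z ∈ X
        · have hz' : (if z ∈ X then (Sum.inr z : L ⊕ Z) else Sum.inl (l z)) = Sum.inl a := hz
          rw [if_pos hX] at hz'
          cases hz'
        · have hz' : (if z ∈ X then (Sum.inr z : L ⊕ Z) else Sum.inl (l z)) = Sum.inl a := hz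
          rw [if_neg hX] at hz'
          exact ⟨Sum.inl_injective hz', hX⟩
      · refine le_trans ?_ hs
        have h6 : ({z | (if z ∈ X then (Sum.inr z : L ⊕ Z) else Sum.inl (l z)) = Sum.inr a} :
            Set Z).ncard ≤ 1 := by
          refine (Set.ncard_le_ncard (t := {a}) ?_ (Set.toFinite _)).trans
            (Set.ncard_singleton a).le
          intro z hz
          by_cases hX : z ∈ X
          · have hz' : (if z ∈ X then (Sum.inr z : L ⊕ Z) else Sum.inl (l z)) = Sum.inr a := hz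
            rw [if_pos hX] at hz'
            exact Sum.inr_injective hz'
          · have hz' : (if z ∈ X then (Sum.inr z : L ⊕ Z) else Sum.inl (l z)) = Sum.inr a := hz
            rw [if_neg hX] at hz'
            cases hz'
        exact_mod_cast h6
    · rintro (a | a)
      · refine le_trans ?_ ((h4 a).trans hu)
        refine Nat.cast_le.2 (Set.ncard_le_ncard ?_ (Set.toFinite _))
        intro z hz
        by_cases hX : z ∈ X'
        · have hz' : (if z ∈ X' then (Sum.inr z : L ⊕ Z) else Sum.inl (l' z)) = Sum.inl a := hz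
          rw [if_pos hX] at hz'
          cases hz'
        · have hz' : (if z ∈ X' then (Sum.inr z : L ⊕ Z) else Sum.inl (l' z)) = Sum.inl a := hz
          rw [if_neg hX] at hz'
          exact ⟨Sum.inl_injective hz', hX⟩
      · refine le_trans ?_ hs
        have h6 : ({z | (if z ∈ X' then (Sum.inr z : L ⊕ Z) else Sum.inl (l' z)) = Sum.inr a} :
            Set Z).ncard ≤ 1 := by
          refine (Set.ncard_le_ncard (t := {a}) ?_ (Set.toFinite _)).trans
            (Set.ncard_singleton a).le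
          intro z hz
          by_cases hX : z ∈ X'
          · have hz' : (if z ∈ X' then (Sum.inr z : L ⊕ Z) else Sum.inl (l' z)) = Sum.inr a := hz
            rw [if_pos hX] at hz'
            exact Sum.inr_injective hz'
          · have hz' : (if z ∈ X' then (Sum.inr z : L ⊕ Z) else Sum.inl (l' z)) = Sum.inr a := hz
            rw [if_neg hX] at hz'
            cases hz'
        exact_mod_cast h6
    · intro z z' hz
      rw [hB₀, Matrix.of_apply] at hz
      by_cases h7 : z ∈ X ∨ z' ∈ X'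
      · rw [if_pos h7] at hz
        exact absurd rfl hz
      · rw [if_neg h7] at hz
        change (if z ∈ X then (Sum.inr z : L ⊕ Z) else Sum.inl (l z)) =
          if z' ∈ X' then Sum.inr z' else Sum.inl (l' z')
        rw [if_neg fun h8 => h7 (Or.inl h8), if_neg fun h8 => h7 (Or.inr h8), hB z z' hz]
  have b2 : Bx w s 1 B₀ := bx_of_blk b1 hs hZ hZ
  have b3 := (h1.mul b2 hs).mul h2 hs
  have e : t + 1 + 1 + t + 1 = 2 * t + 3 := by omega
  rw [e] at b3
  refine ⟨U * B₀ * U', U * (B - B₀) * U', ?_, b3, ?_⟩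
  · rw [hE, ← Matrix.add_mul, ← Matrix.mul_add, add_sub_cancel]
  · -- the exceptional part
    obtain ⟨D, hD⟩ : ∃ D : Matrix Z Z ℂ, D = Matrix.diagonal fun z =>
      if z ∈ X then (1 : ℂ) else 0 := ⟨_, rfl⟩
    obtain ⟨D', hD'⟩ : ∃ D' : Matrix Z Z ℂ, D' = Matrix.diagonal fun z =>
      if z ∈ X' then (1 : ℂ) else 0 := ⟨_, rfl⟩
    have h6 : B - B₀ = D * B + (1 - D) * B * D' := by
      have h7 : (1 - D) * B = B - D * B := by rw [Matrix.sub_mul, Matrix.one_mul]
      rw [h7]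
      ext z z'
      rw [Matrix.sub_apply, Matrix.add_apply, hB₀, Matrix.of_apply, hD', Matrix.mul_diagonal,
        Matrix.sub_apply, hD, Matrix.diagonal_mul]
      by_cases h8 : z ∈ X
      · rw [if_pos (Or.inl h8), if_pos h8]
        ring
      · by_cases h9 : z' ∈ X'
        · rw [if_pos (Or.inr h9), if_neg h8, if_pos h9]
          ring
        · rw [if_neg (fun h => h.elim h8 h9), if_neg h8, if_neg h9]
          ring
    have h7 : (B - B₀).rank ≤ X.ncard + X'.ncard := by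
      rw [h6]
      refine (ge_rank_add _ _).trans (add_le_add ?_ ?_)
      · refine (Matrix.rank_mul_le_left _ _).trans ?_
        rw [hD]
        exact ge_rank_diag X
      · refine (Matrix.rank_mul_le_right _ _).trans ?_
        rw [hD']
        exact ge_rank_diag X'
    have h8 : (U * (B - B₀) * U').rank ≤ X.ncard + X'.ncard :=
      ((Matrix.rank_mul_le_left _ _).trans (Matrix.rank_mul_le_right _ _)).trans h7
    have h9 : ((U * (B - B₀) * U').rank : ℝ) ≤ (X.ncard : ℝ) + X'.ncard := by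
      exact_mod_cast h8
    linarith

end

end MP0775d3.Ge
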