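import Pool.Agent.Lib.MP_0775d3_lc.Ge.Defs

/-! Characters of abelian subgroups as functions, and their idempotents. -/

set_option linter.unusedSectionVars false
set_option linter.unusedVariables false

namespace MP0775d3.Ge

open Matrix MP0775d3.Sl2 MP0775d3.Cf

section
variable {S X : Type} [Group S] [Fintype S] [Fintype X] [DecidableEq X]

theorem cj_one (χ : S → ℂ) : cj 1 χ = χ := by
  funext x
  simp [cj]

theorem cj_cj (a b : S) (χ : S → ℂ) : cj a (cj b χ) = cj (a * b) χ := by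
  funext x
  simp [cj, mul_assoc]

/-- PROOF. `A` is finite, so `h A h⁻¹ = A`. -/
theorem IsCh.cj {A : Subgroup S} {χ : S → ℂ} (h : IsCh A χ) {g : S}
    (hg : ∀ x ∈ A, g * x * g⁻¹ ∈ A) : IsCh A (Ge.cj g χ) := by
  have h1 : ∀ x, g⁻¹ * x * g ∈ A ↔ x ∈ A := by
    intro x
    constructor
    · intro hx
      have h2 := hg _ hx
      have h3 : g * (g⁻¹ * x * g) * g⁻¹ = x := by group
      rwa [h3] at h2
    · intro hx
      have hinj : Function.Injective (fun y : A => (⟨g * y * g⁻¹, hg y y.2⟩ : A)) := by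
        intro y z hyz
        have h2 := congrArg Subtype.val hyz
        simp only at h2
        exact Subtype.ext (mul_left_cancel (mul_right_cancel h2))
      obtain ⟨y, hy⟩ := (Finite.injective_iff_surjective.1 hinj) ⟨x, hx⟩
      have h2 := congrArg Subtype.val hy
      simp only at h2
      have h3 : g⁻¹ * x * g = y := by
        rw [← h2]
        group
      rw [h3]
      exact y.2
  refine ⟨?_, ?_, ?_⟩
  · unfold Ge.cj
    rw [mul_one, inv_mul_cancel, h.1]
  · intro x hx y hy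
    unfold Ge.cj
    rw [← h.2.1 _ ((h1 x).2 hx) _ ((h1 y).2 hy)]
    congr 1
    group
  · intro x hx
    exact h.2.2 _ fun hc => hx ((h1 x).1 hc)

/-- The function of a homomorphism. -/
noncomputable def exCh (A : Subgroup S) (φ : A →* ℂˣ) : S → ℂ :=
  open Classical in fun x => if h : x ∈ A then ((φ ⟨x, h⟩ : ℂˣ) : ℂ) else 0

theorem exCh_apply (A : Subgroup S) (φ : A →* ℂˣ) (x : A) :
    exCh A φ x = ((φ x : ℂˣ) : ℂ) := by
  unfold exCh
  rw [dif_pos x.2]

theorem isCh_exCh (A : Subgroup S) (φ : A →* ℂˣ) : IsCh A (exCh A φ) := by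
  refine ⟨?_, ?_, ?_⟩
  · have h1 := exCh_apply A φ 1
    rw [map_one] at h1
    exact h1
  · intro x hx y hy
    have h1 := exCh_apply A φ (⟨x, hx⟩ * ⟨y, hy⟩)
    rw [map_mul, Units.val_mul, ← exCh_apply, ← exCh_apply] at h1
    exact h1
  · intro x hx
    unfold exCh
    rw [dif_neg hx]

theorem exCh_injective (A : Subgroup S) : Function.Injective (exCh A) := by
  intro φ ψ h
  ext x
  rw [← exCh_apply, ← exCh_apply, h]

/-- PROOF. `χ x * χ x⁻¹ = χ 1 = 1` for `x ∈ A`. -/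
theorem IsCh.exists {A : Subgroup S} {χ : S → ℂ} (h : IsCh A χ) : ∃ φ : A →* ℂˣ, exCh A φ = χ := by
  refine ⟨{ toFun := fun x => ⟨χ x, χ (x⁻¹ : A), ?_, ?_⟩, map_one' := ?_, map_mul' := ?_ }, ?_⟩
  · rw [← h.2.1 _ x.2 _ (x⁻¹).2, ← Subgroup.coe_mul, mul_inv_cancel, Subgroup.coe_one, h.1]
  · rw [← h.2.1 _ (x⁻¹).2 _ x.2, ← Subgroup.coe_mul, inv_mul_cancel, Subgroup.coe_one, h.1]
  · exact Units.ext h.1
  · intro x y
    exact Units.ext (h.2.1 _ x.2 _ y.2)
  · funext x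
    by_cases hx : x ∈ A
    · exact exCh_apply A _ ⟨x, hx⟩
    · rw [h.2.2 x hx]
      unfold exCh
      rw [dif_neg hx]

/-- PROOF. `CommGroup.card_monoidHom_of_hasEnoughRootsOfUnity` for `A` with the commutative group
structure (`hA`). -/
theorem isCh_card {A : Subgroup S} (hA : ∀ x ∈ A, ∀ y ∈ A, x * y = y * x) :
    {χ : S → ℂ | IsCh A χ}.Finite ∧ {χ : S → ℂ | IsCh A χ}.ncard = Nat.card A := by
  have h1 : {χ : S → ℂ | IsCh A χ} = Set.range (exCh A) := by
    ext χ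
    constructor
    · intro h
      exact IsCh.exists h
    · rintro ⟨φ, rfl⟩
      exact isCh_exCh A φ
  letI : CommGroup A := { (inferInstance : Group A) with
    mul_comm := fun x y => Subtype.ext (hA x x.2 y y.2) }
  have h2 : Nat.card (A →* ℂˣ) = Nat.card A :=
    CommGroup.card_monoidHom_of_hasEnoughRootsOfUnity A ℂ
  have h3 : Finite (A →* ℂˣ) := by
    refine Nat.finite_of_card_ne_zero ?_
    rw [h2]
    exact Nat.card_pos.ne'
  rw [h1]
  refine ⟨Set.finite_range _, ?_⟩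
  rw [← h2, ← Set.image_univ, Set.ncard_image_of_injective _ (exCh_injective A), Set.ncard_univ]

variable {A : Subgroup S} (T : S →* Matrix X X ℂ) {χ ψ : S → ℂ}

/-- An eigenvector is fixed by the idempotent. PROOF. `χ x⁻¹ * χ x = 1` for `x ∈ A`, the other terms
vanish. -/
theorem idem_mul_of {Z : Type} {Φ : Matrix X Z ℂ} {z : Z} (hχ : IsCh A χ)
    (h : ∀ x ∈ A, ∀ y, (T x * Φ) y z = χ x * Φ y z) (y : X) : (idem A T χ * Φ) y z = Φ y z := by
  classical
  have hA0 : (Nat.card A : ℂ) ≠ 0 := Nat.cast_ne_zero.2 Nat.card_pos.ne'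
  unfold idem
  rw [Matrix.smul_mul, Matrix.smul_apply, Matrix.sum_mul, Matrix.sum_apply]
  have h1 : ∀ x : S, ((χ x⁻¹ • T x) * Φ) y z = (if x ∈ A then 1 else 0) * Φ y z := by
    intro x
    rw [Matrix.smul_mul, Matrix.smul_apply, smul_eq_mul]
    by_cases hx : x ∈ A
    · rw [h x hx, if_pos hx, ← mul_assoc, ← hχ.2.1 _ (A.inv_mem hx) _ hx, inv_mul_cancel, hχ.1]
    · rw [hχ.2.2 _ fun hc => hx (inv_mem_iff.1 hc), if_neg hx, zero_mul, zero_mul]
  rw [Finset.sum_congr rfl fun x _ => h1 x, ← Finset.sum_mul, smul_eq_mul, ← mul_assoc]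
  have h2 : ∑ x : S, (if x ∈ A then (1 : ℂ) else 0) = Nat.card A := by
    rw [Finset.sum_boole, Nat.card_eq_fintype_card, Fintype.card_subtype]
  rw [h2, inv_mul_cancel₀ hA0, one_mul]

/-- PROOF. Substitution. -/
theorem mul_idem (hχ : IsCh A χ) {x : S} (hx : x ∈ A) : T x * idem A T χ = χ x • idem A T χ := by
  unfold idem
  rw [Matrix.mul_smul, Finset.mul_sum, smul_comm]
  congr 1
  rw [Finset.smul_sum]
  refine Fintype.sum_equiv (Equiv.mulLeft x) _ _ fun y => ?_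
  rw [Matrix.mul_smul, ← map_mul, Equiv.coe_mulLeft, smul_smul]
  congr 1
  change χ y⁻¹ = χ x * χ (x * y)⁻¹
  by_cases hy : y ∈ A
  · rw [mul_comm, ← hχ.2.1 _ (A.inv_mem (A.mul_mem hx hy)) _ hx]
    congr 1
    group
  · have h2 : χ (x * y)⁻¹ = 0 :=
      hχ.2.2 _ fun hc => hy ((A.mul_mem_cancel_left hx).1 (inv_mem_iff.1 hc))
    rw [h2, hχ.2.2 _ fun hc => hy (inv_mem_iff.1 hc), mul_zero]

theorem idem_mul (hχ : IsCh A χ) {x : S} (hx : x ∈ A) : idem A T χ * T x = χ x • idem A T χ := by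
  unfold idem
  rw [Matrix.smul_mul, Finset.sum_mul, smul_comm]
  congr 1
  rw [Finset.smul_sum]
  refine Fintype.sum_equiv (Equiv.mulRight x) _ _ fun y => ?_
  rw [Matrix.smul_mul, ← map_mul, Equiv.coe_mulRight, smul_smul]
  congr 1
  change χ y⁻¹ = χ x * χ (y * x)⁻¹
  by_cases hy : y ∈ A
  · rw [← hχ.2.1 _ hx _ (A.inv_mem (A.mul_mem hy hx))]
    congr 1
    group
  · have h2 : χ (y * x)⁻¹ = 0 :=
      hχ.2.2 _ fun hc => hy ((A.mul_mem_cancel_right hx).1 (inv_mem_iff.1 hc))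
    rw [h2, hχ.2.2 _ fun hc => hy (inv_mem_iff.1 hc), mul_zero]

/-- PROOF. For `x ∈ A` with `χ x ≠ ψ x`: `χ x • (E * E') = E * T x * E' = ψ x • (E * E')`. -/
theorem idem_mul_ne (hχ : IsCh A χ) (hψ : IsCh A ψ) (h : χ ≠ ψ) :
    idem A T χ * idem A T ψ = 0 := by
  obtain ⟨x, hx⟩ := Function.ne_iff.1 h
  have hxA : x ∈ A := by
    by_contra hc
    exact hx (by rw [hχ.2.2 x hc, hψ.2.2 x hc])
  have h1 : idem A T χ * T x * idem A T ψ = χ x • (idem A T χ * idem A T ψ) := by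
    rw [idem_mul T hχ hxA, Matrix.smul_mul]
  have h2 : idem A T χ * T x * idem A T ψ = ψ x • (idem A T χ * idem A T ψ) := by
    rw [Matrix.mul_assoc, mul_idem T hψ hxA, Matrix.mul_smul]
  have h3 : (χ x - ψ x) • (idem A T χ * idem A T ψ) = 0 := by
    rw [sub_smul, ← h1, ← h2, sub_self]
  exact (smul_eq_zero.1 h3).resolve_left (sub_ne_zero.2 hx)

/-- PROOF. Substitution `x ↦ g⁻¹ x g`; no condition on `A` is needed because `χ` vanishes outside of
`A` and only the number `|A|` enters. -/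
theorem conj_idem (χ : S → ℂ) (g : S) :
    T g * idem A T χ * T g⁻¹ = idem A T (Ge.cj g χ) := by
  unfold idem
  rw [Matrix.mul_smul, Matrix.smul_mul, Finset.mul_sum, Finset.sum_mul]
  congr 1
  refine Fintype.sum_equiv (MulAut.conj g).toEquiv _ _ fun x => ?_
  rw [Matrix.mul_smul, Matrix.smul_mul, ← map_mul, ← map_mul]
  simp only [MulEquiv.toEquiv_eq_coe, MulEquiv.coe_toEquiv, MulAut.conj_apply]
  have h1 : Ge.cj g χ (g * x * g⁻¹)⁻¹ = χ x⁻¹ := by
    unfold Ge.cj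
    congr 1
    group
  rw [h1]

end

end MP0775d3.Ge
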