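import Mathlib

/-! A counting lemma. -/

set_option linter.unusedSectionVars false
set_option linter.unusedVariables false

namespace MP0775d3.Ge

/-- The elements `z` have a left path `l z` and a right path `r z` in the finite set `P`; `st` is the
standard form of a path; all paths have the same number `n / N` of elements (on both sides) and the
number of elements with given left and right path depends only on the standard forms.
PROOF. `c χ = |{ψ ∈ P | st ψ = st χ}|`. The number of `χ ∈ P` with `c χ < M` is at most `Σ M`: sum over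
the standard forms `ζ`, with `c` elements each. So `B = {z | c (l z) < M ∨ c (r z) < M}` has at most
`2 Σ M n / N` elements. For `a, b ∈ P` with `c a, c b ≥ M` the `c a * c b` disjoint sets
`{z | l z = a' ∧ r z = b'}`, `st a' = st a`, `st b' = st b`, have the same number of elements and are
in `Z`. -/
theorem count_paths {Z Q : Type} [Finite Z] (P : Set Q) (hP : P.Finite) (l r : Z → Q)
    (hl : ∀ z, l z ∈ P) (hr : ∀ z, r z ∈ P) (st : Q → Q) {N σ M : ℝ} (hN : 0 < N) (hM : 0 < M)
    (h1 : ∀ χ ∈ P, (({z | l z = χ} : Set Z).ncard : ℝ) = Nat.card Z / N)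
    (h2 : ∀ χ ∈ P, (({z | r z = χ} : Set Z).ncard : ℝ) = Nat.card Z / N)
    (h3 : ∀ χ ∈ P, ∀ χ' ∈ P, ∀ ψ ∈ P, ∀ ψ' ∈ P, st χ = st ψ → st χ' = st ψ' →
      ({z | l z = χ ∧ r z = χ'} : Set Z).ncard = ({z | l z = ψ ∧ r z = ψ'} : Set Z).ncard)
    (h4 : ((st '' P).ncard : ℝ) ≤ σ) :
    ∃ B : Set Z, (B.ncard : ℝ) ≤ 2 * σ * M / N * Nat.card Z ∧
      ∀ a b, (({z | (l z = a ∧ r z = b) ∧ z ∉ B} : Set Z).ncard : ℝ) ≤ Nat.card Z / M ^ 2 := by
  classical
  have hfz : Fintype Z := Fintype.ofFinite Z
  obtain ⟨P', hP'⟩ : ∃ P' : Finset Q, P' = hP.toFinset := ⟨_, rfl⟩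
  have hmem : ∀ χ, χ ∈ P' ↔ χ ∈ P := fun χ => by rw [hP', Set.Finite.mem_toFinset]
  obtain ⟨c, hc⟩ : ∃ c : Q → ℕ, c = fun χ => (P'.filter fun ψ => st ψ = st χ).card := ⟨_, rfl⟩
  obtain ⟨sm, hsm⟩ : ∃ sm : Finset Q, sm = P'.filter fun χ => (c χ : ℝ) < M := ⟨_, rfl⟩
  have hcard : (Nat.card Z : ℝ) = (Finset.univ : Finset Z).card := by
    rw [Nat.card_eq_fintype_card, Finset.card_univ]
  have hn0 : (0 : ℝ) ≤ Nat.card Z := Nat.cast_nonneg _
  -- few small paths
  have hsmall : (sm.card : ℝ) ≤ σ * M := by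
    have e1 : sm.card = ∑ ζ ∈ P'.image st, (sm.filter fun χ => st χ = ζ).card :=
      Finset.card_eq_sum_card_fiberwise fun χ hχ => by
        rw [Finset.mem_coe] at hχ ⊢
        rw [hsm, Finset.mem_filter] at hχ
        exact Finset.mem_image_of_mem st hχ.1
    have e2 : ∀ ζ ∈ P'.image st, ((sm.filter fun χ => st χ = ζ).card : ℝ) ≤ M := by
      intro ζ _
      by_cases h0 : (sm.filter fun χ => st χ = ζ).Nonempty
      · obtain ⟨χ, hχ⟩ := h0
        rw [Finset.mem_filter, hsm, Finset.mem_filter] at hχ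
        obtain ⟨⟨hχP, hχM⟩, hχζ⟩ := hχ
        refine le_trans ?_ hχM.le
        rw [hc]
        refine Nat.cast_le.2 (Finset.card_le_card fun ψ hψ => ?_)
        rw [Finset.mem_filter, hsm, Finset.mem_filter] at hψ
        rw [Finset.mem_filter]
        exact ⟨hψ.1.1, by rw [hψ.2, hχζ]⟩
      · rw [Finset.not_nonempty_iff_eq_empty] at h0
        rw [h0, Finset.card_empty, Nat.cast_zero]
        exact hM.le
    have e3 : ((P'.image st).card : ℝ) ≤ σ := by
      have e4 : (st '' P).ncard = (P'.image st).card := by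
        have e5 : st '' P = ((P'.image st : Finset Q) : Set Q) := by
          ext x
          rw [Finset.coe_image, hP', Set.Finite.coe_toFinset]
        rw [e5, Set.ncard_coe_finset]
      rw [← e4]
      exact h4
    rw [e1, Nat.cast_sum]
    refine (Finset.sum_le_sum e2).trans ?_
    rw [Finset.sum_const, nsmul_eq_mul]
    exact mul_le_mul_of_nonneg_right e3 hM.le
  -- the elements with a small path
  have hone : ∀ (f : Z → Q), (∀ χ ∈ P, (({z | f z = χ} : Set Z).ncard : ℝ) = Nat.card Z / N) →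
      (((Finset.univ : Finset Z).filter fun z => f z ∈ sm).card : ℝ) ≤ σ * M / N * Nat.card Z := by
    intro f hf
    have e1 : ((Finset.univ : Finset Z).filter fun z => f z ∈ sm).card =
        ∑ χ ∈ sm, (((Finset.univ : Finset Z).filter fun z => f z ∈ sm).filter
          fun z => f z = χ).card :=
      Finset.card_eq_sum_card_fiberwise fun z hz => by
        rw [Finset.mem_coe] at hz ⊢
        exact (Finset.mem_filter.1 hz).2
    have e2 : ∀ χ ∈ sm, ((((Finset.univ : Finset Z).filter fun z => f z ∈ sm).filter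
        fun z => f z = χ).card : ℝ) ≤ Nat.card Z / N := by
      intro χ hχ
      rw [hsm, Finset.mem_filter, hmem] at hχ
      rw [← hf χ hχ.1]
      refine Nat.cast_le.2 ?_
      rw [← Set.ncard_coe_finset]
      refine Set.ncard_le_ncard (fun z hz => ?_) (Set.toFinite _)
      rw [Finset.mem_coe, Finset.mem_filter] at hz
      exact hz.2
    rw [e1, Nat.cast_sum]
    refine (Finset.sum_le_sum e2).trans ?_
    rw [Finset.sum_const, nsmul_eq_mul]
    calc (sm.card : ℝ) * (Nat.card Z / N) ≤ σ * M * (Nat.card Z / N) :=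
          mul_le_mul_of_nonneg_right hsmall (div_nonneg hn0 hN.le)
      _ = σ * M / N * Nat.card Z := by ring
  refine ⟨{z | l z ∈ sm ∨ r z ∈ sm}, ?_, fun a b => ?_⟩
  · have e1 : ({z | l z ∈ sm ∨ r z ∈ sm} : Set Z) =
        ((((Finset.univ : Finset Z).filter fun z => l z ∈ sm) ∪
          ((Finset.univ : Finset Z).filter fun z => r z ∈ sm) : Finset Z) : Set Z) := by
      ext z
      simp
    rw [e1, Set.ncard_coe_finset]
    have e2 := Finset.card_union_le ((Finset.univ : Finset Z).filter fun z => l z ∈ sm)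
      ((Finset.univ : Finset Z).filter fun z => r z ∈ sm)
    have e3 : ((((Finset.univ : Finset Z).filter fun z => l z ∈ sm) ∪
          ((Finset.univ : Finset Z).filter fun z => r z ∈ sm)).card : ℝ) ≤
        (((Finset.univ : Finset Z).filter fun z => l z ∈ sm).card : ℝ) +
          (((Finset.univ : Finset Z).filter fun z => r z ∈ sm).card : ℝ) := by
      exact_mod_cast e2
    have e4 := hone l h1
    have e5 := hone r h2
    calc _ ≤ _ := e3
      _ ≤ σ * M / N * Nat.card Z + σ * M / N * Nat.card Z := add_le_add e4 e5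
      _ = 2 * σ * M / N * Nat.card Z := by ring
  · have hM2 : 0 < M ^ 2 := pow_pos hM 2
    by_cases h0 : ({z | (l z = a ∧ r z = b) ∧ z ∉ ({z | l z ∈ sm ∨ r z ∈ sm} : Set Z)} :
        Set Z).Nonempty
    · obtain ⟨z₀, ⟨hz1, hz2⟩, hz3⟩ := h0
      have ha : a ∈ P := hz1 ▸ hl z₀
      have hb : b ∈ P := hz2 ▸ hr z₀
      rw [Set.mem_setOf_eq, not_or, hz1, hz2] at hz3
      have hca : M ≤ c a := by
        by_contra h
        exact hz3.1 (by rw [hsm, Finset.mem_filter, hmem]; exact ⟨ha, not_le.1 h⟩)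
      have hcb : M ≤ c b := by
        by_contra h
        exact hz3.2 (by rw [hsm, Finset.mem_filter, hmem]; exact ⟨hb, not_le.1 h⟩)
      obtain ⟨m, hm⟩ : ∃ m : ℕ, m = ({z | l z = a ∧ r z = b} : Set Z).ncard := ⟨_, rfl⟩
      have hle : (({z | (l z = a ∧ r z = b) ∧ z ∉ ({z | l z ∈ sm ∨ r z ∈ sm} : Set Z)} :
          Set Z).ncard : ℝ) ≤ m := by
        rw [hm]
        exact Nat.cast_le.2 (Set.ncard_le_ncard (fun z hz => hz.1) (Set.toFinite _))
      obtain ⟨FF, hFF⟩ : ∃ FF : Finset (Q × Q), FF = (P'.filter fun ψ => st ψ = st a) ×ˢ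
          (P'.filter fun ψ => st ψ = st b) := ⟨_, rfl⟩
      have e1 : ((Finset.univ : Finset Z).filter fun z => (l z, r z) ∈ FF).card =
          ∑ p ∈ FF, (((Finset.univ : Finset Z).filter fun z => (l z, r z) ∈ FF).filter
            fun z => (l z, r z) = p).card :=
        Finset.card_eq_sum_card_fiberwise fun z hz => by
          rw [Finset.mem_coe] at hz ⊢
          exact (Finset.mem_filter.1 hz).2
      have e2 : ∀ p ∈ FF, (((Finset.univ : Finset Z).filter fun z => (l z, r z) ∈ FF).filter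
          fun z => (l z, r z) = p).card = m := by
        intro p hp
        have hp' := hp
        rw [hFF, Finset.mem_product, Finset.mem_filter, Finset.mem_filter, hmem, hmem] at hp'
        have e3 := h3 a ha b hb p.1 hp'.1.1 p.2 hp'.2.1 hp'.1.2.symm hp'.2.2.symm
        rw [hm, e3, ← Set.ncard_coe_finset]
        refine congrArg Set.ncard ?_
        ext z
        rw [Finset.mem_coe, Finset.mem_filter, Finset.mem_filter, Set.mem_setOf_eq]
        constructor
        · rintro ⟨-, h⟩
          exact ⟨congrArg Prod.fst h, congrArg Prod.snd h⟩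
        · rintro ⟨h5, h6⟩
          have h7 : (l z, r z) = p := Prod.ext h5 h6
          exact ⟨⟨Finset.mem_univ _, h7 ▸ hp⟩, h7⟩
      rw [Finset.sum_congr rfl e2, Finset.sum_const, smul_eq_mul] at e1
      have e4 : FF.card = c a * c b := by
        rw [hFF, Finset.card_product, hc]
      have e5 : (c a : ℝ) * c b * m ≤ Nat.card Z := by
        rw [hcard]
        have e6 : c a * c b * m ≤ (Finset.univ : Finset Z).card := by
          rw [← e4, ← e1]
          exact Finset.card_le_card (Finset.filter_subset _ _)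
        exact_mod_cast e6
      refine hle.trans ?_
      rw [le_div_iff₀ hM2]
      have hm0 : (0 : ℝ) ≤ m := Nat.cast_nonneg _
      calc (m : ℝ) * M ^ 2 = M * M * m := by ring
        _ ≤ (c a : ℝ) * c b * m :=
          mul_le_mul_of_nonneg_right (mul_le_mul hca hcb hM.le (hM.le.trans hca)) hm0
        _ ≤ _ := e5
    · rw [Set.not_nonempty_iff_eq_empty] at h0
      rw [h0, Set.ncard_empty, Nat.cast_zero]
      exact div_nonneg hn0 hM2.le

/-- The number of the standard forms. PROOF. `st χ` is determined by its values at `i < J`. -/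
theorem card_pi {V : Type} [Zero V] (J : ℕ) (T : ℕ → Set V) (hT : ∀ i < J, (T i).Finite) {c : ℕ → ℕ}
    (hc : ∀ i < J, (T i).ncard = c i) :
    {χ : ℕ → V | (∀ i < J, χ i ∈ T i) ∧ ∀ i, J ≤ i → χ i = 0}.Finite ∧
      {χ : ℕ → V | (∀ i < J, χ i ∈ T i) ∧ ∀ i, J ≤ i → χ i = 0}.ncard =
        ∏ i ∈ Finset.range J, c i := by
  classical
  obtain ⟨f, hf⟩ : ∃ f : (Fin J → V) → ℕ → V, f = fun χ i => if h : i < J then χ ⟨i, h⟩ else 0 :=
    ⟨_, rfl⟩
  have hinj : Function.Injective f := by
    intro χ χ' h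
    funext i
    have h1 := congrFun h i.1
    rw [hf] at h1
    simpa using h1
  obtain ⟨A, hA⟩ : ∃ A : Finset (Fin J → V), A = Fintype.piFinset
      fun i : Fin J => (hT i.1 i.2).toFinset := ⟨_, rfl⟩
  have hS : {χ : ℕ → V | (∀ i < J, χ i ∈ T i) ∧ ∀ i, J ≤ i → χ i = 0} =
      ((A.image f : Finset (ℕ → V)) : Set (ℕ → V)) := by
    ext χ
    rw [Finset.mem_coe, Finset.mem_image, Set.mem_setOf_eq]
    constructor
    · rintro ⟨h1, h2⟩
      refine ⟨fun i => χ i.1, ?_, ?_⟩
      · rw [hA, Fintype.mem_piFinset]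
        exact fun i => (Set.Finite.mem_toFinset _).2 (h1 i.1 i.2)
      · funext i
        rw [hf]
        by_cases hi : i < J
        · simp [hi]
        · simp only [hi, dif_neg, not_false_eq_true]
          exact (h2 i (not_lt.1 hi)).symm
    · rintro ⟨χ', h1, rfl⟩
      rw [hA, Fintype.mem_piFinset] at h1
      rw [hf]
      refine ⟨fun i hi => ?_, fun i hi => ?_⟩
      · simp only [hi, dif_pos]
        exact (Set.Finite.mem_toFinset _).1 (h1 ⟨i, hi⟩)
      · simp [not_lt.2 hi]
  rw [hS]
  refine ⟨Finset.finite_toSet _, ?_⟩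
  rw [Set.ncard_coe_finset, Finset.card_image_of_injective _ hinj, hA, Fintype.card_piFinset,
    Finset.prod_range]
  refine Finset.prod_congr rfl fun i _ => ?_
  rw [← hc i.1 i.2, Set.ncard_eq_toFinset_card _ (hT i.1 i.2)]

end MP0775d3.Ge
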