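import Pool.Agent.Lib.MP_0775d3_lc.Cf.BaseGb

/-! Project GE: linear groups of large rank. Definitions. -/

set_option linter.unusedSectionVars false
set_option linter.unusedVariables false

namespace MP0775d3.Ge

open Matrix MP0775d3.Sl2 MP0775d3.Cf

/-- As `Cf.GD`, up to two exceptional sets of rows and of columns with at most `ρ w` elements: all
class functions on `G` have matrices `U * B * U'` with the same `U`, `U'` and with `B` block diagonal
for fixed labels, and outside of the exceptional sets the blocks have size at most `u`. -/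
def GE (w s u ρ : ℝ) (t : ℕ) (G : Type) [Group G] : Prop :=
  ∃ (Z : Type) (_ : Fintype Z) (_ : DecidableEq Z) (U : Matrix G Z ℂ) (U' : Matrix Z G ℂ)
    (L : Type) (l l' : Z → L) (X X' : Set Z), Bx w s t U ∧ Bx w s t U' ∧
    (X.ncard : ℝ) ≤ ρ * w ∧ (X'.ncard : ℝ) ≤ ρ * w ∧
    (∀ a, (({z | l z = a ∧ z ∉ X} : Set Z).ncard : ℝ) ≤ u) ∧
    (∀ a, (({z | l' z = a ∧ z ∉ X'} : Set Z).ncard : ℝ) ≤ u) ∧
    ∀ f : G → ℂ, IsClassFun f → ∃ B : Matrix Z Z ℂ, (∀ z z', B z z' ≠ 0 → l z = l' z') ∧
      groupMat f = U * B * U'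

/-- `P` has a subgroup of index at most `b` that is the image of `SL_m(k)` under a homomorphism whose
kernel consists of scalar matrices; `k` is a finite field and `m ≥ m₀`. Examples: `GL_m(k)`, `PSL_m(k)`,
their automorphism groups, `AGL_m(k)`. -/
def IsLinType (b : ℝ) (m₀ : ℕ) (P : Type) [Group P] : Prop :=
  ∃ (k : Type) (_ : Field k) (_ : Finite k) (m : ℕ)
    (φ : Matrix.SpecialLinearGroup (Fin m) k →* P), m₀ ≤ m ∧
    (∀ g, φ g = 1 → ∃ c : k, (g : Matrix (Fin m) (Fin m) k) = c • 1) ∧ (φ.range.index : ℝ) ≤ b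

theorem IsLinType.mono {b b' : ℝ} {m₀ m₁ : ℕ} (hb : b ≤ b') (h : m₀ ≤ m₁) {P : Type} [Group P]
    (hP : IsLinType b m₁ P) : IsLinType b' m₀ P := by
  obtain ⟨k, i1, i2, m, φ, h1, h2, h3⟩ := hP
  exact ⟨k, i1, i2, m, φ, h.trans h1, h2, h3.trans hb⟩

/-- The class of the theorem: direct products of any number of groups of wreath type, of linear type
or of `SL₂` type and of a group that has a series of normal subgroups with factors which are abelian
or of order at most `b`. -/
def InCls (b : ℝ) (m₀ : ℕ) (G : Type) [Group G] : Prop :=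
  ∃ r, Mult (fun P _ => (IsSymType b P ∨ IsLinType b m₀ P) ∨ IsSL2Type P)
    (fun D _ => HasSeries b D) r G

/-- `χ` is a character of the subgroup `A`, extended by zero. -/
def IsCh {S : Type} [Group S] (A : Subgroup S) (χ : S → ℂ) : Prop :=
  χ 1 = 1 ∧ (∀ x ∈ A, ∀ y ∈ A, χ (x * y) = χ x * χ y) ∧ ∀ x, x ∉ A → χ x = 0

/-- Conjugation of functions. -/
def cj {S : Type} [Group S] (h : S) (χ : S → ℂ) : S → ℂ := fun x => χ (h⁻¹ * x * h)

/-- A chain of abelian subgroups `A i` and of subgroups `H i` that normalize them; every character of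
`A i` is conjugate under `H i` to a standard one, which is fixed by all the following groups. -/
structure Flag (S : Type) [Group S] (J : ℕ) where
  /-- the abelian subgroups -/
  A : ℕ → Subgroup S
  /-- the subgroups that normalize them -/
  H : ℕ → Subgroup S
  /-- the standard character -/
  std : ℕ → (S → ℂ) → S → ℂ
  /-- the element that conjugates -/
  el : ℕ → (S → ℂ) → S
  comm : ∀ i < J, ∀ x ∈ A i, ∀ y ∈ A i, x * y = y * x
  nor : ∀ i < J, ∀ h ∈ H i, ∀ x ∈ A i, h * x * h⁻¹ ∈ A i
  el_mem : ∀ i < J, ∀ χ, IsCh (A i) χ → el i χ ∈ H i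
  std_ch : ∀ i < J, ∀ χ, IsCh (A i) χ → IsCh (A i) (std i χ)
  std_cj : ∀ i < J, ∀ χ, IsCh (A i) χ → cj (el i χ) (std i χ) = χ
  nextA : ∀ i, i + 1 < J → A (i + 1) ≤ H i
  nextH : ∀ i, i + 1 < J → H (i + 1) ≤ H i
  fix : ∀ i, i + 1 < J → ∀ χ, IsCh (A i) χ → ∀ x, x ∈ A (i + 1) ∨ x ∈ H (i + 1) →
    cj x (std i χ) = std i χ

section
variable {S X : Type} [Group S] [Fintype S] [Fintype X] [DecidableEq X] {J : ℕ}

/-- The product of the conjugating elements of a path. -/
def gp (F : Flag S J) (χ : ℕ → S → ℂ) : ℕ → S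
  | 0 => 1
  | i + 1 => gp F χ i * F.el i (χ i)

/-- The idempotent of a character of `A`. -/
noncomputable def idem (A : Subgroup S) (T : S →* Matrix X X ℂ) (χ : S → ℂ) : Matrix X X ℂ :=
  ((Nat.card A : ℂ)⁻¹) • ∑ x : S, χ x⁻¹ • T x

/-- The idempotent of stage `i` of a path. -/
noncomputable def Fm (F : Flag S J) (T : S →* Matrix X X ℂ) (χ : ℕ → S → ℂ) (i : ℕ) :
    Matrix X X ℂ :=
  T (gp F χ i) * idem (F.A i) T (χ i) * T (gp F χ i)⁻¹

/-- The product of the idempotents of the first stages of a path. -/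
noncomputable def Em (F : Flag S J) (T : S →* Matrix X X ℂ) (χ : ℕ → S → ℂ) : ℕ → Matrix X X ℂ
  | 0 => 1
  | i + 1 => Fm F T χ i * Em F T χ i

end

/-- A path: one character of each `A i`, `i < J`. -/
def IsPath {S : Type} [Group S] {J : ℕ} (F : Flag S J) (χ : ℕ → S → ℂ) : Prop :=
  (∀ i < J, IsCh (F.A i) (χ i)) ∧ ∀ i, J ≤ i → χ i = 0

/-- The left regular representation. -/
noncomputable def lreg (G : Type) [Group G] [Fintype G] [DecidableEq G] : G →* Matrix G G ℂ where
  toFun x := Matrix.of fun y b => if y = x * b then 1 else 0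
  map_one' := by
    ext y b
    rw [Matrix.of_apply, one_mul, Matrix.one_apply]
  map_mul' x x' := by
    ext y b
    rw [Matrix.mul_apply]
    simp only [Matrix.of_apply]
    rw [Finset.sum_eq_single (x' * b)]
    · rw [if_pos rfl, mul_one, mul_assoc]
    · intro c _ hc
      rw [if_neg hc, mul_zero]
    · intro h
      exact absurd (Finset.mem_univ _) h

/-- The right regular representation. -/
noncomputable def rreg (G : Type) [Group G] [Fintype G] [DecidableEq G] : G →* Matrix G G ℂ where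
  toFun x := Matrix.of fun y b => if y = b * x⁻¹ then 1 else 0
  map_one' := by
    ext y b
    rw [Matrix.of_apply, inv_one, mul_one, Matrix.one_apply]
  map_mul' x x' := by
    ext y b
    rw [Matrix.mul_apply]
    simp only [Matrix.of_apply]
    rw [Finset.sum_eq_single (b * x'⁻¹)]
    · rw [if_pos rfl, mul_one, _root_.mul_inv_rev, mul_assoc]
    · intro c _ hc
      rw [if_neg hc, mul_zero]
    · intro h
      exact absurd (Finset.mem_univ _) h

end MP0775d3.Ge
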