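import Pool.Agent.Lib.MP_0775d3_lc.Ge.Tree

/-! The sizes of the nodes of the tree are traces. -/

set_option linter.unusedSectionVars false
set_option linter.unusedVariables false

namespace MP0775d3.Ge

open Matrix MP0775d3.Sl2 MP0775d3.Cf

section
variable {S X Z : Type} [Group S] [Fintype S] [Fintype X] [DecidableEq X] [Fintype Z]
  [DecidableEq Z] {J : ℕ}

private theorem fib_col (M : Matrix X X ℂ) {A B : Matrix X Z ℂ} {z : Z}
    (h : ∀ y, A y z = B y z) (x : X) : (M * A) x z = (M * B) x z := by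
  rw [Matrix.mul_apply, Matrix.mul_apply]
  exact Finset.sum_congr rfl fun y _ => by rw [h y]

private theorem fib_zero (M : Matrix X X ℂ) {A : Matrix X Z ℂ} {z : Z}
    (h : ∀ y, A y z = 0) (x : X) : (M * A) x z = 0 := by
  rw [Matrix.mul_apply]
  exact Finset.sum_eq_zero fun y _ => by rw [h y, mul_zero]

private theorem fib_em (F : Flag S J) (T : S →* Matrix X X ℂ) (Φ : Matrix X Z ℂ)
    (r : Z → ℕ → S → ℂ)
    (hr : ∀ z, IsPath F (r z)) (h : ∀ i < J, ∀ z x, (Fm F T (r z) i * Φ) x z = Φ x z)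
    {χ : ℕ → S → ℂ} (hχ : IsPath F χ) (z : Z) (j : ℕ) (hj : j ≤ J) :
    ((∀ i < j, χ i = r z i) → ∀ x, (Em F T χ j * Φ) x z = Φ x z) ∧
      ((¬ ∀ i < j, χ i = r z i) → ∀ x, (Em F T χ j * Φ) x z = 0) := by
  induction j with
  | zero =>
    refine ⟨fun _ x => ?_, fun h0 => absurd (fun i hi => absurd hi (Nat.not_lt_zero i)) h0⟩
    rw [Em, Matrix.one_mul]
  | succ j ih =>
    obtain ⟨ih1, ih2⟩ := ih (by omega)
    have e1 : Em F T χ (j + 1) * Φ = Fm F T χ j * (Em F T χ j * Φ) := by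
      rw [Em, Matrix.mul_assoc]
    rw [e1]
    refine ⟨fun h0 x => ?_, fun h0 x => ?_⟩
    · rw [fib_col _ (ih1 fun i hi => h0 i (by omega)),
        Fm_congr F T (χ' := r z) fun i hi => h0 i (by omega)]
      exact h j (by omega) z x
    · by_cases h1 : ∀ i < j, χ i = r z i
      · have h2 : χ j ≠ r z j := by
          intro h3
          apply h0
          intro i hi
          rcases Nat.lt_succ_iff_lt_or_eq.1 hi with h4 | h4
          · exact h1 i h4
          · rw [h4]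
            exact h3
        rw [fib_col _ (ih1 h1)]
        rw [fib_col (A := Φ) (B := Fm F T (r z) j * Φ) _ fun y => (h j (by omega) z y).symm]
        have h3 : Fm F T χ j * Fm F T (r z) j = 0 := by
          rw [Fm, Fm, gp_congr F h1]
          have h4 : T (gp F (r z) j)⁻¹ * T (gp F (r z) j) = 1 := by
            rw [← map_mul, inv_mul_cancel, map_one]
          calc T (gp F (r z) j) * idem (F.A j) T (χ j) * T (gp F (r z) j)⁻¹ *
                (T (gp F (r z) j) * idem (F.A j) T (r z j) * T (gp F (r z) j)⁻¹)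
              = T (gp F (r z) j) * (idem (F.A j) T (χ j) *
                  (T (gp F (r z) j)⁻¹ * T (gp F (r z) j)) * idem (F.A j) T (r z j)) *
                  T (gp F (r z) j)⁻¹ := by simp only [Matrix.mul_assoc]
            _ = 0 := by
              rw [h4, Matrix.mul_one, idem_mul_ne T (hχ.1 j (by omega)) ((hr z).1 j (by omega)) h2,
                Matrix.mul_zero, Matrix.zero_mul]
        rw [← Matrix.mul_assoc, h3, Matrix.zero_mul, Matrix.zero_apply]
      · exact fib_zero _ (ih2 h1) x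

/-- PROOF. Induction on `j ≤ J`: if the paths agree before `j`, then `Fm F T χ j` is `Fm F T (r z) j` if
`χ j = r z j`; if `χ j ≠ r z j` then `gp F χ j = gp F (r z) j` and `Fm F T χ j * Fm F T (r z) j = 0`
(`idem_mul_ne`), and column `z` of `Φ` is column `z` of `Fm F T (r z) j * Φ`. -/
theorem em_apply (F : Flag S J) (T : S →* Matrix X X ℂ) (Φ : Matrix X Z ℂ) (r : Z → ℕ → S → ℂ)
    (hr : ∀ z, IsPath F (r z)) (h : ∀ i < J, ∀ z x, (Fm F T (r z) i * Φ) x z = Φ x z)
    {χ : ℕ → S → ℂ} (hχ : IsPath F χ) (z : Z) (x : X) :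
    (Em F T χ J * Φ) x z = open Classical in if r z = χ then Φ x z else 0 := by
  classical
  obtain ⟨h1, h2⟩ := fib_em F T Φ r hr h hχ z J le_rfl
  by_cases h3 : r z = χ
  · rw [if_pos h3]
    exact h1 (fun i _ => by rw [h3]) x
  · rw [if_neg h3]
    refine h2 (fun h4 => h3 ?_) x
    funext i
    by_cases hi : i < J
    · exact (h4 i hi).symm
    · rw [(hr z).2 i (not_lt.1 hi), hχ.2 i (not_lt.1 hi)]

/-- PROOF. `em_apply`: `Em * Φ = Φ * diagonal`. -/
theorem em_diag (F : Flag S J) (T : S →* Matrix X X ℂ) (Φ : Matrix X Z ℂ) (Ψ : Matrix Z X ℂ)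
    (h1 : Ψ * Φ = 1) (r : Z → ℕ → S → ℂ)
    (hr : ∀ z, IsPath F (r z)) (h : ∀ i < J, ∀ z x, (Fm F T (r z) i * Φ) x z = Φ x z)
    {χ : ℕ → S → ℂ} (hχ : IsPath F χ) :
    Ψ * Em F T χ J * Φ = Matrix.diagonal fun z => open Classical in if r z = χ then 1 else 0 := by
  classical
  ext z' z
  rw [Matrix.mul_assoc, Matrix.mul_apply]
  simp only [em_apply F T Φ r hr h hχ]
  by_cases h3 : r z = χ
  · simp only [h3, if_true]
    rw [← Matrix.mul_apply, h1]
    by_cases h4 : z' = z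
    · subst h4
      rw [Matrix.one_apply_eq, Matrix.diagonal_apply_eq, if_pos h3]
    · rw [Matrix.one_apply_ne h4, Matrix.diagonal_apply_ne _ h4]
  · simp only [h3, if_false, mul_zero, Finset.sum_const_zero]
    by_cases h4 : z' = z
    · subst h4
      rw [Matrix.diagonal_apply_eq, if_neg h3]
    · rw [Matrix.diagonal_apply_ne _ h4]

/-- PROOF. The trace of `em_diag`. -/
theorem fib_one (F : Flag S J) (T : S →* Matrix X X ℂ) (Φ : Matrix X Z ℂ) (Ψ : Matrix Z X ℂ)
    (h0 : Φ * Ψ = 1) (h1 : Ψ * Φ = 1) (r : Z → ℕ → S → ℂ)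
    (hr : ∀ z, IsPath F (r z)) (h : ∀ i < J, ∀ z x, (Fm F T (r z) i * Φ) x z = Φ x z)
    {χ : ℕ → S → ℂ} (hχ : IsPath F χ) :
    (({z | r z = χ} : Set Z).ncard : ℂ) = (Em F T χ J).trace := by
  classical
  have e1 : (Em F T χ J).trace = (Ψ * Em F T χ J * Φ).trace := by
    rw [Matrix.trace_mul_comm, ← Matrix.mul_assoc, h0, Matrix.one_mul]
  rw [e1, em_diag F T Φ Ψ h1 r hr h hχ, Matrix.trace_diagonal, Finset.sum_boole,
    Set.ncard_eq_toFinset_card']
  congr 2
  ext z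
  simp

/-- Two representations. PROOF. `Ψ * Em * Em' * Φ = (Ψ * Em * Φ) * (Ψ * Em' * Φ)`. -/
theorem fib_two (F : Flag S J) (T T' : S →* Matrix X X ℂ) (Φ : Matrix X Z ℂ) (Ψ : Matrix Z X ℂ)
    (h0 : Φ * Ψ = 1) (h1 : Ψ * Φ = 1) (l r : Z → ℕ → S → ℂ) (hl : ∀ z, IsPath F (l z))
    (hl' : ∀ i < J, ∀ z x, (Fm F T (l z) i * Φ) x z = Φ x z)
    (hr : ∀ z, IsPath F (r z)) (hr' : ∀ i < J, ∀ z x, (Fm F T' (r z) i * Φ) x z = Φ x z)
    {χ χ' : ℕ → S → ℂ} (hχ : IsPath F χ) (hχ' : IsPath F χ') :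
    (({z | l z = χ ∧ r z = χ'} : Set Z).ncard : ℂ) = (Em F T χ J * Em F T' χ' J).trace := by
  classical
  have e1 : (Em F T χ J * Em F T' χ' J).trace =
      ((Ψ * Em F T χ J * Φ) * (Ψ * Em F T' χ' J * Φ)).trace := by
    have e2 : (Ψ * Em F T χ J * Φ) * (Ψ * Em F T' χ' J * Φ) =
        Ψ * (Em F T χ J * Em F T' χ' J * Φ) := by
      calc (Ψ * Em F T χ J * Φ) * (Ψ * Em F T' χ' J * Φ)
          = Ψ * (Em F T χ J * (Φ * Ψ) * Em F T' χ' J * Φ) := by simp only [Matrix.mul_assoc]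
        _ = Ψ * (Em F T χ J * Em F T' χ' J * Φ) := by rw [h0, Matrix.mul_one]
    rw [e2, Matrix.trace_mul_comm Ψ, Matrix.mul_assoc, h0, Matrix.mul_one]
  rw [e1, em_diag F T Φ Ψ h1 l hl hl' hχ, em_diag F T' Φ Ψ h1 r hr hr' hχ',
    Matrix.diagonal_mul_diagonal, Matrix.trace_diagonal]
  simp only [mul_ite, mul_one, mul_zero]
  simp only [← ite_and]
  rw [Finset.sum_boole, Set.ncard_eq_toFinset_card']
  congr 2
  ext z
  simp [and_comm]

end

end MP0775d3.Ge
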