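import Pool.Agent.Lib.MP_0775d3_lc.Ge.TreeA

/-! Conjugation to standard paths and traces. -/

set_option linter.unusedSectionVars false
set_option linter.unusedVariables false

namespace MP0775d3.Ge

open Matrix MP0775d3.Sl2 MP0775d3.Cf

section
variable {S X Z : Type} [Group S] [Fintype S] [Fintype X] [DecidableEq X] [Fintype Z]
  [DecidableEq Z] {J : ℕ}

/-- Standard form of a path. -/
def stp (F : Flag S J) (χ : ℕ → S → ℂ) : ℕ → S → ℂ := fun i => if i < J then F.std i (χ i) else 0

/-- The product of the idempotents of characters, without conjugations. -/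
noncomputable def Es (F : Flag S J) (T : S →* Matrix X X ℂ) (ζ : ℕ → S → ℂ) : ℕ → Matrix X X ℂ
  | 0 => 1
  | i + 1 => idem (F.A i) T (ζ i) * Es F T ζ i

private theorem fibB_H (F : Flag S J) {i j : ℕ} (hij : i + 1 ≤ j) (hj : j < J) :
    F.H j ≤ F.H (i + 1) := by
  induction j, hij using Nat.le_induction with
  | base => exact le_rfl
  | succ j h ih => exact (F.nextH j hj).trans (ih (by omega))

private theorem fibB_gp (F : Flag S J) {χ : ℕ → S → ℂ} (hχ : IsPath F χ) {i j : ℕ}
    (hij : i + 1 ≤ j) (hj : j ≤ J) :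
    ∃ x, gp F χ j = gp F χ (i + 1) * x ∧
      ∀ ψ, IsCh (F.A i) ψ → cj x (F.std i ψ) = F.std i ψ := by
  induction j, hij using Nat.le_induction with
  | base => exact ⟨1, (mul_one _).symm, fun ψ _ => cj_one _⟩
  | succ j h ih =>
    obtain ⟨x, h1, h2⟩ := ih (by omega)
    have hm : F.el j (χ j) ∈ F.H (i + 1) :=
      fibB_H F h (by omega) (F.el_mem j (by omega) _ (hχ.1 j (by omega)))
    refine ⟨x * F.el j (χ j), ?_, fun ψ hψ => ?_⟩
    · show gp F χ j * F.el j (χ j) = _
      rw [h1, mul_assoc]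
    · rw [← cj_cj, F.fix i (by omega) ψ hψ _ (Or.inr hm), h2 ψ hψ]

private theorem fibB_Fm (F : Flag S J) (T : S →* Matrix X X ℂ) {χ : ℕ → S → ℂ} (hχ : IsPath F χ)
    {i : ℕ} (hi : i < J) :
    Fm F T χ i = T (gp F χ J) * idem (F.A i) T (F.std i (χ i)) * T (gp F χ J)⁻¹ := by
  obtain ⟨x, h1, h2⟩ := fibB_gp F hχ (show i + 1 ≤ J from hi) le_rfl
  have h3 := F.std_cj i hi (χ i) (hχ.1 i hi)
  have h4 : idem (F.A i) T (χ i) =
      T (F.el i (χ i)) * idem (F.A i) T (F.std i (χ i)) * T (F.el i (χ i))⁻¹ := by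
    rw [conj_idem, h3]
  have h5 : T x * idem (F.A i) T (F.std i (χ i)) * T x⁻¹ = idem (F.A i) T (F.std i (χ i)) := by
    rw [conj_idem, h2 _ (hχ.1 i hi)]
  have h6 : gp F χ J = gp F χ i * F.el i (χ i) * x := h1
  rw [h6, _root_.mul_inv_rev, _root_.mul_inv_rev, map_mul, map_mul, map_mul, map_mul, Fm, h4]
  calc T (gp F χ i) * (T (F.el i (χ i)) * idem (F.A i) T (F.std i (χ i)) *
        T (F.el i (χ i))⁻¹) * T (gp F χ i)⁻¹
      = T (gp F χ i) * (T (F.el i (χ i)) * (T x * idem (F.A i) T (F.std i (χ i)) * T x⁻¹) *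
        T (F.el i (χ i))⁻¹) * T (gp F χ i)⁻¹ := by rw [h5]
    _ = T (gp F χ i) * T (F.el i (χ i)) * T x * idem (F.A i) T (F.std i (χ i)) *
        (T x⁻¹ * (T (F.el i (χ i))⁻¹ * T (gp F χ i)⁻¹)) := by
        simp only [Matrix.mul_assoc]

/-- PROOF. For `i < J` let `g = gp F χ (i + 1)` and `gp F χ J = g * x`, where `x` is a product of elements
`F.el j (χ j) ∈ H j ≤ H (i + 1)`, `i < j < J`. `Fm F T χ i = T g * idem (A i) T std * T g⁻¹`
(`conj_idem`, `std_cj`) `= T (g * x) * .. * T (g * x)⁻¹` (`fix`: `cj x std = std`). Induction on the number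
of factors: `Em F T χ j = T (gp F χ J) * Es F T (stp F χ) j * T (gp F χ J)⁻¹` for `j ≤ J`. -/
theorem em_conj (F : Flag S J) (T : S →* Matrix X X ℂ) {χ : ℕ → S → ℂ} (hχ : IsPath F χ) :
    Em F T χ J = T (gp F χ J) * Es F T (stp F χ) J * T (gp F χ J)⁻¹ := by
  have key : ∀ j ≤ J, Em F T χ j = T (gp F χ J) * Es F T (stp F χ) j * T (gp F χ J)⁻¹ := by
    intro j
    induction j with
    | zero =>
      intro _
      show (1 : Matrix X X ℂ) = T (gp F χ J) * 1 * T (gp F χ J)⁻¹
      rw [mul_one, ← map_mul, mul_inv_cancel, map_one]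
    | succ j ih =>
      intro hj
      have h1 : stp F χ j = F.std j (χ j) := if_pos hj
      have h2 : T (gp F χ J)⁻¹ * T (gp F χ J) = 1 := by
        rw [← map_mul, inv_mul_cancel, map_one]
      show Fm F T χ j * Em F T χ j =
        T (gp F χ J) * (idem (F.A j) T (stp F χ j) * Es F T (stp F χ) j) * T (gp F χ J)⁻¹
      rw [ih (by omega), fibB_Fm F T hχ hj, h1]
      calc T (gp F χ J) * idem (F.A j) T (F.std j (χ j)) * T (gp F χ J)⁻¹ *
            (T (gp F χ J) * Es F T (stp F χ) j * T (gp F χ J)⁻¹)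
          = T (gp F χ J) * idem (F.A j) T (F.std j (χ j)) * (T (gp F χ J)⁻¹ * T (gp F χ J)) *
            Es F T (stp F χ) j * T (gp F χ J)⁻¹ := by simp only [Matrix.mul_assoc]
        _ = T (gp F χ J) * (idem (F.A j) T (F.std j (χ j)) * Es F T (stp F χ) j) *
            T (gp F χ J)⁻¹ := by
            rw [h2, mul_one]
            simp only [Matrix.mul_assoc]
  exact key J le_rfl

/-- PROOF. `Es F T ζ j = ∑ x, φ j x • T x` where for all `h` (`j = 0`), or all `h ∈ H (j - 1)`, `φ j h` is
`(∏ i < j, |A i|)⁻¹` for `h = 1` and `0` otherwise: `φ (j + 1) h = ∑ a ∈ A j, ε a * φ j (a⁻¹ h)`, with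
`ε a = |A j|⁻¹ ζ a⁻¹`; for `h ∈ H j` only `a = h` counts, and `A j ⊓ H j = ⊥`. The trace of `T x` is `0` for
`x ≠ 1`. -/
theorem es_trace (F : Flag S J) (T : S →* Matrix X X ℂ)
    (hT : ∀ x, x ≠ 1 → (T x).trace = 0) (hI : ∀ i < J, F.A i ⊓ F.H i = ⊥) {ζ : ℕ → S → ℂ}
    (hζ : ∀ i < J, IsCh (F.A i) (ζ i)) :
    (Es F T ζ J).trace = (Fintype.card X : ℂ) / ∏ i ∈ Finset.range J, (Nat.card (F.A i) : ℂ) := by
  classical
  have key : ∀ j ≤ J, ∃ φ : S → ℂ, Es F T ζ j = ∑ x, φ x • T x ∧
      ∀ h, (∀ i, i + 1 = j → h ∈ F.H i) →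
        φ h = if h = 1 then (∏ i ∈ Finset.range j, (Nat.card (F.A i) : ℂ))⁻¹ else 0 := by
    intro j
    induction j with
    | zero =>
      intro _
      refine ⟨fun x => if x = 1 then 1 else 0, ?_, fun h _ => ?_⟩
      · show (1 : Matrix X X ℂ) = _
        rw [Finset.sum_eq_single 1]
        · show (1 : Matrix X X ℂ) = (if (1 : S) = 1 then (1 : ℂ) else 0) • T 1
          rw [if_pos rfl, one_smul, map_one]
        · intro b _ hb
          show (if b = 1 then (1 : ℂ) else 0) • T b = 0
          rw [if_neg hb, zero_smul]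
        · intro hb
          exact absurd (Finset.mem_univ _) hb
      · rw [Finset.range_zero, Finset.prod_empty, inv_one]
    | succ j ih =>
      intro hj
      obtain ⟨φ, h1, h2⟩ := ih (by omega)
      refine ⟨fun h => ∑ a, ((Nat.card (F.A j) : ℂ)⁻¹ * ζ j a⁻¹) * φ (a⁻¹ * h), ?_, fun h hh => ?_⟩
      · show idem (F.A j) T (ζ j) * Es F T ζ j = _
        rw [h1, idem, Finset.smul_sum, Finset.sum_mul]
        simp_rw [Finset.sum_smul]
        rw [Finset.sum_comm]
        refine Finset.sum_congr rfl fun a _ => ?_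
        rw [Finset.mul_sum]
        refine Fintype.sum_equiv (Equiv.mulLeft a) _ _ fun x => ?_
        rw [Equiv.coe_mulLeft, inv_mul_cancel_left, map_mul, smul_smul, Matrix.smul_mul,
          Matrix.mul_smul, smul_smul]
      · have hH : h ∈ F.H j := hh j rfl
        have h3 : ∀ a ∈ F.A j, φ (a⁻¹ * h) =
            if a⁻¹ * h = 1 then (∏ i ∈ Finset.range j, (Nat.card (F.A i) : ℂ))⁻¹ else 0 := by
          intro a ha
          refine h2 _ fun i hi => ?_
          have ha1 : a ∈ F.H i := by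
            subst hi
            exact F.nextA i hj ha
          have ha2 : h ∈ F.H i := by
            subst hi
            exact F.nextH i hj hH
          exact (F.H i).mul_mem ((F.H i).inv_mem ha1) ha2
        have h4 : ∀ a, a ∉ F.A j → ζ j a⁻¹ = 0 := fun a ha =>
          (hζ j hj).2.2 _ fun h5 => ha ((F.A j).inv_mem_iff.1 h5)
        beta_reduce
        by_cases hh1 : h = 1
        · rw [if_pos hh1, Finset.prod_range_succ, _root_.mul_inv_rev, Finset.sum_eq_single 1]
          · rw [h3 1 (F.A j).one_mem, if_pos (by rw [hh1, inv_one, mul_one]), inv_one,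
              (hζ j hj).1, mul_one]
          · intro a _ ha
            by_cases ha1 : a ∈ F.A j
            · rw [h3 a ha1, if_neg, mul_zero]
              intro h6
              rw [hh1, mul_one, inv_eq_one] at h6
              exact ha h6
            · rw [h4 a ha1, mul_zero, zero_mul]
          · intro h6
            exact absurd (Finset.mem_univ _) h6
        · rw [if_neg hh1]
          refine Finset.sum_eq_zero fun a _ => ?_
          by_cases ha1 : a ∈ F.A j
          · rw [h3 a ha1, if_neg, mul_zero]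
            intro h6
            have h7 : a = h := by
              have h8 := inv_mul_eq_one.1 h6
              exact h8
            have h9 : h ∈ F.A j ⊓ F.H j := ⟨h7 ▸ ha1, hH⟩
            rw [hI j hj, Subgroup.mem_bot] at h9
            exact hh1 h9
          · rw [h4 a ha1, mul_zero, zero_mul]
  obtain ⟨φ, h1, h2⟩ := key J le_rfl
  rw [h1, Matrix.trace_sum, Finset.sum_eq_single 1]
  · rw [h2 1 fun i _ => (F.H i).one_mem, if_pos rfl, map_one, Matrix.trace_smul, Matrix.trace_one,
      smul_eq_mul, mul_comm, div_eq_mul_inv]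
  · intro x _ hx
    rw [Matrix.trace_smul, hT x hx, smul_zero]
  · intro h
    exact absurd (Finset.mem_univ _) h

end

end MP0775d3.Ge
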