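import Pool.Agent.Lib.MP_0775d3_lc.Ge.Fib
import Pool.Agent.Lib.MP_0775d3_lc.Ge.FibB
import Pool.Agent.Lib.MP_0775d3_lc.Ge.Count

/-! Preparations for `GE` from a chain. -/

set_option linter.unusedSectionVars false
set_option linter.unusedVariables false

namespace MP0775d3.Ge

open Matrix MP0775d3.Sl2 MP0775d3.Cf

section
variable {G : Type} [Group G] {J : ℕ}

/-- The number of the standard forms of paths. PROOF. `card_pi`. -/
theorem stp_card [Finite G] (F : Flag G J) {σ : ℝ} (hσ : 1 ≤ σ)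
    (h : ∀ i < J, (({ζ | ∃ χ, IsCh (F.A i) χ ∧ ζ = F.std i χ} : Set (G → ℂ)).ncard : ℝ) ≤ σ) :
    {χ : ℕ → G → ℂ | IsPath F χ}.Finite ∧
      (((stp F) '' {χ : ℕ → G → ℂ | IsPath F χ}).ncard : ℝ) ≤ σ ^ J := by
  have iG : Fintype G := Fintype.ofFinite G
  have hT : ∀ i < J, ({χ : G → ℂ | IsCh (F.A i) χ}).Finite := fun i hi =>
    (isCh_card (F.comm i hi)).1
  have hT' : ∀ i < J, ({ζ : G → ℂ | ∃ χ, IsCh (F.A i) χ ∧ ζ = F.std i χ}).Finite := by
    intro i hi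
    refine ((hT i hi).image (F.std i)).subset ?_
    rintro ζ ⟨χ, h1, rfl⟩
    exact ⟨χ, h1, rfl⟩
  refine ⟨(card_pi J (fun i => {χ : G → ℂ | IsCh (F.A i) χ}) hT
    (c := fun i => ({χ : G → ℂ | IsCh (F.A i) χ}).ncard) fun i _ => rfl).1, ?_⟩
  obtain ⟨h1, h2⟩ := card_pi J (fun i => {ζ : G → ℂ | ∃ χ, IsCh (F.A i) χ ∧ ζ = F.std i χ}) hT'
    (c := fun i => ({ζ : G → ℂ | ∃ χ, IsCh (F.A i) χ ∧ ζ = F.std i χ}).ncard) fun i _ => rfl
  have hsub : (stp F) '' {χ : ℕ → G → ℂ | IsPath F χ} ⊆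
      {ζ : ℕ → G → ℂ | (∀ i < J, ζ i ∈ (fun i => {ζ : G → ℂ | ∃ χ, IsCh (F.A i) χ ∧
        ζ = F.std i χ}) i) ∧ ∀ i, J ≤ i → ζ i = 0} := by
    rintro ζ ⟨χ, hχ, rfl⟩
    refine ⟨fun i hi => ⟨χ i, hχ.1 i hi, ?_⟩, fun i hi => ?_⟩
    · exact if_pos hi
    · exact if_neg (not_lt.2 hi)
  have h3 := Set.ncard_le_ncard hsub h1
  rw [h2] at h3
  have h4 : (((stp F) '' {χ : ℕ → G → ℂ | IsPath F χ}).ncard : ℝ) ≤
      ∏ i ∈ Finset.range J,
        (({ζ | ∃ χ, IsCh (F.A i) χ ∧ ζ = F.std i χ} : Set (G → ℂ)).ncard : ℝ) := by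
    exact_mod_cast h3
  refine h4.trans ?_
  have h5 := Finset.prod_le_prod (s := Finset.range J)
    (f := fun i => (({ζ | ∃ χ, IsCh (F.A i) χ ∧ ζ = F.std i χ} : Set (G → ℂ)).ncard : ℝ))
    (g := fun _ => σ) (fun i _ => Nat.cast_nonneg _) (fun i hi => h i (Finset.mem_range.1 hi))
  rwa [Finset.prod_const, Finset.card_range] at h5

private theorem geaux_idem [Fintype G] {X : Type} [Fintype X] [DecidableEq X]
    (T : G →* Matrix X X ℂ) {K : Matrix X X ℂ} (hK : ∀ x, K * T x = T x * K) (A : Subgroup G)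
    (χ : G → ℂ) : K * idem A T χ = idem A T χ * K := by
  rw [idem, Matrix.mul_smul, Matrix.smul_mul, Matrix.mul_sum, Matrix.sum_mul]
  congr 1
  refine Finset.sum_congr rfl fun x _ => ?_
  rw [Matrix.mul_smul, Matrix.smul_mul, hK]

private theorem geaux_em [Fintype G] {X : Type} [Fintype X] [DecidableEq X] (F : Flag G J)
    (T : G →* Matrix X X ℂ) {K : Matrix X X ℂ} (hK : ∀ x, K * T x = T x * K)
    (χ : ℕ → G → ℂ) (i : ℕ) : K * Em F T χ i = Em F T χ i * K := by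
  induction i with
  | zero => rw [Em, Matrix.mul_one, Matrix.one_mul]
  | succ i ih =>
    have h1 : K * Fm F T χ i = Fm F T χ i * K := by
      rw [Fm, ← Matrix.mul_assoc, ← Matrix.mul_assoc, hK, Matrix.mul_assoc (T (gp F χ i)) K,
        geaux_idem T hK, ← Matrix.mul_assoc, Matrix.mul_assoc _ K, hK, ← Matrix.mul_assoc]
    rw [Em, ← Matrix.mul_assoc, h1, Matrix.mul_assoc, ih, ← Matrix.mul_assoc]

/-- A block diagonal structure from the idempotents. PROOF. `B = Ψ * groupMat f * Φ` commutes with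
`Ψ * Em F T χ J * Φ = diagonal ..` (`em_diag`; `groupMat f` commutes with `T x` for all `x` and so with
`Em`), for `χ = r z'`; compare the entries `(z, z')`. -/
theorem block_of_comm [Fintype G] [DecidableEq G] {Z : Type} [Fintype Z] [DecidableEq Z]
    (F : Flag G J) (T : G →* Matrix G G ℂ) (Φ : Matrix G Z ℂ) (Ψ : Matrix Z G ℂ)
    (h0 : Φ * Ψ = 1) (h1 : Ψ * Φ = 1) (r : Z → ℕ → G → ℂ) (hr : ∀ z, IsPath F (r z))
    (h : ∀ i < J, ∀ z x, (Fm F T (r z) i * Φ) x z = Φ x z) {K : Matrix G G ℂ}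
    (hK : ∀ x, K * T x = T x * K) {z z' : Z} (hz : (Ψ * K * Φ) z z' ≠ 0) : r z = r z' := by
  classical
  by_contra hne
  have h2 := em_diag F T Φ Ψ h1 r hr h (hr z')
  have h3 : (Ψ * K * Φ) * (Ψ * Em F T (r z') J * Φ) =
      (Ψ * Em F T (r z') J * Φ) * (Ψ * K * Φ) := by
    have h4 : (Ψ * K * Φ) * (Ψ * Em F T (r z') J * Φ) =
        Ψ * K * (Φ * Ψ) * Em F T (r z') J * Φ := by
      simp only [Matrix.mul_assoc]
    have h5 : (Ψ * Em F T (r z') J * Φ) * (Ψ * K * Φ) =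
        Ψ * Em F T (r z') J * (Φ * Ψ) * K * Φ := by
      simp only [Matrix.mul_assoc]
    rw [h4, h5, h0, Matrix.mul_one, Matrix.mul_one, Matrix.mul_assoc Ψ K,
      geaux_em F T hK, ← Matrix.mul_assoc]
  rw [h2] at h3
  have h6 := congrFun (congrFun h3 z) z'
  rw [Matrix.mul_diagonal, Matrix.diagonal_mul, if_pos rfl, if_neg hne, mul_one, zero_mul] at h6
  exact hz h6

private theorem geaux_card [Finite G] {A H B : Subgroup G} (hA : A ≤ B) (hH : H ≤ B)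
    (hI : A ⊓ H = ⊥) : Nat.card A * Nat.card H ≤ Nat.card B := by
  rw [← Nat.card_prod]
  refine Nat.card_le_card_of_injective
    (fun p : A × H => (⟨p.1.1 * p.2.1, B.mul_mem (hA p.1.2) (hH p.2.2)⟩ : B)) ?_
  rintro ⟨⟨a, ha⟩, ⟨x, hx⟩⟩ ⟨⟨b, hb⟩, ⟨y, hy⟩⟩ hab
  have h1 : a * x = b * y := congrArg Subtype.val hab
  have h2 : b⁻¹ * a = y * x⁻¹ := by
    rw [inv_mul_eq_iff_eq_mul, ← mul_assoc, ← h1, mul_inv_cancel_right]
  have h3 : b⁻¹ * a ∈ A ⊓ H := by
    refine ⟨A.mul_mem (A.inv_mem hb) ha, ?_⟩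
    rw [h2]
    exact H.mul_mem hy (H.inv_mem hx)
  rw [hI, Subgroup.mem_bot] at h3
  have h4 : a = b := (inv_mul_eq_one.1 h3).symm
  subst h4
  have h5 : x = y := mul_left_cancel h1
  subst h5
  rfl

private theorem geaux_prod [Finite G] (F : Flag G J) (hI : ∀ i < J, F.A i ⊓ F.H i = ⊥) (n : ℕ) :
    ∀ i, i + 1 + n = J → ∏ k ∈ Finset.range n, Nat.card (F.A (i + 1 + k)) ≤
      Nat.card (F.H i) := by
  induction n with
  | zero =>
    intro i _
    rw [Finset.prod_range_zero]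
    exact Nat.card_pos
  | succ n ih =>
    intro i hi
    rw [Finset.prod_range_succ']
    have h1 := ih (i + 1) (by omega)
    have h2 : ∏ k ∈ Finset.range n, Nat.card (F.A (i + 1 + (k + 1))) =
        ∏ k ∈ Finset.range n, Nat.card (F.A (i + 1 + 1 + k)) :=
      Finset.prod_congr rfl fun k _ => by rw [show i + 1 + (k + 1) = i + 1 + 1 + k by omega]
    rw [h2, mul_comm, add_zero]
    exact (Nat.mul_le_mul_left _ h1).trans
      (geaux_card (F.nextA i (by omega)) (F.nextH i (by omega)) (hI (i + 1) (by omega)))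

/-- PROOF. `|A| |H| ≤ |G|` if `A ⊓ H = ⊥`; induction from the last stage. -/
theorem prod_card_le [Finite G] (F : Flag G J) (hI : ∀ i < J, F.A i ⊓ F.H i = ⊥) :
    ∏ i ∈ Finset.range J, Nat.card (F.A i) ≤ Nat.card G := by
  obtain rfl | ⟨n, rfl⟩ : J = 0 ∨ ∃ n, J = n + 1 := by
    cases J with
    | zero => exact Or.inl rfl
    | succ n => exact Or.inr ⟨n, rfl⟩
  · rw [Finset.prod_range_zero]
    exact Nat.card_pos
  · have h1 := geaux_prod F hI n 0 (by omega)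
    have h2 : ∏ i ∈ Finset.range (n + 1), Nat.card (F.A i) =
        (∏ k ∈ Finset.range n, Nat.card (F.A (0 + 1 + k))) * Nat.card (F.A 0) := by
      rw [Finset.prod_range_succ']
      congr 1
      exact Finset.prod_congr rfl fun k _ => by rw [show k + 1 = 0 + 1 + k by omega]
    rw [h2, mul_comm]
    have h3 := geaux_card (le_top : F.A 0 ≤ ⊤) (le_top : F.H 0 ≤ ⊤) (hI 0 (by omega))
    rw [Subgroup.card_top] at h3
    exact (Nat.mul_le_mul_left _ h1).trans h3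

end

end MP0775d3.Ge
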