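import Pool.Agent.Lib.MP_0775d3_lc.Ge.TreeA

/-! The tree of Fourier transforms. -/

set_option linter.unusedSectionVars false
set_option linter.unusedVariables false

namespace MP0775d3.Ge

open Matrix MP0775d3.Sl2 MP0775d3.Cf

section
variable {S X : Type} [Group S] [Fintype S] [Fintype X] [DecidableEq X] {J : ℕ}

/-- The matrix of `x`, conjugated by the element of the node. -/
private noncomputable def nm {Z : Type} (T : S →* Matrix X X ℂ) (Φ : Matrix X Z ℂ)
    (Ψ : Matrix Z X ℂ) (g : Z → S) (x : S) : Matrix Z Z ℂ :=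
  Matrix.of fun y z => (Ψ * T (g z * x * (g z)⁻¹) * Φ) y z

private theorem nm_col {Z : Type} [Fintype Z] [DecidableEq Z] {T : S →* Matrix X X ℂ}
    {Φ : Matrix X Z ℂ} {Ψ : Matrix Z X ℂ} (h2 : Ψ * Φ = 1) {g : Z → S} {x : S} {z z' : Z} {c : ℂ}
    (h : ∀ y, (T (g z * x * (g z)⁻¹) * Φ) y z = c * Φ y z') (y : Z) :
    nm T Φ Ψ g x y z = if y = z' then c else 0 := by
  change (Ψ * T (g z * x * (g z)⁻¹) * Φ) y z = _
  rw [Matrix.mul_assoc, Matrix.mul_apply]
  have h3 : ∑ u, Ψ y u * (T (g z * x * (g z)⁻¹) * Φ) u z = c * ∑ u, Ψ y u * Φ u z' := by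
    rw [Finset.mul_sum]
    refine Finset.sum_congr rfl fun u _ => ?_
    rw [h u]
    ring
  rw [h3, ← Matrix.mul_apply, h2, Matrix.one_apply]
  split_ifs <;> simp

private theorem nm_mul {Z P : Type} [Fintype Z] [DecidableEq Z] {T : S →* Matrix X X ℂ}
    {Φ : Matrix X Z ℂ} {Ψ : Matrix Z X ℂ} (h1 : Φ * Ψ = 1) (h2 : Ψ * Φ = 1) {g : Z → S}
    {lab : Z → P} (hg : ∀ z z', lab z = lab z' → g z = g z') {x y : S} {z : Z}
    (h : ∃ (z' : Z) (c : ℂ), lab z' = lab z ∧
      ∀ u, (T (g z * y * (g z)⁻¹) * Φ) u z = c * Φ u z') (w : Z) :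
    (nm T Φ Ψ g x * nm T Φ Ψ g y) w z = nm T Φ Ψ g (x * y) w z := by
  obtain ⟨z', c, hz', hc⟩ := h
  have hcol := fun u => nm_col h2 hc u
  rw [Matrix.mul_apply]
  have h3 : ∑ u, nm T Φ Ψ g x w u * nm T Φ Ψ g y u z =
      ∑ u, (Ψ * T (g z * x * (g z)⁻¹) * Φ) w u * (Ψ * T (g z * y * (g z)⁻¹) * Φ) u z := by
    refine Finset.sum_congr rfl fun u _ => ?_
    by_cases hu : u = z'
    · have h4 : g u = g z := hg u z (by rw [hu]; exact hz')
      change (Ψ * T (g u * x * (g u)⁻¹) * Φ) w u * (Ψ * T (g z * y * (g z)⁻¹) * Φ) u z = _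
      rw [h4]
    · have h5 : nm T Φ Ψ g y u z = 0 := by
        rw [hcol u, if_neg hu]
      have h6 : (Ψ * T (g z * y * (g z)⁻¹) * Φ) u z = 0 := h5
      rw [h5, h6, mul_zero, mul_zero]
  rw [h3, ← Matrix.mul_apply]
  change _ = (Ψ * T (g z * (x * y) * (g z)⁻¹) * Φ) w z
  have h7 : Ψ * T (g z * x * (g z)⁻¹) * Φ * (Ψ * T (g z * y * (g z)⁻¹) * Φ) =
      Ψ * T (g z * (x * y) * (g z)⁻¹) * Φ := by
    have h8 : g z * (x * y) * (g z)⁻¹ = (g z * x * (g z)⁻¹) * (g z * y * (g z)⁻¹) := by group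
    have h9 : T ((g z * x * (g z)⁻¹) * (g z * y * (g z)⁻¹)) =
        T (g z * x * (g z)⁻¹) * T (g z * y * (g z)⁻¹) := map_mul T _ _
    obtain ⟨p, hp⟩ : ∃ p, p = T (g z * x * (g z)⁻¹) := ⟨_, rfl⟩
    obtain ⟨q, hq⟩ : ∃ q, q = T (g z * y * (g z)⁻¹) := ⟨_, rfl⟩
    rw [h8, h9, ← hp, ← hq]
    calc Ψ * p * Φ * (Ψ * q * Φ) = Ψ * p * (Φ * Ψ) * q * Φ := by
          simp only [Matrix.mul_assoc]
      _ = Ψ * (p * q) * Φ := by
          rw [h1, Matrix.mul_one, Matrix.mul_assoc Ψ]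
  rw [h7]

private theorem nm_label {Z Z' : Type} [Fintype Z] [DecidableEq Z] [Fintype Z']
    {T : S →* Matrix X X ℂ} {Φ : Matrix X Z ℂ} {Ψ : Matrix Z X ℂ} (h1 : Φ * Ψ = 1) {g : Z → S}
    (x : S) {M : Matrix Z Z' ℂ} {z' : Z'} {a : S} (ha : ∀ z, M z z' ≠ 0 → g z = a) (y : X) :
    (T (a * x * a⁻¹) * (Φ * M)) y z' = (Φ * (nm T Φ Ψ g x * M)) y z' := by
  have h3 : (T (a * x * a⁻¹) * (Φ * M)) y z' = (Φ * (Ψ * T (a * x * a⁻¹) * Φ * M)) y z' := by
    congr 2
    rw [← Matrix.mul_assoc Φ, ← Matrix.mul_assoc Φ, ← Matrix.mul_assoc Φ, h1, Matrix.one_mul,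
      Matrix.mul_assoc]
  rw [h3, Matrix.mul_apply, Matrix.mul_apply]
  refine Finset.sum_congr rfl fun w _ => ?_
  congr 1
  rw [Matrix.mul_apply, Matrix.mul_apply]
  refine Finset.sum_congr rfl fun z _ => ?_
  by_cases hz : M z z' = 0
  · rw [hz, mul_zero, mul_zero]
  · change _ = (Ψ * T (g z * x * (g z)⁻¹) * Φ) w z * M z z'
    rw [ha z hz]

/-- PROOF. Let `g z = gp F (path z) i` and for `a ∈ A i` let `R a y z =`
`(Ψ * T (g z * a * (g z)⁻¹) * Φ) y z`. By the last property column `z` of `R a` is `c • e_z'` with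
`path z' = path z`, and `R` is a homomorphism on `A i` (a commutative group by `F.comm`): if
`R b x z ≠ 0` then `path x = path z` and `g x = g z`. `node_fourier` with `lab = path` gives `Z'`, `M`,
`M'`, `χ`, `lab'`. New data: `Φ * M`, `M' * Ψ` (`Bx.mul`, `bx_of_blk`; `Z`, `Z'` have `|X|` elements:
square matrices), `path' z' = Function.update (lab' z') i (exCh (F.A i) (χ z'))`.
For `a ∈ A i`: `T (g a g⁻¹) * Φ * M = Φ * R a * M = χ a • Φ * M` in column `z'` (only the `z` with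
`path z = lab' z'` enter), so `Fm F T (path' z') i` fixes the column (`idem_mul_of`, with
`T g * .. * T g⁻¹`); the earlier `Fm` fix the columns `z` of `Φ` that enter (`Fm_congr`).
Last property at `i + 1 < J`: let `h = F.el i (χ z')`, `x ∈ A (i + 1)` or `x ∈ H (i + 1)`, `y = h x h⁻¹`,
an element of `H i`. `gp F (path' z') (i + 1) = g h`, so the matrix is `T (g y g⁻¹)`. Let
`Q = Ψ * T (g y g⁻¹) * Φ` (with this `g`), `e a = y⁻¹ a y`. `Q` is monomial on the label, `χ z' (e a) = χ z' a`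
because `cj y χ = cj (h x h⁻¹) (cj h std) = cj h (cj x std) = cj h std = χ`. -/
theorem st_step (F : Flag S J) (T : S →* Matrix X X ℂ) {s : ℝ} (hs : 1 ≤ s)
    (hA : ∀ i < J, (Nat.card (F.A i) : ℝ) ≤ s) {i : ℕ} (hi : i < J) (h : St F T s i) :
    St F T s (i + 1) := by
  classical
  obtain ⟨Z, i1, i2, Φ, Ψ, path, h1, h2, h3, h4, h5, h6, h7, h8⟩ := h
  have h8 := h8 hi
  obtain ⟨g, hgdef⟩ : ∃ g : Z → S, g = fun z => gp F (path z) i := ⟨_, rfl⟩
  have hg : ∀ z z', path z = path z' → g z = g z' := by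
    intro z z' hz
    rw [hgdef]
    change gp F (path z) i = gp F (path z') i
    rw [hz]
  have h8' : ∀ (x : S), x ∈ F.A i ∨ x ∈ F.H i → ∀ z, ∃ (z' : Z) (c : ℂ), path z' = path z ∧
      ∀ y, (T (g z * x * (g z)⁻¹) * Φ) y z = c * Φ y z' := by
    intro x hx z
    rw [hgdef]
    exact h8 z x hx
  letI iC : CommGroup (F.A i) :=
    { (inferInstance : Group (F.A i)) with
      mul_comm := fun a b => Subtype.ext (F.comm i hi a a.2 b b.2) }
  let R : F.A i →* Matrix Z Z ℂ :=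
    { toFun := fun a => nm T Φ Ψ g a
      map_one' := by
        ext y z
        change (Ψ * T (g z * ((1 : F.A i) : S) * (g z)⁻¹) * Φ) y z = _
        rw [Subgroup.coe_one, mul_one, mul_inv_cancel, map_one, Matrix.mul_one, h2]
      map_mul' := fun a b => by
        ext y z
        rw [nm_mul h1 h2 hg (h8' b (Or.inl b.2) z) y]
        rfl }
  have hR : ∀ a z, ∃ z', path z' = path z ∧ ∀ y, y ≠ z' → R a y z = 0 := by
    intro a z
    obtain ⟨z', c, hz', hc⟩ := h8' a (Or.inl a.2) z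
    refine ⟨z', hz', fun y hy => ?_⟩
    change nm T Φ Ψ g a y z = 0
    rw [nm_col h2 hc y, if_neg hy]
  obtain ⟨Z', j1, j2, M, M', χ, lab', m1, m2, m3, m4, m5, m6, m7⟩ :=
    node_fourier path R hR (hA i hi)
  -- the labels of the columns
  have hlab : ∀ z', ∃ z, M z z' ≠ 0 := by
    intro z'
    by_contra hne
    push Not at hne
    have h9 : (M' * M) z' z' = 0 := by
      rw [Matrix.mul_apply]
      exact Finset.sum_eq_zero fun z _ => by rw [hne z, mul_zero]
    rw [m2, Matrix.one_apply_eq] at h9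
    exact one_ne_zero h9
  have hg' : ∀ z' z, M z z' ≠ 0 → g z = gp F (lab' z') i := by
    intro z' z hz
    rw [hgdef]
    change gp F (path z) i = _
    rw [m5 z z' hz]
  have hcardZ : (Fintype.card Z : ℝ) ≤ Fintype.card X := h3.transpose.card_le
  have hcardZ' : (Fintype.card Z' : ℝ) ≤ Fintype.card X := by
    refine le_trans ?_ hcardZ
    have h9 : (M' * M).rank = Fintype.card Z' := by rw [m2, Matrix.rank_one]
    have h10 : (M' * M).rank ≤ M'.rank := Matrix.rank_mul_le_left M' M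
    have h11 : M'.rank ≤ Fintype.card Z := Matrix.rank_le_card_width M'
    have h12 : Fintype.card Z' ≤ Fintype.card Z := by omega
    exact_mod_cast h12
  obtain ⟨path', hpath'⟩ : ∃ path' : Z' → ℕ → S → ℂ,
      path' = fun z' => Function.update (lab' z') i (exCh (F.A i) (χ z')) := ⟨_, rfl⟩
  have hp1 : ∀ z' j, j ≠ i → path' z' j = lab' z' j := by
    intro z' j hj
    rw [hpath']
    exact Function.update_of_ne hj _ _
  have hp2 : ∀ z', path' z' i = exCh (F.A i) (χ z') := by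
    intro z'
    rw [hpath']
    exact Function.update_self _ _ _
  have hgp : ∀ z', gp F (path' z') i = gp F (lab' z') i := fun z' =>
    gp_congr F fun j hj => hp1 z' j (by omega)
  have hch : ∀ z', IsCh (F.A i) (exCh (F.A i) (χ z')) := fun z' => isCh_exCh _ _
  refine ⟨Z', j1, j2, Φ * M, M' * Ψ, path', ?_, ?_, ?_, ?_, ?_, ?_, ?_, ?_⟩
  · rw [Matrix.mul_assoc, ← Matrix.mul_assoc M, m1, Matrix.one_mul, h1]
  · rw [Matrix.mul_assoc, ← Matrix.mul_assoc Ψ, h2, Matrix.one_mul, m2]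
  · have h9 := h3.mul (bx_of_blk m3 hs hcardZ hcardZ') hs
    have h10 : 2 * i + 1 + 1 + 1 = 2 * (i + 1) + 1 := by ring
    rwa [h10] at h9
  · have h9 := (bx_of_blk m4 hs hcardZ' hcardZ).mul h4 hs
    have h10 : 1 + (2 * i + 1) + 1 = 2 * (i + 1) + 1 := by ring
    rwa [h10] at h9
  · intro z' j hj
    by_cases hji : j = i
    · rw [hji, hp2]
      exact hch z'
    · rw [hp1 z' j hji]
      obtain ⟨z, hz⟩ := hlab z'
      rw [← m5 z z' hz]
      exact h5 z j (by omega)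
  · intro z' j hj
    rw [hp1 z' j (by omega)]
    obtain ⟨z, hz⟩ := hlab z'
    rw [← m5 z z' hz]
    exact h6 z j (by omega)
  · intro j hj z' x
    by_cases hji : j = i
    · subst hji
      obtain ⟨a, ha⟩ : ∃ a, a = gp F (lab' z') j := ⟨_, rfl⟩
      have h9 : Fm F T (path' z') j = T a * idem (F.A j) T (exCh (F.A j) (χ z')) * T a⁻¹ := by
        rw [Fm, hgp, hp2, ha]
      rw [h9]
      have h10 : T a * T a⁻¹ = 1 := by rw [← map_mul, mul_inv_cancel, map_one]
      have h11 : ∀ b ∈ F.A j, ∀ y, (T b * (T a⁻¹ * (Φ * M))) y z' =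
          exCh (F.A j) (χ z') b * (T a⁻¹ * (Φ * M)) y z' := by
        intro b hb y
        have h12 : T b * (T a⁻¹ * (Φ * M)) = T a⁻¹ * (T (a * b * a⁻¹) * (Φ * M)) := by
          have e1 : T b * T a⁻¹ = T (b * a⁻¹) := (map_mul T _ _).symm
          have e2 : T a⁻¹ * T (a * b * a⁻¹) = T (a⁻¹ * (a * b * a⁻¹)) := (map_mul T _ _).symm
          have e3 : a⁻¹ * (a * b * a⁻¹) = b * a⁻¹ := by group
          calc T b * (T a⁻¹ * (Φ * M)) = (T b * T a⁻¹) * (Φ * M) := (Matrix.mul_assoc _ _ _).symm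
            _ = (T a⁻¹ * T (a * b * a⁻¹)) * (Φ * M) := by rw [e1, e2, e3]
            _ = T a⁻¹ * (T (a * b * a⁻¹) * (Φ * M)) := Matrix.mul_assoc _ _ _
        rw [h12, Matrix.mul_apply, Matrix.mul_apply, Finset.mul_sum]
        refine Finset.sum_congr rfl fun u _ => ?_
        rw [nm_label h1 b (fun z hz => (hg' z' z hz).trans ha.symm) u]
        have h13 : nm T Φ Ψ g b * M = M * Matrix.diagonal fun z' => ((χ z' ⟨b, hb⟩ : ℂˣ) : ℂ) :=
          m6 ⟨b, hb⟩
        rw [h13, ← Matrix.mul_assoc, Matrix.mul_diagonal, ← exCh_apply (F.A j) (χ z') ⟨b, hb⟩]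
        ring
      have h14 := fun y => idem_mul_of T (hch z') h11 y
      rw [Matrix.mul_assoc, Matrix.mul_assoc, Matrix.mul_apply]
      have h15 : ∀ u, (idem (F.A j) T (exCh (F.A j) (χ z')) * (T a⁻¹ * (Φ * M))) u z' =
          (T a⁻¹ * (Φ * M)) u z' := h14
      have h16 : ∑ u, T a x u * (idem (F.A j) T (exCh (F.A j) (χ z')) *
          (T a⁻¹ * (Φ * M))) u z' = ∑ u, T a x u * (T a⁻¹ * (Φ * M)) u z' :=
        Finset.sum_congr rfl fun u _ => by rw [h15 u]
      rw [h16, ← Matrix.mul_apply, ← Matrix.mul_assoc, h10, Matrix.one_mul]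
    · have hj' : j < i := by omega
      have h9 : Fm F T (path' z') j = Fm F T (lab' z') j :=
        Fm_congr F T fun l hl => hp1 z' l (by omega)
      rw [h9, ← Matrix.mul_assoc, Matrix.mul_apply, Matrix.mul_apply]
      refine Finset.sum_congr rfl fun z _ => ?_
      by_cases hz : M z z' = 0
      · rw [hz, mul_zero, mul_zero]
      · rw [← m5 z z' hz, h7 j hj' z x]
  · intro hi1 z' x hx
    obtain ⟨b, hb⟩ : ∃ b, b = F.el i (exCh (F.A i) (χ z')) := ⟨_, rfl⟩
    obtain ⟨a, ha⟩ : ∃ a, a = gp F (lab' z') i := ⟨_, rfl⟩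
    have hgp1 : gp F (path' z') (i + 1) = a * b := by
      change gp F (path' z') i * F.el i (path' z' i) = _
      rw [hgp, hp2, ha, hb]
    have hbH : b ∈ F.H i := by
      rw [hb]
      exact F.el_mem i hi _ (hch z')
    have hxH : x ∈ F.H i := by
      rcases hx with hx | hx
      · exact F.nextA i hi1 hx
      · exact F.nextH i hi1 hx
    obtain ⟨y, hy⟩ : ∃ y, y = b * x * b⁻¹ := ⟨_, rfl⟩
    have hyH : y ∈ F.H i := by
      rw [hy]
      exact (F.H i).mul_mem ((F.H i).mul_mem hbH hxH) ((F.H i).inv_mem hbH)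
    have hyc : cj y (exCh (F.A i) (χ z')) = exCh (F.A i) (χ z') := by
      have h9 := F.std_cj i hi _ (hch z')
      rw [← hb] at h9
      have h10 := F.fix i hi1 _ (hch z') x hx
      calc cj y (exCh (F.A i) (χ z'))
          = cj y (cj b (F.std i (exCh (F.A i) (χ z')))) := by rw [h9]
        _ = cj b (cj x (F.std i (exCh (F.A i) (χ z')))) := by
            rw [cj_cj, cj_cj, hy]
            congr 1
            group
        _ = exCh (F.A i) (χ z') := by rw [h10, h9]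
    have he1 : ∀ c : F.A i, y⁻¹ * (c : S) * y ∈ F.A i := fun c => by
      have h9 := F.nor i hi y⁻¹ ((F.H i).inv_mem hyH) c c.2
      rwa [inv_inv] at h9
    have he2 : ∀ c : F.A i, y * (c : S) * y⁻¹ ∈ F.A i := fun c => F.nor i hi y hyH c c.2
    let e : F.A i ≃ F.A i :=
      { toFun := fun c => ⟨y⁻¹ * (c : S) * y, he1 c⟩
        invFun := fun c => ⟨y * (c : S) * y⁻¹, he2 c⟩
        left_inv := fun c => Subtype.ext (by
          change y * (y⁻¹ * (c : S) * y) * y⁻¹ = c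
          group)
        right_inv := fun c => Subtype.ext (by
          change y⁻¹ * (y * (c : S) * y⁻¹) * y = c
          group) }
    have he : ∀ c : F.A i, χ z' (e c) = χ z' c := by
      intro c
      have h9 := congrFun hyc (c : S)
      change exCh (F.A i) (χ z') (y⁻¹ * (c : S) * y) = exCh (F.A i) (χ z') c at h9
      have h10 := exCh_apply (F.A i) (χ z') (e c)
      have h11 : ((e c : F.A i) : S) = y⁻¹ * (c : S) * y := rfl
      rw [h11, h9, exCh_apply] at h10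
      exact Units.ext h10.symm
    obtain ⟨z'', c, k1, k2, k3⟩ := m7 (nm T Φ Ψ g y) z' e
      (fun z _ => by
        obtain ⟨w, c, hw, hc⟩ := h8' y (Or.inr hyH) z
        exact ⟨w, hw, fun u hu => by rw [nm_col h2 hc u, if_neg hu]⟩)
      he
      (fun c u z _ => by
        have h9 : (R c * nm T Φ Ψ g y) u z = nm T Φ Ψ g ((c : S) * y) u z :=
          nm_mul h1 h2 hg (h8' y (Or.inr hyH) z) u
        have h10 : (nm T Φ Ψ g y * R (e c)) u z = nm T Φ Ψ g (y * ((e c : F.A i) : S)) u z :=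
          nm_mul h1 h2 hg (h8' (e c) (Or.inl (e c).2) z) u
        rw [h9, h10]
        have h11 : y * ((e c : F.A i) : S) = (c : S) * y := by
          change y * (y⁻¹ * (c : S) * y) = c * y
          group
        rw [h11])
    refine ⟨z'', c, ?_, fun v => ?_⟩
    · rw [hpath']
      change Function.update (lab' z'') i (exCh (F.A i) (χ z'')) =
        Function.update (lab' z') i (exCh (F.A i) (χ z'))
      rw [k1, k2]
    · have h9 : gp F (path' z') (i + 1) * x * (gp F (path' z') (i + 1))⁻¹ = a * y * a⁻¹ := by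
        rw [hgp1, hy]
        group
      rw [h9, nm_label h1 y (fun z hz => (hg' z' z hz).trans ha.symm) v, Matrix.mul_apply,
        Matrix.mul_apply, Finset.mul_sum]
      refine Finset.sum_congr rfl fun u _ => ?_
      rw [k3 u]
      ring

/-- The tree. PROOF. Induction. -/
theorem tree (F : Flag S J) (T : S →* Matrix X X ℂ)
    (hT : ∀ x b, ∃ a, ∀ y, y ≠ a → T x y b = 0) {s : ℝ} (hs : 1 ≤ s)
    (hA : ∀ i < J, (Nat.card (F.A i) : ℝ) ≤ s) :
    ∃ (Z : Type) (_ : Fintype Z) (_ : DecidableEq Z) (Φ : Matrix X Z ℂ) (Ψ : Matrix Z X ℂ)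
      (path : Z → ℕ → S → ℂ), Φ * Ψ = 1 ∧ Ψ * Φ = 1 ∧
      Bx (Fintype.card X) s (2 * J + 1) Φ ∧ Bx (Fintype.card X) s (2 * J + 1) Ψ ∧
      (∀ z, IsPath F (path z)) ∧ ∀ i < J, ∀ z x, (Fm F T (path z) i * Φ) x z = Φ x z := by
  have h : ∀ i ≤ J, St F T s i := by
    intro i
    induction i with
    | zero => exact fun _ => st_zero F T hT hs
    | succ i ih => exact fun hi => st_step F T hs hA hi (ih (by omega))
  obtain ⟨Z, i1, i2, Φ, Ψ, path, h1, h2, h3, h4, h5, h6, h7, _⟩ := h J le_rfl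
  exact ⟨Z, i1, i2, Φ, Ψ, path, h1, h2, h3, h4, fun z => ⟨h5 z, h6 z⟩, h7⟩

end

end MP0775d3.Ge
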