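import Pool.Agent.Lib.MP_0775d3_lc.Ge.Two
import Pool.Agent.Lib.MP_0775d3_lc.Ge.Tree

/-! The two-sided tree of a group. -/

set_option linter.unusedSectionVars false
set_option linter.unusedVariables false

namespace MP0775d3.Ge

open Matrix MP0775d3.Sl2 MP0775d3.Cf

section
variable {G : Type} [Group G] {J : ℕ}

private theorem TwoB_ch_fst {A : Subgroup G} {χ : G × G → ℂ} (h : IsCh (A.prod ⊥) χ) :
    IsCh A (fun x => χ (x, 1)) := by
  refine ⟨h.1, fun x hx y hy => ?_, fun x hx => ?_⟩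
  · have h1 := h.2.1 (x, 1) (Subgroup.mem_prod.2 ⟨hx, Subgroup.mem_bot.2 rfl⟩) (y, 1)
      (Subgroup.mem_prod.2 ⟨hy, Subgroup.mem_bot.2 rfl⟩)
    rw [Prod.mk_mul_mk, mul_one] at h1
    exact h1
  · exact h.2.2 _ fun hc => hx (Subgroup.mem_prod.1 hc).1

private theorem TwoB_ch_snd {A : Subgroup G} {χ : G × G → ℂ}
    (h : IsCh ((⊥ : Subgroup G).prod A) χ) : IsCh A (fun y => χ (1, y)) := by
  refine ⟨h.1, fun x hx y hy => ?_, fun x hx => ?_⟩
  · have h1 := h.2.1 (1, x) (Subgroup.mem_prod.2 ⟨Subgroup.mem_bot.2 rfl, hx⟩) (1, y)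
      (Subgroup.mem_prod.2 ⟨Subgroup.mem_bot.2 rfl, hy⟩)
    rw [Prod.mk_mul_mk, mul_one] at h1
    exact h1
  · exact h.2.2 _ fun hc => hx (Subgroup.mem_prod.1 hc).2

private theorem TwoB_card_fst (A : Subgroup G) :
    Nat.card (A.prod (⊥ : Subgroup G) : Subgroup (G × G)) = Nat.card A := by
  rw [Nat.card_congr (Subgroup.prodEquiv A (⊥ : Subgroup G)).toEquiv, Nat.card_prod,
    Subgroup.card_bot, mul_one]

private theorem TwoB_card_snd (A : Subgroup G) :
    Nat.card ((⊥ : Subgroup G).prod A : Subgroup (G × G)) = Nat.card A := by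
  rw [Nat.card_congr (Subgroup.prodEquiv (⊥ : Subgroup G) A).toEquiv, Nat.card_prod,
    Subgroup.card_bot, one_mul]

private theorem TwoB_idem_fst [Fintype G] [DecidableEq G] (A : Subgroup G)
    (T : G × G →* Matrix G G ℂ) (hT : ∀ x y, T (x, y) = lreg G x * rreg G y) {χ : G × G → ℂ}
    (hχ : IsCh (A.prod ⊥) χ) :
    idem (A.prod (⊥ : Subgroup G)) T χ = idem A (lreg G) (fun x => χ (x, 1)) := by
  unfold idem
  rw [TwoB_card_fst, Fintype.sum_prod_type]
  congr 1
  refine Finset.sum_congr rfl fun x _ => ?_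
  rw [Finset.sum_eq_single (1 : G)]
  · rw [hT, map_one, mul_one, Prod.inv_mk, inv_one]
  · intro y _ hy
    rw [hχ.2.2, zero_smul]
    intro hc
    have h1 := Subgroup.mem_bot.1 (Subgroup.mem_prod.1 hc).2
    rw [Prod.inv_mk] at h1
    exact hy (inv_eq_one.1 h1)
  · intro h
    exact absurd (Finset.mem_univ _) h

private theorem TwoB_idem_snd [Fintype G] [DecidableEq G] (A : Subgroup G)
    (T : G × G →* Matrix G G ℂ) (hT : ∀ x y, T (x, y) = lreg G x * rreg G y) {χ : G × G → ℂ}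
    (hχ : IsCh ((⊥ : Subgroup G).prod A) χ) :
    idem ((⊥ : Subgroup G).prod A) T χ = idem A (rreg G) (fun y => χ (1, y)) := by
  unfold idem
  rw [TwoB_card_snd, Fintype.sum_prod_type, Finset.sum_eq_single (1 : G)]
  · congr 1
    refine Finset.sum_congr rfl fun y _ => ?_
    rw [hT, map_one, one_mul, Prod.inv_mk, inv_one]
  · intro x _ hx
    refine Finset.sum_eq_zero fun y _ => ?_
    rw [hχ.2.2, zero_smul]
    intro hc
    have h1 := Subgroup.mem_bot.1 (Subgroup.mem_prod.1 hc).1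
    rw [Prod.inv_mk] at h1
    exact hx (inv_eq_one.1 h1)
  · intro h
    exact absurd (Finset.mem_univ _) h

private theorem TwoB_comm [Fintype G] [DecidableEq G] (A : Subgroup G) (χ : G → ℂ) (g : G) :
    lreg G g * idem A (rreg G) χ = idem A (rreg G) χ * lreg G g := by
  unfold idem
  rw [mul_smul_comm, smul_mul_assoc, Finset.mul_sum, Finset.sum_mul]
  congr 1
  refine Finset.sum_congr rfl fun y _ => ?_
  rw [mul_smul_comm, smul_mul_assoc, lreg_rreg]

/-- PROOF. `tree` for `D` from `exists_two` and `T (x, y) = lreg G x * rreg G y` (a homomorphism by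
`lreg_rreg`; the entry of column `b` in the row `x * b * y⁻¹`), `|A × 1| = |A| ≤ s`.
`l z i = fun x => path z i (x, 1)` and `r z i = fun y => path z (J + i) (1, y)` for `i < J`, else `0`.
`gp D (path z) i = (gp F (l z) i, 1)` for `i ≤ J` and `gp D (path z) (J + i) =`
`(gp F (l z) J, gp F (r z) i)`; `idem (A × 1) T χ = idem A (lreg G) (χ (·, 1))` because `χ (x, y) = 0` for
`y ≠ 1`. So `Fm D T (path z) i = Fm F (lreg G) (l z) i` and `Fm D T (path z) (J + i) =`
`lreg g * Fm F (rreg G) (r z) i * lreg g⁻¹ = Fm F (rreg G) (r z) i`. -/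
theorem two_sided [Fintype G] [DecidableEq G] (F : Flag G J) {s : ℝ} (hs : 1 ≤ s)
    (hA : ∀ i < J, (Nat.card (F.A i) : ℝ) ≤ s) :
    ∃ (Z : Type) (_ : Fintype Z) (_ : DecidableEq Z) (Φ : Matrix G Z ℂ) (Ψ : Matrix Z G ℂ)
      (l r : Z → ℕ → G → ℂ), Φ * Ψ = 1 ∧ Ψ * Φ = 1 ∧
      Bx (Fintype.card G) s (4 * J + 1) Φ ∧ Bx (Fintype.card G) s (4 * J + 1) Ψ ∧
      (∀ z, IsPath F (l z)) ∧ (∀ z, IsPath F (r z)) ∧
      (∀ i < J, ∀ z x, (Fm F (lreg G) (l z) i * Φ) x z = Φ x z) ∧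
      ∀ i < J, ∀ z x, (Fm F (rreg G) (r z) i * Φ) x z = Φ x z := by
  obtain ⟨D, d1, d2, d3, d4⟩ := exists_two F
  obtain ⟨T, hT⟩ : ∃ T : G × G →* Matrix G G ℂ, ∀ x y, T (x, y) = lreg G x * rreg G y :=
    ⟨MonoidHom.noncommCoprod (lreg G) (rreg G) fun x y => lreg_rreg x y, fun x y => rfl⟩
  have hT1 : ∀ x b, ∃ a, ∀ y, y ≠ a → T x y b = 0 := by
    rintro ⟨x1, x2⟩ b
    refine ⟨x1 * (b * x2⁻¹), fun y hy => ?_⟩
    rw [hT, Matrix.mul_apply]
    refine Finset.sum_eq_zero fun c _ => ?_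
    by_cases hc : c = b * x2⁻¹
    · have h1 : lreg G x1 y c = 0 := by
        rw [hc]
        exact if_neg hy
      rw [h1, zero_mul]
    · have h1 : rreg G x2 c b = 0 := if_neg hc
      rw [h1, mul_zero]
  have hA' : ∀ i < 2 * J, (Nat.card (D.A i) : ℝ) ≤ s := by
    intro i hi
    rcases lt_or_ge i J with h | h
    · rw [d1 i h, TwoB_card_fst]
      exact hA i h
    · obtain ⟨k, rfl⟩ := Nat.exists_eq_add_of_le h
      rw [d2 k (by omega), TwoB_card_snd]
      exact hA k (by omega)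
  obtain ⟨Z, i1, i2, Φ, Ψ, path, h1, h2, h3, h4, h5, h6⟩ := tree D T hT1 hs hA'
  rw [show 2 * (2 * J) + 1 = 4 * J + 1 by omega] at h3 h4
  have c1 : ∀ z, ∀ i < J, IsCh ((F.A i).prod ⊥) (path z i) := by
    intro z i hi
    rw [← d1 i hi]
    exact (h5 z).1 i (by omega)
  have c2 : ∀ z, ∀ i < J, IsCh ((⊥ : Subgroup G).prod (F.A i)) (path z (J + i)) := by
    intro z i hi
    rw [← d2 i hi]
    exact (h5 z).1 (J + i) (by omega)
  obtain ⟨l, hl⟩ : ∃ l : Z → ℕ → G → ℂ, l = fun z i => if i < J then fun x => path z i (x, 1)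
    else 0 := ⟨_, rfl⟩
  obtain ⟨r, hr⟩ : ∃ r : Z → ℕ → G → ℂ, r = fun z i => if i < J then fun y => path z (J + i) (1, y)
    else 0 := ⟨_, rfl⟩
  have l1 : ∀ z, ∀ i < J, l z i = fun x => path z i (x, 1) := by
    intro z i hi
    rw [hl]
    exact if_pos hi
  have r1 : ∀ z, ∀ i < J, r z i = fun y => path z (J + i) (1, y) := by
    intro z i hi
    rw [hr]
    exact if_pos hi
  have g1 : ∀ z, ∀ i ≤ J, gp D (path z) i = (gp F (l z) i, 1) := by
    intro z i
    induction i with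
    | zero => intro _; rfl
    | succ i ih =>
      intro hi
      change gp D (path z) i * D.el i (path z i) = (gp F (l z) i * F.el i (l z i), 1)
      rw [ih (by omega), d3 i (by omega), l1 z i (by omega), Prod.mk_mul_mk, mul_one]
  have g2 : ∀ z, ∀ i ≤ J, gp D (path z) (J + i) = (gp F (l z) J, gp F (r z) i) := by
    intro z i
    induction i with
    | zero => intro _; exact g1 z J le_rfl
    | succ i ih =>
      intro hi
      change gp D (path z) (J + i) * D.el (J + i) (path z (J + i)) =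
        (gp F (l z) J, gp F (r z) i * F.el i (r z i))
      rw [ih (by omega), d4 i (by omega), r1 z i (by omega), Prod.mk_mul_mk, mul_one]
  refine ⟨Z, i1, i2, Φ, Ψ, l, r, h1, h2, h3, h4, ?_, ?_, ?_, ?_⟩
  · intro z
    refine ⟨fun i hi => ?_, fun i hi => ?_⟩
    · rw [l1 z i hi]
      exact TwoB_ch_fst (c1 z i hi)
    · rw [hl]
      exact if_neg (by omega)
  · intro z
    refine ⟨fun i hi => ?_, fun i hi => ?_⟩
    · rw [r1 z i hi]
      exact TwoB_ch_snd (c2 z i hi)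
    · rw [hr]
      exact if_neg (by omega)
  · intro i hi z x
    have e1 : Fm F (lreg G) (l z) i = Fm D T (path z) i := by
      unfold Fm
      rw [g1 z i hi.le, d1 i hi, TwoB_idem_fst (F.A i) T hT (c1 z i hi), l1 z i hi, Prod.inv_mk,
        hT, hT, inv_one, map_one, mul_one, mul_one]
    rw [e1]
    exact h6 i (by omega) z x
  · intro i hi z x
    have e1 : Fm F (rreg G) (r z) i = Fm D T (path z) (J + i) := by
      unfold Fm
      rw [g2 z i hi.le, d2 i hi, TwoB_idem_snd (F.A i) T hT (c2 z i hi), r1 z i hi, Prod.inv_mk,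
        hT, hT]
      obtain ⟨a, ha⟩ : ∃ a, a = gp F (l z) J := ⟨_, rfl⟩
      obtain ⟨b, hb⟩ : ∃ b, b = gp F (r z) i := ⟨_, rfl⟩
      rw [← ha, ← hb, lreg_rreg a b, mul_assoc (rreg G b) (lreg G a), TwoB_comm,
        ← mul_assoc (rreg G b), mul_assoc (rreg G b * _) (lreg G a), ← mul_assoc (lreg G a),
        ← map_mul (lreg G) a, mul_inv_cancel, map_one, one_mul]
    rw [e1]
    exact h6 (J + i) (by omega) z x

end

end MP0775d3.Ge
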