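import Pool.Agent.Lib.MP_0775d3_lc.Ge.GeAux
import Pool.Agent.Lib.MP_0775d3_lc.Ge.TwoB
import Pool.Agent.Lib.MP_0775d3_lc.Ge.Calc

/-! `GE` from a chain. -/

set_option linter.unusedSectionVars false
set_option linter.unusedVariables false

namespace MP0775d3.Ge

open Matrix MP0775d3.Sl2 MP0775d3.Cf

section
variable {G : Type} [Group G] {J : ℕ}

private theorem es_comm {X : Type} [Fintype G] [Fintype X] [DecidableEq X] (F : Flag G J)
    (T : G →* Matrix X X ℂ) {M : Matrix X X ℂ} (h : ∀ x, Commute (T x) M) (ζ : ℕ → G → ℂ) (j : ℕ) :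
    Commute (Es F T ζ j) M := by
  induction j with
  | zero => exact Commute.one_left M
  | succ j ih =>
    have h1 : Commute (idem (F.A j) T (ζ j)) M := by
      unfold idem
      exact Commute.smul_left (Commute.sum_left _ _ _ fun x _ => Commute.smul_left (h x) _) _
    exact Commute.mul_left h1 ih

private theorem em_trace {X : Type} [Fintype G] [Fintype X] [DecidableEq X] (F : Flag G J)
    (T : G →* Matrix X X ℂ) (hT : ∀ x, x ≠ 1 → (T x).trace = 0)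
    (hI : ∀ i < J, F.A i ⊓ F.H i = ⊥) {χ : ℕ → G → ℂ} (hχ : IsPath F χ) :
    (Em F T χ J).trace = (Fintype.card X : ℂ) / ∏ i ∈ Finset.range J, (Nat.card (F.A i) : ℂ) := by
  have hζ : ∀ i < J, IsCh (F.A i) (stp F χ i) := by
    intro i hi
    have h1 : stp F χ i = F.std i (χ i) := by
      unfold stp
      exact if_pos hi
    rw [h1]
    exact F.std_ch i hi _ (hχ.1 i hi)
  rw [em_conj F T hχ, Matrix.trace_mul_comm, ← mul_assoc, ← map_mul, inv_mul_cancel, map_one,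
    one_mul]
  exact es_trace F T hT hI hζ

private theorem em_em_trace [Fintype G] [DecidableEq G] (F : Flag G J) {χ χ' : ℕ → G → ℂ}
    (hχ : IsPath F χ) (hχ' : IsPath F χ') :
    (Em F (lreg G) χ J * Em F (rreg G) χ' J).trace =
      (Es F (lreg G) (stp F χ) J * Es F (rreg G) (stp F χ') J).trace := by
  rw [em_conj F (lreg G) hχ, em_conj F (rreg G) hχ']
  set g := gp F χ J with hg
  set g' := gp F χ' J with hg'
  set E := Es F (lreg G) (stp F χ) J with hE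
  set E' := Es F (rreg G) (stp F χ') J with hE'
  have cLR : ∀ x y : G, Commute (lreg G x) (rreg G y) := fun x y => lreg_rreg x y
  have cE : ∀ y : G, Commute E (rreg G y) := fun y => es_comm F (lreg G) (fun x => cLR x y) _ _
  have cE' : ∀ x : G, Commute E' (lreg G x) := fun x =>
    es_comm F (rreg G) (fun y => (cLR x y).symm) _ _
  have c1 : Commute (lreg G g * E * lreg G g⁻¹) (rreg G g'⁻¹) :=
    ((cLR g g'⁻¹).mul_left (cE g'⁻¹)).mul_left (cLR g⁻¹ g'⁻¹)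
  have e1 : (lreg G g * E * lreg G g⁻¹ * (rreg G g' * E' * rreg G g'⁻¹)).trace =
      (lreg G g * E * lreg G g⁻¹ * E').trace := by
    rw [← mul_assoc, Matrix.trace_mul_comm, ← mul_assoc, ← c1.eq, mul_assoc, ← mul_assoc (rreg G g'⁻¹),
      ← map_mul, inv_mul_cancel, map_one, one_mul]
  rw [e1, mul_assoc, ← (cE' g⁻¹).eq, ← mul_assoc, Matrix.trace_mul_comm, ← mul_assoc, ← mul_assoc,
    ← map_mul, inv_mul_cancel, map_one, one_mul]

/-- PROOF. `two_sided`; `U = Φ`, `U' = Ψ`, labels `(l z, r z)`, `B = Ψ * groupMat f * Φ`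
(`block_of_comm` twice). `X = X'` and the sizes from `count_paths` with `P = {χ | IsPath F χ}`,
`st = stp F`, `N = ∏ |A i|`, `σ ^ J`: (h1), (h2) are `fib_one`, `em_conj`, `es_trace` (`trace (T g * E * T g⁻¹)`
`= trace E`), (h3) is `fib_two`, `em_conj` and `lreg_rreg`: `trace (L g * E * L g⁻¹ * R g' * E' * R g'⁻¹) =`
`trace (E * E')`. `Nat.card Z = Nat.card G`. -/
theorem ge_flag [Finite G] (F : Flag G J) {s : ℝ} (hs : 1 ≤ s)
    (hA : ∀ i < J, (Nat.card (F.A i) : ℝ) ≤ s) (hI : ∀ i < J, F.A i ⊓ F.H i = ⊥) {σ : ℝ}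
    (hσ : 1 ≤ σ)
    (hst : ∀ i < J, (({ζ | ∃ χ, IsCh (F.A i) χ ∧ ζ = F.std i χ} : Set (G → ℂ)).ncard : ℝ) ≤ σ)
    {M : ℝ} (hM : 0 < M) :
    GE (Nat.card G) s (Nat.card G / M ^ 2)
      (2 * σ ^ J * M / ∏ i ∈ Finset.range J, (Nat.card (F.A i) : ℝ)) (4 * J + 1) G := by
  classical
  haveI := Fintype.ofFinite G
  obtain ⟨Z, iZ, dZ, Φ, Ψ, l, r, h0, h1, bΦ, bΨ, hl, hr, hFl, hFr⟩ := two_sided F hs hA
  rw [← Nat.card_eq_fintype_card] at bΦ bΨ
  have hcard : Nat.card Z = Nat.card G := by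
    have e1 : (Φ * Ψ).trace = (Ψ * Φ).trace := Matrix.trace_mul_comm Φ Ψ
    rw [h0, h1, Matrix.trace_one, Matrix.trace_one] at e1
    rw [Nat.card_eq_fintype_card, Nat.card_eq_fintype_card]
    exact (Nat.cast_injective e1).symm
  have hN : 0 < ∏ i ∈ Finset.range J, (Nat.card (F.A i) : ℝ) := by
    apply Finset.prod_pos
    intro i _
    exact_mod_cast Nat.card_pos
  have H1 : ∀ χ ∈ {χ : ℕ → G → ℂ | IsPath F χ}, (({z | l z = χ} : Set Z).ncard : ℝ) =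
      Nat.card Z / ∏ i ∈ Finset.range J, (Nat.card (F.A i) : ℝ) := by
    intro χ hχ
    apply Complex.ofReal_injective
    push_cast
    rw [fib_one F (lreg G) Φ Ψ h0 h1 l hl hFl hχ, em_trace F (lreg G) lreg_trace hI hχ, hcard,
      Nat.card_eq_fintype_card]
  have H2 : ∀ χ ∈ {χ : ℕ → G → ℂ | IsPath F χ}, (({z | r z = χ} : Set Z).ncard : ℝ) =
      Nat.card Z / ∏ i ∈ Finset.range J, (Nat.card (F.A i) : ℝ) := by
    intro χ hχ
    apply Complex.ofReal_injective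
    push_cast
    rw [fib_one F (rreg G) Φ Ψ h0 h1 r hr hFr hχ, em_trace F (rreg G) rreg_trace hI hχ, hcard,
      Nat.card_eq_fintype_card]
  have H3 : ∀ χ ∈ {χ : ℕ → G → ℂ | IsPath F χ}, ∀ χ' ∈ {χ : ℕ → G → ℂ | IsPath F χ},
      ∀ ψ ∈ {χ : ℕ → G → ℂ | IsPath F χ}, ∀ ψ' ∈ {χ : ℕ → G → ℂ | IsPath F χ},
      stp F χ = stp F ψ → stp F χ' = stp F ψ' →
      ({z | l z = χ ∧ r z = χ'} : Set Z).ncard = ({z | l z = ψ ∧ r z = ψ'} : Set Z).ncard := by
    intro χ hχ χ' hχ' ψ hψ ψ' hψ' e1 e2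
    have e3 : ((({z | l z = χ ∧ r z = χ'} : Set Z).ncard : ℕ) : ℂ) =
        ((({z | l z = ψ ∧ r z = ψ'} : Set Z).ncard : ℕ) : ℂ) := by
      rw [fib_two F (lreg G) (rreg G) Φ Ψ h0 h1 l r hl hFl hr hFr hχ hχ',
        fib_two F (lreg G) (rreg G) Φ Ψ h0 h1 l r hl hFl hr hFr hψ hψ',
        em_em_trace F hχ hχ', em_em_trace F hψ hψ', e1, e2]
    exact Nat.cast_injective e3
  obtain ⟨hfin, hcst⟩ := stp_card F hσ hst
  obtain ⟨B, hB, hB'⟩ := count_paths {χ : ℕ → G → ℂ | IsPath F χ} hfin l r hl hr (stp F) hN hM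
    H1 H2 H3 hcst
  rw [hcard] at hB hB'
  have hB2 : ∀ a : (ℕ → G → ℂ) × (ℕ → G → ℂ),
      (({z | (l z, r z) = a ∧ z ∉ B} : Set Z).ncard : ℝ) ≤ Nat.card G / M ^ 2 := by
    intro a
    have e1 : ({z | (l z, r z) = a ∧ z ∉ B} : Set Z) = {z | (l z = a.1 ∧ r z = a.2) ∧ z ∉ B} := by
      ext z
      simp only [Set.mem_setOf_eq, Prod.ext_iff]
    rw [e1]
    exact hB' a.1 a.2
  refine ⟨Z, iZ, dZ, Φ, Ψ, (ℕ → G → ℂ) × (ℕ → G → ℂ), fun z => (l z, r z), fun z => (l z, r z),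
    B, B, bΦ, bΨ, hB, hB, hB2, hB2, ?_⟩
  intro f hf
  refine ⟨Ψ * groupMat f * Φ, ?_, ?_⟩
  · intro z z' hz
    have e1 : l z = l z' := block_of_comm F (lreg G) Φ Ψ h0 h1 l hl hFl (groupMat_lreg hf) hz
    have e2 : r z = r z' := block_of_comm F (rreg G) Φ Ψ h0 h1 r hr hFr (groupMat_rreg f) hz
    show (l z, r z) = (l z', r z')
    rw [e1, e2]
  · calc groupMat f = Φ * Ψ * groupMat f * (Φ * Ψ) := by rw [h0, one_mul, mul_one]
      _ = Φ * (Ψ * groupMat f * Φ) * Ψ := by simp only [Matrix.mul_assoc]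

end

end MP0775d3.Ge
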