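import Mathlib

/-! Linear algebra over a finite field. -/

set_option linter.unusedSectionVars false
set_option linter.unusedVariables false

namespace MP0775d3.Ge

open Matrix

private lemma LinA_sumExtend {k V ι : Type} [Field k] [AddCommGroup V] [Module k V] {v : ι → V}
    (hs : LinearIndependent k v) (i : ι) : Module.Basis.sumExtend hs (Sum.inl i) = v i := by
  simp only [Module.Basis.sumExtend, Module.Basis.reindex_apply, Equiv.symm_symm,
    Module.Basis.coe_extend]
  rfl

private lemma LinA_vz {k ι κ : Type} [Field k] (x : ι → k) : vecMulVec x (0 : κ → k) = 0 := by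
  ext i j
  simp [vecMulVec_apply]

/-- The subspace `U`. -/
private def LinA_U {k : Type} [Field k] {ι κ : Type}
    (χ : Matrix ι κ k → ℂ) (h0 : χ 0 = 1) (h1 : ∀ u v, χ (u + v) = χ u * χ v) :
    Submodule k (ι → k) where
  carrier := {x | ∀ y : κ → k, χ (vecMulVec x y) = 1}
  zero_mem' := by
    intro y
    rw [zero_vecMulVec, h0]
  add_mem' := by
    intro x x' hx hx' y
    rw [add_vecMulVec, h1, hx y, hx' y, one_mul]
  smul_mem' := by
    intro c x hx y
    have : vecMulVec (c • x) y = vecMulVec x (c • y) := by
      ext i j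
      simp only [vecMulVec_apply, Pi.smul_apply, smul_eq_mul]
      ring
    rw [this]
    exact hx _

private lemma LinA_dim {k : Type} [Field k] [Finite k] {ι κ : Type} [Fintype ι]
    [Fintype κ] (χ : Matrix ι κ k → ℂ) (h0 : χ 0 = 1) (h1 : ∀ u v, χ (u + v) = χ u * χ v) :
    Fintype.card ι ≤ Module.finrank k (LinA_U χ h0 h1) + Fintype.card κ := by
  classical
  have := Fintype.ofFinite k
  have hq : 1 < Fintype.card k := Fintype.one_lt_card
  set U := LinA_U χ h0 h1 with hU
  let Φ : (ι → k) →+ AddChar (κ → k) ℂ :=
    { toFun := fun x =>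
        { toFun := fun y => χ (vecMulVec x y)
          map_zero_eq_one' := by
            show χ (vecMulVec x (0 : κ → k)) = 1
            rw [LinA_vz, h0]
          map_add_eq_mul' := by
            intro y y'
            rw [vecMulVec_add, h1] }
      map_zero' := by
        ext y
        show χ (vecMulVec 0 y) = 1
        rw [zero_vecMulVec, h0]
      map_add' := by
        intro x x'
        ext y
        show χ (vecMulVec (x + x') y) = χ (vecMulVec x y) * χ (vecMulVec x' y)
        rw [add_vecMulVec, h1] }
  have hker : ∀ x, x ∈ Φ.ker ↔ x ∈ U := by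
    intro x
    rw [AddMonoidHom.mem_ker]
    constructor
    · intro h y
      have := DFunLike.congr_fun h y
      exact this
    · intro h
      ext y
      exact h y
  have hc1 : Nat.card (ι → k) = Nat.card U * Nat.card Φ.range := by
    have e1 : Nat.card Φ.ker = Nat.card U :=
      Nat.card_congr (Equiv.subtypeEquivRight hker)
    rw [← e1, mul_comm, ← Nat.card_congr (QuotientAddGroup.quotientKerEquivRange Φ).toEquiv]
    exact AddSubgroup.card_eq_card_quotient_mul_card_addSubgroup _
  have hc2 : Nat.card Φ.range ≤ Nat.card (κ → k) := by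
    have : Nat.card Φ.range ≤ Nat.card (AddChar (κ → k) ℂ) := Nat.card_le_card_of_injective _ Subtype.val_injective
    rwa [Nat.card_eq_fintype_card (α := AddChar (κ → k) ℂ), AddChar.card_eq, ← Nat.card_eq_fintype_card] at this
  have hU2 : Nat.card U = Fintype.card k ^ Module.finrank k U := by
    rw [← Nat.card_eq_fintype_card]
    exact Module.natCard_eq_pow_finrank
  have h2 : Fintype.card k ^ Fintype.card ι ≤ Fintype.card k ^ (Module.finrank k U + Fintype.card κ) := by
    calc Fintype.card k ^ Fintype.card ι = Nat.card (ι → k) := by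
          rw [Nat.card_eq_fintype_card, Fintype.card_fun]
      _ = Nat.card U * Nat.card Φ.range := hc1
      _ ≤ Nat.card U * Nat.card (κ → k) := Nat.mul_le_mul_left _ hc2
      _ = _ := by rw [hU2, Nat.card_eq_fintype_card, Fintype.card_fun, pow_add]
  exact (Nat.pow_le_pow_iff_right hq).1 h2

/-- A character `χ` of the additive group of the `ι × κ` matrices becomes trivial on the matrices whose
rows in `W` vanish (`|W| = |κ| ≥ 1`) after a multiplication by an element of `SL`.
PROOF. `U = {x : ι → k | ∀ y : κ → k, χ (vecMulVec x y) = 1}` is a subspace (`c x ⊗ y = x ⊗ c y`). The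
homomorphism `x ↦ (y ↦ χ (vecMulVec x y))` to the characters of `κ → k` has kernel `U`, so
`|(ι → k) / U| ≤ q ^ |κ|` (the number of the characters of a finite abelian group is its order) and
`dim U ≥ |ι| - |κ| = |ι \ W|`. Take linearly independent `x a ∈ U` for `a ∉ W`, complete them to a basis
`x a`, `a ∈ ι`, and scale one vector `x a`, `a ∈ W`, so that the determinant of the matrix `h` with
the columns `x a` is `1`. If the rows `v a`, `a ∈ W`, vanish, then `h * v = ∑ a ∉ W, vecMulVec (x a) (v a)`. -/
theorem exists_sl {k : Type} [Field k] [Finite k] {ι κ : Type} [Fintype ι] [DecidableEq ι]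
    [Fintype κ] [DecidableEq κ] (W : Finset ι) (hW : W.card = Fintype.card κ) (hκ : 0 < Fintype.card κ)
    (χ : Matrix ι κ k → ℂ) (h0 : χ 0 = 1) (h1 : ∀ u v, χ (u + v) = χ u * χ v) :
    ∃ h : Matrix.SpecialLinearGroup ι k, ∀ v : Matrix ι κ k, (∀ a ∈ W, ∀ b, v a b = 0) →
      χ ((h : Matrix ι ι k) * v) = 1 := by
  classical
  set U := LinA_U χ h0 h1 with hU
  have hdim : Fintype.card ι ≤ Module.finrank k U + Fintype.card κ := LinA_dim χ h0 h1
  -- the family outside `W`
  have hc : Fintype.card {a // a ∉ W} ≤ Fintype.card (Fin (Module.finrank k U)) := by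
    rw [Fintype.card_fin, Fintype.card_subtype_compl, Fintype.card_coe, hW]
    omega
  obtain ⟨e⟩ := Function.Embedding.nonempty_of_card_le hc
  let bU := Module.finBasis k U
  let x : {a // a ∉ W} → (ι → k) := fun a => (bU (e a) : ι → k)
  have hx : LinearIndependent k x := by
    have h2 : LinearIndependent k (fun a => bU (e a)) := bU.linearIndependent.comp _ e.injective
    exact h2.map' U.subtype (Submodule.ker_subtype U)
  let B := Module.Basis.sumExtend hx
  have := Module.Finite.finite_basis B
  have hfin : Finite (Module.Basis.sumExtendIndex hx) := Finite.of_injective (Sum.inr : _ → {a // a ∉ W} ⊕ Module.Basis.sumExtendIndex hx) Sum.inr_injective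
  have hfin2 := Fintype.ofFinite (Module.Basis.sumExtendIndex hx)
  have hcard : Fintype.card ({a // a ∉ W} ⊕ Module.Basis.sumExtendIndex hx) = Fintype.card ι := by
    rw [← Module.finrank_eq_card_basis B, Module.finrank_fintype_fun_eq_card]
  have hcard2 : Fintype.card (Module.Basis.sumExtendIndex hx) = Fintype.card {a // ¬ a ∉ W} := by
    have h3 : Fintype.card ({a // a ∉ W} ⊕ {a // ¬ a ∉ W}) = Fintype.card ι :=
      Fintype.card_congr (Equiv.sumCompl (fun a => a ∉ W))
    rw [Fintype.card_sum] at hcard h3
    omega
  obtain ⟨e2⟩ := Fintype.card_eq.1 hcard2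
  let E : {a // a ∉ W} ⊕ Module.Basis.sumExtendIndex hx ≃ ι :=
    (Equiv.sumCongr (Equiv.refl _) e2).trans (Equiv.sumCompl (fun a => a ∉ W))
  let b := B.reindex E
  have hb : ∀ a, a ∉ W → b a ∈ U := by
    intro a ha
    have h3 : E.symm a = Sum.inl ⟨a, ha⟩ := by
      rw [Equiv.symm_apply_eq]
      rfl
    show (B.reindex E) a ∈ U
    rw [Module.Basis.reindex_apply, h3]
    show Module.Basis.sumExtend hx (Sum.inl ⟨a, ha⟩) ∈ U
    rw [LinA_sumExtend]
    exact (bU (e ⟨a, ha⟩)).2
  let g : Matrix ι ι k := (Pi.basisFun k ι).toMatrix b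
  have hg : g.det ≠ 0 := by
    have h3 := (Pi.basisFun k ι).isUnit_det b
    rw [Module.Basis.det_apply] at h3
    exact h3.ne_zero
  have hgc : ∀ i a, g i a = b a i := by
    intro i a
    simp [g, Module.Basis.toMatrix_apply]
  obtain ⟨a0, ha0⟩ : W.Nonempty := by
    rw [← Finset.card_pos, hW]
    exact hκ
  let h : Matrix ι ι k := g.updateCol a0 ((g.det)⁻¹ • g.col a0)
  have hdet : h.det = 1 := by
    show (g.updateCol a0 ((g.det)⁻¹ • g.col a0)).det = 1
    rw [det_updateCol_smul]
    have : g.updateCol a0 (g.col a0) = g := by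
      ext i j
      rcases eq_or_ne j a0 with rfl | hj
      · rw [updateCol_self]
        rfl
      · rw [updateCol_ne hj]
    rw [this, inv_mul_cancel₀ hg]
  refine ⟨⟨h, hdet⟩, ?_⟩
  intro v hv
  show χ (h * v) = 1
  have hsum : h * v = ∑ a, vecMulVec (fun i => h i a) (v a) := by
    ext i j
    rw [Matrix.mul_apply, Matrix.sum_apply]
    rfl
  rw [hsum]
  have key : ∀ s : Finset ι, χ (∑ a ∈ s, vecMulVec (fun i => h i a) (v a)) = 1 := by
    intro s
    induction s using Finset.induction_on with
    | empty => rw [Finset.sum_empty, h0]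
    | insert a s ha ih =>
      rw [Finset.sum_insert ha, h1, ih, mul_one]
      by_cases haW : a ∈ W
      · have : v a = 0 := by
          ext j
          exact hv a haW j
        rw [this]
        exact (congrArg χ (LinA_vz _)).trans h0
      · have h4 : (fun i => h i a) = b a := by
          ext i
          have hne : a ≠ a0 := by
            rintro rfl
            exact haW ha0
          show (g.updateCol a0 ((g.det)⁻¹ • g.col a0)) i a = b a i
          rw [updateCol_ne hne, hgc]
        rw [h4]
        exact hb a haW (v a)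
  exact key _

end MP0775d3.Ge
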