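import Pool.Agent.Lib.MP_0775d3_lc.Ge.LinU
import Pool.Agent.Lib.MP_0775d3_lc.Ge.Defs

/-! The chain of a linear group. -/

set_option linter.unusedSectionVars false
set_option linter.unusedVariables false

namespace MP0775d3.Ge

open Matrix

section
variable {G : Type} [Group G] {J : ℕ}

/-- One more stage in front. PROOF. `A i = if i = 0 then A₀ else F.A (i - 1)` and so on (or
`Nat.casesOn`). -/
theorem exists_cons (F : Flag G J) (A₀ H₀ : Subgroup G) (std₀ : (G → ℂ) → G → ℂ)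
    (el₀ : (G → ℂ) → G) (comm : ∀ x ∈ A₀, ∀ y ∈ A₀, x * y = y * x)
    (nor : ∀ h ∈ H₀, ∀ x ∈ A₀, h * x * h⁻¹ ∈ A₀) (el_mem : ∀ χ, IsCh A₀ χ → el₀ χ ∈ H₀)
    (std_ch : ∀ χ, IsCh A₀ χ → IsCh A₀ (std₀ χ)) (std_cj : ∀ χ, IsCh A₀ χ → cj (el₀ χ) (std₀ χ) = χ)
    (nextA : 0 < J → F.A 0 ≤ H₀) (nextH : 0 < J → F.H 0 ≤ H₀)
    (fix : 0 < J → ∀ χ, IsCh A₀ χ → ∀ x, x ∈ F.A 0 ∨ x ∈ F.H 0 → cj x (std₀ χ) = std₀ χ) :
    ∃ F' : Flag G (J + 1), F'.A 0 = A₀ ∧ F'.H 0 = H₀ ∧ F'.std 0 = std₀ ∧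
      (∀ i, F'.A (i + 1) = F.A i) ∧ (∀ i, F'.H (i + 1) = F.H i) ∧
      ∀ i, F'.std (i + 1) = F.std i := by
  let AA : ℕ → Subgroup G := fun i => match i with
    | 0 => A₀
    | i + 1 => F.A i
  let HH : ℕ → Subgroup G := fun i => match i with
    | 0 => H₀
    | i + 1 => F.H i
  let SS : ℕ → (G → ℂ) → G → ℂ := fun i => match i with
    | 0 => std₀
    | i + 1 => F.std i
  let EE : ℕ → (G → ℂ) → G := fun i => match i with
    | 0 => el₀
    | i + 1 => F.el i
  refine ⟨⟨AA, HH, SS, EE, ?_, ?_, ?_, ?_, ?_, ?_, ?_, ?_⟩, rfl, rfl, rfl,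
    fun _ => rfl, fun _ => rfl, fun _ => rfl⟩
  · intro i hi
    cases i with
    | zero => exact comm
    | succ i => exact F.comm i (by omega)
  · intro i hi
    cases i with
    | zero => exact nor
    | succ i => exact F.nor i (by omega)
  · intro i hi
    cases i with
    | zero => exact el_mem
    | succ i => exact F.el_mem i (by omega)
  · intro i hi
    cases i with
    | zero => exact std_ch
    | succ i => exact F.std_ch i (by omega)
  · intro i hi
    cases i with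
    | zero => exact std_cj
    | succ i => exact F.std_cj i (by omega)
  · intro i hi
    cases i with
    | zero => exact nextA (by omega)
    | succ i => exact F.nextA i (by omega)
  · intro i hi
    cases i with
    | zero => exact nextH (by omega)
    | succ i => exact F.nextH i (by omega)
  · intro i hi
    cases i with
    | zero => exact fix (by omega)
    | succ i => exact F.fix i (by omega)

/-- The chains that we construct, for a homomorphism `φ` on `SL`. `W` is a set of `w` indices such that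
the first groups of the chain are images of matrices with the rows `e_a`, `a ∈ W`. -/
def LinData (k : Type) [Field k] (w p : ℕ) {ι : Type} [Fintype ι] [DecidableEq ι]
    (φ : Matrix.SpecialLinearGroup ι k →* G) (J : ℕ) : Prop :=
  ∃ F : Flag G J, (∀ i < J, F.A i ≤ φ.range) ∧ (∀ i < J, F.H i ≤ φ.range) ∧
    (∀ i < J, F.A i ⊓ F.H i = ⊥) ∧
    (∀ i < J, Nat.card (F.A i) = Nat.card k ^ ((p + (J - 1 - i) * w) * w)) ∧
    (∀ i < J, ({ζ | ∃ χ, IsCh (F.A i) χ ∧ ζ = F.std i χ} : Set (G → ℂ)).ncard ≤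
      Nat.card k ^ (w * w)) ∧
    ∃ W : Finset ι, W.card = w ∧ (0 < J → ∀ x, x ∈ F.A 0 ∨ x ∈ F.H 0 →
      ∃ g : Matrix.SpecialLinearGroup ι k, φ g = x ∧
        ∀ a ∈ W, ∀ b, (g : Matrix ι ι k) a b = if a = b then 1 else 0)

/-- PROOF. The empty chain (`⊥` everywhere), any set `W`. -/
theorem lin_zero (k : Type) [Field k] {w p : ℕ} (hp : w ≤ p) {ι : Type} [Fintype ι] [DecidableEq ι]
    (hι : Fintype.card ι = p) (φ : Matrix.SpecialLinearGroup ι k →* G) : LinData k w p φ 0 := by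
  obtain ⟨W, -, hW⟩ := Finset.exists_subset_card_eq (s := (Finset.univ : Finset ι)) (n := w)
    (by rw [Finset.card_univ, hι]; exact hp)
  refine ⟨⟨fun _ => ⊥, fun _ => ⊥, fun _ χ => χ, fun _ _ => 1,
    fun i hi => absurd hi (Nat.not_lt_zero i),
    fun i hi => absurd hi (Nat.not_lt_zero i),
    fun i hi => absurd hi (Nat.not_lt_zero i),
    fun i hi => absurd hi (Nat.not_lt_zero i),
    fun i hi => absurd hi (Nat.not_lt_zero i),
    fun i hi => absurd hi (Nat.not_lt_zero (i + 1)),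
    fun i hi => absurd hi (Nat.not_lt_zero (i + 1)),
    fun i hi => absurd hi (Nat.not_lt_zero (i + 1))⟩,
    fun i hi => absurd hi (Nat.not_lt_zero i), fun i hi => absurd hi (Nat.not_lt_zero i),
    fun i hi => absurd hi (Nat.not_lt_zero i), fun i hi => absurd hi (Nat.not_lt_zero i),
    fun i hi => absurd hi (Nat.not_lt_zero i), W, hW,
    fun h => absurd h (Nat.not_lt_zero 0)⟩

/-- PROOF. The range of `φ.comp (slRe e)` is the range of `φ`; `W` is moved by `e`. -/
theorem lin_reindex (k : Type) [Field k] {w p : ℕ} {ι ι' : Type} [Fintype ι] [DecidableEq ι]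
    [Fintype ι'] [DecidableEq ι'] (e : ι ≃ ι') (φ : Matrix.SpecialLinearGroup ι' k →* G)
    (h : LinData k w p (φ.comp (slRe e)) J) : LinData k w p φ J := by
  obtain ⟨F, h1, h2, h3, h4, h5, W, hW, hx⟩ := h
  have hr : (φ.comp (slRe e)).range ≤ φ.range := by
    rintro x ⟨g, rfl⟩
    exact ⟨slRe e g, rfl⟩
  refine ⟨F, fun i hi => (h1 i hi).trans hr, fun i hi => (h2 i hi).trans hr, h3, h4, h5,
    W.map e.toEmbedding, by rw [Finset.card_map, hW], fun hJ x hxx => ?_⟩
  obtain ⟨g, hg, hgW⟩ := hx hJ x hxx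
  refine ⟨slRe e g, hg, ?_⟩
  intro a' ha' b
  obtain ⟨a, ha, rfl⟩ := Finset.mem_map.mp ha'
  change (g : Matrix ι ι k) (e.symm (e a)) (e.symm b) = if e a = b then 1 else 0
  rw [Equiv.symm_apply_apply, hgW a ha]
  by_cases hab : a = e.symm b
  · rw [if_pos hab, if_pos (by rw [hab, Equiv.apply_symm_apply])]
  · rw [if_neg hab, if_neg (fun hc => hab (by rw [← hc, Equiv.symm_apply_apply]))]

end

end MP0775d3.Ge
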