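import Pool.Agent.Lib.MP_0775d3_lc.Ge.LinD

/-! The chain of a linear group of large rank. -/

set_option linter.unusedSectionVars false
set_option linter.unusedVariables false

namespace MP0775d3.Ge

open Matrix MP0775d3.Sl2 MP0775d3.Cf

private theorem linc_sum (p w J : ℕ) : 2 * ∑ i ∈ Finset.range J, (p + i * w) * w + J * w ^ 2 =
    2 * (J * p * w) + J ^ 2 * w ^ 2 := by
  induction J with
  | zero => simp
  | succ J ih =>
    rw [Finset.sum_range_succ]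
    have h : 2 * (∑ i ∈ Finset.range J, (p + i * w) * w + (p + J * w) * w) + (J + 1) * w ^ 2 =
        (2 * ∑ i ∈ Finset.range J, (p + i * w) * w + J * w ^ 2) + 2 * p * w + 2 * J * w ^ 2 +
          w ^ 2 := by ring
    rw [h, ih]
    ring

/-- The parameters. PROOF. `J = r - 2`, `w = m / r`, `p = m - J * w`, `e = m - r * w < r ≤ w`, so
`p = 2 w + e < 3 w`. `2 w ∑ i < J, (p + (J - 1 - i) w) = m ^ 2 - p ^ 2 - J w ^ 2`, and
`p ^ 2 + J w ^ 2 ≤ 9 m ^ 2 / r ^ 2 + m ^ 2 / r` because `r w ≤ m`. -/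
theorem lin_params {r m : ℕ} (hr : 6 ≤ r) (hm : r * r ≤ m) : ∃ w p : ℕ, 1 ≤ w ∧ w ≤ p ∧
    m = p + (r - 2) * w ∧ r * w ≤ m ∧
    ((∑ i ∈ Finset.range (r - 2), (p + ((r - 2) - 1 - i) * w) * w : ℕ) : ℝ) * 2 +
      (9 / (r : ℝ) ^ 2 + 1 / r) * (m : ℝ) ^ 2 ≥ (m : ℝ) ^ 2 := by
  obtain ⟨J, rfl⟩ : ∃ J, r = J + 2 := ⟨r - 2, by omega⟩
  rw [Nat.add_sub_cancel]
  obtain ⟨w, hw⟩ : ∃ w, w = m / (J + 2) := ⟨_, rfl⟩
  have hw1 : J + 2 ≤ w := by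
    rw [hw]
    exact (Nat.le_div_iff_mul_le (by omega)).2 hm
  have hw2 : (J + 2) * w ≤ m := by
    rw [hw]
    exact Nat.mul_div_le m (J + 2)
  have hw3 : m < (J + 2) * w + (J + 2) := by
    rw [hw]
    exact Nat.lt_mul_div_succ m (by omega)
  obtain ⟨e, he⟩ := Nat.exists_eq_add_of_le hw2
  have he1 : e < w := by omega
  have hp : m = (2 * w + e) + J * w := by
    rw [he]
    ring
  refine ⟨w, 2 * w + e, by omega, by omega, hp, hw2, ?_⟩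
  have hs : ∑ i ∈ Finset.range J, (2 * w + e + (J - 1 - i) * w) * w =
      ∑ i ∈ Finset.range J, (2 * w + e + i * w) * w :=
    Finset.sum_range_reflect (fun i => (2 * w + e + i * w) * w) J
  rw [hs]
  have h1 := linc_sum (2 * w + e) w J
  have h2 : (2 : ℝ) * ((∑ i ∈ Finset.range J, (2 * w + e + i * w) * w : ℕ) : ℝ) + J * (w : ℝ) ^ 2 =
      2 * (J * (2 * w + e) * w) + (J : ℝ) ^ 2 * (w : ℝ) ^ 2 := by
    exact_mod_cast h1
  have h3 : (m : ℝ) = (2 * w + e) + J * w := by exact_mod_cast hp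
  have hr0 : (0 : ℝ) < ((J + 2 : ℕ) : ℝ) := by positivity
  have h4 : ((J + 2 : ℕ) : ℝ) * w ≤ m := by exact_mod_cast hw2
  have h5 : (e : ℝ) ≤ w := by exact_mod_cast he1.le
  have h6 : (0 : ℝ) ≤ w := Nat.cast_nonneg _
  have h7 : (0 : ℝ) ≤ e := Nat.cast_nonneg _
  have h8 : (w : ℝ) ^ 2 ≤ (m : ℝ) ^ 2 / ((J + 2 : ℕ) : ℝ) ^ 2 := by
    rw [le_div_iff₀ (pow_pos hr0 2), ← mul_pow, mul_comm]
    exact pow_le_pow_left₀ (mul_nonneg hr0.le h6) h4 2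
  have h9 : ((2 * w + e : ℝ)) ^ 2 ≤ 9 / ((J + 2 : ℕ) : ℝ) ^ 2 * (m : ℝ) ^ 2 := by
    calc ((2 * w + e : ℝ)) ^ 2 ≤ (3 * w) ^ 2 :=
          pow_le_pow_left₀ (by linarith) (by linarith) 2
      _ = 9 * (w : ℝ) ^ 2 := by ring
      _ ≤ 9 * ((m : ℝ) ^ 2 / ((J + 2 : ℕ) : ℝ) ^ 2) := by linarith
      _ = _ := by ring
  have h10 : (J : ℝ) * (w : ℝ) ^ 2 ≤ 1 / ((J + 2 : ℕ) : ℝ) * (m : ℝ) ^ 2 := by
    have h11 : (J : ℝ) ≤ ((J + 2 : ℕ) : ℝ) := by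
      push_cast
      linarith
    calc (J : ℝ) * (w : ℝ) ^ 2 ≤ ((J + 2 : ℕ) : ℝ) * ((m : ℝ) ^ 2 / ((J + 2 : ℕ) : ℝ) ^ 2) :=
          mul_le_mul h11 h8 (sq_nonneg _) hr0.le
      _ = 1 / ((J + 2 : ℕ) : ℝ) * (m : ℝ) ^ 2 := by
          field_simp
  have h12 : (m : ℝ) ^ 2 = ((2 * w + e : ℝ)) ^ 2 + 2 * (J * (2 * w + e) * w) +
      (J : ℝ) ^ 2 * (w : ℝ) ^ 2 := by
    rw [h3]
    ring
  rw [ge_iff_le, add_mul]
  linarith

/-- The order of a group of linear type and its chain. PROOF. `lin_all` for `Fin m` with `w`, `p` from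
`lin_params`. `|G| ≤ b |SL_m(k)| ≤ b q ^ (m ^ 2)`. -/
theorem lin_chain {r : ℕ} (hr : 6 ≤ r) {G : Type} [Group G] [Finite G] {b : ℝ}
    (hG : IsLinType b (r * r) G) : ∃ (q m w p : ℕ) (F : Flag G (r - 2)), 2 ≤ q ∧ r * r ≤ m ∧
      1 ≤ w ∧ r * w ≤ m ∧ m = p + (r - 2) * w ∧ (Nat.card G : ℝ) ≤ b * (q : ℝ) ^ (m * m) ∧
      (∀ i < r - 2, F.A i ⊓ F.H i = ⊥) ∧
      (∀ i < r - 2, Nat.card (F.A i) = q ^ ((p + ((r - 2) - 1 - i) * w) * w)) ∧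
      (∀ i < r - 2, ({ζ | ∃ χ, IsCh (F.A i) χ ∧ ζ = F.std i χ} : Set (G → ℂ)).ncard ≤
        q ^ (w * w)) ∧
      ((∑ i ∈ Finset.range (r - 2), (p + ((r - 2) - 1 - i) * w) * w : ℕ) : ℝ) * 2 +
        (9 / (r : ℝ) ^ 2 + 1 / r) * (m : ℝ) ^ 2 ≥ (m : ℝ) ^ 2 := by
  classical
  obtain ⟨k, i1, i2, m, φ, hm, hker, hind⟩ := hG
  obtain ⟨w, p, hw, hwp, hmp, hrw, hsum⟩ := lin_params hr hm
  obtain ⟨F, -, -, h3, h4, h5, -⟩ := lin_all k hw hwp (r - 2) (Fin m)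
    ((Fintype.card_fin m).trans hmp) φ hker
  have h6 : Nat.card (Matrix (Fin m) (Fin m) k) = Nat.card k ^ (m * m) := by
    have h7 : Nat.card (Matrix (Fin m) (Fin m) k) = Nat.card (Fin m → Fin m → k) := rfl
    rw [h7, Nat.card_pi]
    simp only [Nat.card_pi, Finset.prod_const, Finset.card_univ, Fintype.card_fin]
    rw [← pow_mul]
  have h8 : Nat.card φ.range ≤ Nat.card k ^ (m * m) := by
    refine (Nat.card_le_card_of_surjective φ.rangeRestrict φ.rangeRestrict_surjective).trans ?_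
    rw [← h6]
    exact Nat.card_le_card_of_injective
      (fun g : Matrix.SpecialLinearGroup (Fin m) k => (g : Matrix (Fin m) (Fin m) k))
      Subtype.val_injective
  have hcard : (Nat.card G : ℝ) ≤ b * (Nat.card k : ℝ) ^ (m * m) := by
    rw [← φ.range.index_mul_card, Nat.cast_mul]
    refine mul_le_mul hind (by exact_mod_cast h8) (Nat.cast_nonneg _) ?_
    exact (Nat.cast_nonneg _).trans hind
  exact ⟨Nat.card k, m, w, p, F, Finite.one_lt_card, hm, hw, hrw, hmp, hcard, h3, h4, h5, hsum⟩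

end MP0775d3.Ge
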