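import Mathlib

/-! Standard characters of a group of matrices. -/

set_option linter.unusedSectionVars false
set_option linter.unusedVariables false

namespace MP0775d3.Ge

open Matrix

/-- The number of the characters of the additive group of the matrices that are trivial on the
matrices whose rows in `W` vanish. PROOF. Restriction to the matrices with rows in `W` is injective on
these characters; `|W| = |κ|`, and a finite abelian group of order `q ^ (w * w)` has so many
characters. -/
theorem std_card {k : Type} [Field k] [Finite k] {ι κ : Type} [Fintype ι] [DecidableEq ι]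
    [Fintype κ] [DecidableEq κ] (W : Finset ι) (hW : W.card = Fintype.card κ) :
    {χ : Matrix ι κ k → ℂ | χ 0 = 1 ∧ (∀ u v, χ (u + v) = χ u * χ v) ∧
      ∀ v, (∀ a ∈ W, ∀ b, v a b = 0) → χ v = 1}.Finite ∧
    {χ : Matrix ι κ k → ℂ | χ 0 = 1 ∧ (∀ u v, χ (u + v) = χ u * χ v) ∧
      ∀ v, (∀ a ∈ W, ∀ b, v a b = 0) → χ v = 1}.ncard ≤
      Nat.card k ^ (Fintype.card κ * Fintype.card κ) := by
  classical
  cases nonempty_fintype k
  let Φ : AddChar (W → κ → k) ℂ → (Matrix ι κ k → ℂ) := fun ψ v => ψ fun a b => v a.1 b
  have hsub : {χ : Matrix ι κ k → ℂ | χ 0 = 1 ∧ (∀ u v, χ (u + v) = χ u * χ v) ∧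
      ∀ v, (∀ a ∈ W, ∀ b, v a b = 0) → χ v = 1} ⊆ Φ '' Set.univ := by
    rintro χ ⟨h0, hadd, htr⟩
    let ext : (W → κ → k) → Matrix ι κ k := fun g a b => if h : a ∈ W then g ⟨a, h⟩ b else 0
    have ext0 : ext 0 = 0 := by
      ext a b
      simp [ext]
    have extadd : ∀ g g', ext (g + g') = ext g + ext g' := by
      intro g g'
      ext a b
      by_cases h : a ∈ W
      · simp [ext, h]
      · simp [ext, h]
    let ψ : AddChar (W → κ → k) ℂ :=
      { toFun := fun g => χ (ext g)
        map_zero_eq_one' := by
          show χ (ext 0) = 1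
          rw [ext0, h0]
        map_add_eq_mul' := by
          intro g g'
          show χ (ext (g + g')) = χ (ext g) * χ (ext g')
          rw [extadd, hadd] }
    refine ⟨ψ, Set.mem_univ _, ?_⟩
    funext v
    show χ (ext fun a b => v a.1 b) = χ v
    have h2 : χ (v - ext fun a b => v a.1 b) = 1 := by
      apply htr
      intro a ha b
      rw [Matrix.sub_apply]
      simp [ext, ha]
    have h3 : χ v = χ (ext fun a b => v a.1 b) * χ (v - ext fun a b => v a.1 b) := by
      rw [← hadd, add_sub_cancel]
    rw [h3, h2, mul_one]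
  have hfin : (Φ '' Set.univ).Finite := Set.toFinite _
  refine ⟨hfin.subset hsub, (Set.ncard_le_ncard hsub hfin).trans ?_⟩
  refine (Set.ncard_image_le Set.finite_univ).trans ?_
  rw [Set.ncard_univ, Nat.card_eq_fintype_card, AddChar.card_eq, Fintype.card_fun, Fintype.card_fun,
    Fintype.card_coe, hW, ← pow_mul, Nat.card_eq_fintype_card]

end MP0775d3.Ge
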