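import Pool.Agent.Lib.MP_0775d3_lc.Ge.LinB
import Pool.Agent.Lib.MP_0775d3_lc.Ge.LinA
import Pool.Agent.Lib.MP_0775d3_lc.Ge.LinS
import Pool.Agent.Lib.MP_0775d3_lc.Ge.Ch

/-! The chain of a linear group: one stage. -/

set_option linter.unusedSectionVars false
set_option linter.unusedVariables false

namespace MP0775d3.Ge

open Matrix

section
variable {G : Type} [Group G] {J : ℕ}

private theorem ld_uu_zero {k : Type} [Field k] {ι κ : Type} [Fintype ι] [DecidableEq ι] [Fintype κ]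
    [DecidableEq κ] : (uu (0 : Matrix ι κ k)) = 1 := by
  apply Subtype.ext
  change Matrix.fromBlocks (1 : Matrix ι ι k) 0 0 (1 : Matrix κ κ k) = 1
  exact Matrix.fromBlocks_one

/-- the map `v ↦ φ (uu v)` -/
private theorem exists_um {k : Type} [Field k] {w : ℕ} (hw : 1 ≤ w) {ι : Type} [Fintype ι]
    [DecidableEq ι] (φ : Matrix.SpecialLinearGroup (ι ⊕ Fin w) k →* G)
    (hφ : ∀ g, φ g = 1 → ∃ c : k, (g : Matrix (ι ⊕ Fin w) (ι ⊕ Fin w) k) = c • 1) :
    (∀ v v', φ (uu (v + v')) = φ (uu v) * φ (uu v')) ∧ φ (uu (0 : Matrix ι (Fin w) k)) = 1 ∧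
      (∀ v v' : Matrix ι (Fin w) k, φ (uu v) = φ (uu v') → v = v') ∧
      (∀ g v, φ (hh g) * φ (uu v) * (φ (hh g))⁻¹ = φ (uu ((g : Matrix ι ι k) * v))) ∧
      ∀ g (v : Matrix ι (Fin w) k), φ (hh g) = φ (uu v) → v = 0 := by
  have hne : Nonempty (Fin w) := ⟨⟨0, hw⟩⟩
  have h1 : ∀ v v' : Matrix ι (Fin w) k, φ (uu (v + v')) = φ (uu v) * φ (uu v') := fun v v' => by
    rw [uu_add, map_mul]
  have h0 : φ (uu (0 : Matrix ι (Fin w) k)) = 1 := by
    rw [ld_uu_zero, map_one]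
  have hk : ∀ g (v : Matrix ι (Fin w) k), φ (hh g) = φ (uu v) → v = 0 := by
    intro g v h
    have h2 : φ (hh g⁻¹ * uu v) = 1 := by
      rw [map_mul, ← h, ← map_mul, ← map_mul, inv_mul_cancel, map_one, map_one]
    obtain ⟨c, hc⟩ := hφ _ h2
    exact (uu_hh_scalar hc).1
  refine ⟨h1, h0, fun v v' h => ?_, fun g v => ?_, hk⟩
  · have h2 : φ (uu (v - v')) = 1 := by
      have h3 := h1 (v - v') v'
      rw [sub_add_cancel, h] at h3
      exact (mul_eq_right.1 h3.symm)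
    have h4 := hk 1 (v - v') (by rw [h2, map_one, map_one])
    exact sub_eq_zero.1 h4
  · rw [← map_inv, ← map_mul, ← map_mul, hh_uu]

/-- PROOF. Let `φ' = φ.comp hh`, and `F`, `W` from the hypothesis. `A₀ = {φ (uu v)}`, `H₀` = the range of
`φ'`. `v ↦ φ (uu v)` is an injective homomorphism of the additive group (`uu_add`, `uu_hh_scalar` with
`g = 1`), so `|A₀| = q ^ (|ι| w)`; `A₀` is normalized by `H₀` (`hh_uu`); `A₀ ⊓ H₀ = ⊥` (`uu_hh_scalar`). For
a character `χ` of `A₀` let `h` be the matrix of `exists_sl` for `v ↦ χ (φ (uu v))`,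
`el₀ χ = φ' h`, `std₀ χ = cj (φ' h)⁻¹ χ`: it is trivial on the `φ (uu v)` such that the rows in `W` of `v`
vanish. `fix`: `x = φ' g` with `g` as in the definition of `LinData`, then `g⁻¹` has the same rows `e_a`,
`a ∈ W`, and `g⁻¹ v - v` has vanishing rows in `W`; outside of `A₀` both functions are `0`. The number of
the standard characters: `std_card` (`ζ ↦ (v ↦ ζ (φ (uu v)))` is injective). `exists_cons`. The new set is
the image of the right summand `Fin w`: the matrices `uu v` and `hh g` have the rows `e_a` there.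
`(J + 1) - 1 - 0 = J`, `(J + 1) - 1 - (i + 1) = J - 1 - i`. -/
theorem lin_succ (k : Type) [Field k] [Finite k] [Finite G] {w p : ℕ} (hw : 1 ≤ w) {ι : Type}
    [Fintype ι] [DecidableEq ι] (hι : Fintype.card ι = p + J * w)
    (φ : Matrix.SpecialLinearGroup (ι ⊕ Fin w) k →* G)
    (hφ : ∀ g, φ g = 1 → ∃ c : k, (g : Matrix (ι ⊕ Fin w) (ι ⊕ Fin w) k) = c • 1)
    (h : LinData k w p (φ.comp (hh : Matrix.SpecialLinearGroup ι k →* _)) J) :
    LinData k w p φ (J + 1) := by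
  classical
  have hG : Fintype G := Fintype.ofFinite G
  obtain ⟨F, hA, hH, hAH, hcA, hst, W, hW, hfx⟩ := h
  obtain ⟨u1, u0, ui, uc, uk⟩ := exists_um hw φ hφ
  -- the groups of the first stage
  obtain ⟨um, hum⟩ : ∃ um : Multiplicative (Matrix ι (Fin w) k) →* G,
      ∀ v, um (Multiplicative.ofAdd v) = φ (uu v) :=
    ⟨MonoidHom.mk' (fun v => φ (uu (Multiplicative.toAdd v))) fun v v' => u1 _ _, fun v => rfl⟩
  obtain ⟨A₀, hA₀⟩ : ∃ A₀ : Subgroup G, ∀ x, x ∈ A₀ ↔ ∃ v : Matrix ι (Fin w) k, φ (uu v) = x := by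
    refine ⟨um.range, fun x => ?_⟩
    rw [MonoidHom.mem_range]
    constructor
    · rintro ⟨v, rfl⟩
      exact ⟨Multiplicative.toAdd v, (hum _).symm⟩
    · rintro ⟨v, rfl⟩
      exact ⟨Multiplicative.ofAdd v, hum v⟩
  obtain ⟨H₀, hH₀⟩ : ∃ H₀ : Subgroup G,
      H₀ = (φ.comp (hh : Matrix.SpecialLinearGroup ι k →* _)).range := ⟨_, rfl⟩
  have hmH : ∀ x, x ∈ H₀ ↔ ∃ g : Matrix.SpecialLinearGroup ι k, φ (hh g) = x := by
    intro x
    rw [hH₀]
    exact MonoidHom.mem_range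
  have comm : ∀ x ∈ A₀, ∀ y ∈ A₀, x * y = y * x := by
    intro x hx y hy
    obtain ⟨v, rfl⟩ := (hA₀ x).1 hx
    obtain ⟨v', rfl⟩ := (hA₀ y).1 hy
    rw [← u1, ← u1, add_comm]
  have nor : ∀ h ∈ H₀, ∀ x ∈ A₀, h * x * h⁻¹ ∈ A₀ := by
    intro h hh' x hx
    obtain ⟨g, rfl⟩ := (hmH h).1 hh'
    obtain ⟨v, rfl⟩ := (hA₀ x).1 hx
    rw [uc]
    exact (hA₀ _).2 ⟨_, rfl⟩
  -- the characters
  have hex : ∀ χ : G → ℂ, IsCh A₀ χ → ∃ g : Matrix.SpecialLinearGroup ι k,
      ∀ v : Matrix ι (Fin w) k, (∀ a ∈ W, ∀ b, v a b = 0) →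
        χ (φ (uu ((g : Matrix ι ι k) * v))) = 1 := by
    intro χ hχ
    have h2 : W.card = Fintype.card (Fin w) := by rw [hW, Fintype.card_fin]
    have h3 : 0 < Fintype.card (Fin w) := by rw [Fintype.card_fin]; exact hw
    exact exists_sl W h2 h3 (fun v => χ (φ (uu v))) (by rw [u0]; exact hχ.1)
      (fun a b => by rw [u1]; exact hχ.2.1 _ ((hA₀ _).2 ⟨_, rfl⟩) _ ((hA₀ _).2 ⟨_, rfl⟩))
  choose! gg hgg using hex
  obtain ⟨el₀, hel⟩ : ∃ el₀ : (G → ℂ) → G, ∀ χ, el₀ χ = φ (hh (gg χ)) := ⟨_, fun _ => rfl⟩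
  obtain ⟨std₀, hstd⟩ : ∃ std₀ : (G → ℂ) → G → ℂ, ∀ χ, std₀ χ = cj (el₀ χ)⁻¹ χ :=
    ⟨_, fun _ => rfl⟩
  have hel_mem : ∀ χ, el₀ χ ∈ H₀ := fun χ => (hmH _).2 ⟨gg χ, (hel χ).symm⟩
  have std_ch : ∀ χ, IsCh A₀ χ → IsCh A₀ (std₀ χ) := by
    intro χ hχ
    rw [hstd]
    exact hχ.cj (nor _ (H₀.inv_mem (hel_mem χ)))
  have hsv : ∀ χ (v : Matrix ι (Fin w) k), std₀ χ (φ (uu v)) =
      χ (φ (uu ((gg χ : Matrix ι ι k) * v))) := by
    intro χ v
    rw [hstd, cj, inv_inv, hel, uc]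
  have hs1 : ∀ χ, IsCh A₀ χ → ∀ v : Matrix ι (Fin w) k, (∀ a ∈ W, ∀ b, v a b = 0) →
      std₀ χ (φ (uu v)) = 1 := by
    intro χ hχ v hv
    rw [hsv]
    exact hgg χ hχ v hv
  obtain ⟨F', hF1, hF2, hF3, hF4, hF5, hF6⟩ := exists_cons F A₀ H₀ std₀ el₀ comm nor
    (fun χ _ => hel_mem χ) std_ch
    (fun χ hχ => by rw [hstd, cj_cj, mul_inv_cancel, cj_one])
    (fun hJ => by rw [hH₀]; exact hA 0 hJ) (fun hJ => by rw [hH₀]; exact hH 0 hJ) (by
      intro hJ χ hχ x hx
      obtain ⟨g, hg1, hg2⟩ := hfx hJ x hx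
      have hg1' : φ (hh g) = x := hg1
      have hxH : x ∈ H₀ := (hmH x).2 ⟨g, hg1'⟩
      have hgi : ∀ a ∈ W, ∀ b, ((g⁻¹ : Matrix.SpecialLinearGroup ι k) : Matrix ι ι k) a b =
          if a = b then 1 else 0 := by
        intro a ha b
        have h2 : ((g * g⁻¹ : Matrix.SpecialLinearGroup ι k) : Matrix ι ι k) a b =
            if a = b then 1 else 0 := by
          rw [mul_inv_cancel]
          exact Matrix.one_apply
        rw [Matrix.SpecialLinearGroup.coe_mul, Matrix.mul_apply] at h2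
        rw [← h2, Finset.sum_eq_single a]
        · rw [hg2 a ha a, if_pos rfl, one_mul]
        · intro c _ hc
          rw [hg2 a ha c, if_neg (Ne.symm hc), zero_mul]
        · intro h3
          exact absurd (Finset.mem_univ a) h3
      funext y
      rw [cj]
      by_cases hy : y ∈ A₀
      · obtain ⟨v, rfl⟩ := (hA₀ y).1 hy
        have h2 : x⁻¹ * φ (uu v) * x =
            φ (uu (((g⁻¹ : Matrix.SpecialLinearGroup ι k) : Matrix ι ι k) * v)) := by
          rw [← uc, ← hg1', map_inv, map_inv, inv_inv]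
        have h3 : ((g⁻¹ : Matrix.SpecialLinearGroup ι k) : Matrix ι ι k) * v =
            (((g⁻¹ : Matrix.SpecialLinearGroup ι k) : Matrix ι ι k) * v - v) + v := by
          rw [sub_add_cancel]
        rw [h2, h3, u1, (std_ch χ hχ).2.1 _ ((hA₀ _).2 ⟨_, rfl⟩) _ ((hA₀ _).2 ⟨_, rfl⟩),
          hs1 χ hχ, one_mul]
        intro a ha b
        rw [Matrix.sub_apply, Matrix.mul_apply, Finset.sum_eq_single a]
        · rw [hgi a ha a, if_pos rfl, one_mul, sub_self]
        · intro c _ hc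
          rw [hgi a ha c, if_neg (Ne.symm hc), zero_mul]
        · intro h4
          exact absurd (Finset.mem_univ a) h4
      · rw [(std_ch χ hχ).2.2 y hy, (std_ch χ hχ).2.2]
        intro h2
        apply hy
        have h3 := nor x hxH _ h2
        have h4 : x * (x⁻¹ * y * x) * x⁻¹ = y := by group
        rwa [h4] at h3)
  have hrange : (φ.comp (hh : Matrix.SpecialLinearGroup ι k →* _)).range ≤ φ.range := by
    rintro _ ⟨g, rfl⟩
    exact ⟨hh g, rfl⟩
  refine ⟨F', ?_, ?_, ?_, ?_, ?_, Finset.univ.map Function.Embedding.inr, ?_, ?_⟩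
  · rintro (_ | i) hi
    · rw [hF1]
      intro x hx
      obtain ⟨v, rfl⟩ := (hA₀ x).1 hx
      exact ⟨uu v, rfl⟩
    · rw [hF4]
      exact (hA i (by omega)).trans hrange
  · rintro (_ | i) hi
    · rw [hF2, hH₀]
      exact hrange
    · rw [hF5]
      exact (hH i (by omega)).trans hrange
  · rintro (_ | i) hi
    · rw [hF1, hF2, eq_bot_iff]
      rintro x ⟨hx1, hx2⟩
      obtain ⟨v, rfl⟩ := (hA₀ x).1 hx1
      obtain ⟨g, hg⟩ := (hmH _).1 hx2
      rw [Subgroup.mem_bot, uk g v hg, u0]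
    · rw [hF4, hF5]
      exact hAH i (by omega)
  · rintro (_ | i) hi
    · rw [hF1]
      have hb : Function.Bijective (fun v : Matrix ι (Fin w) k =>
          (⟨φ (uu v), (hA₀ _).2 ⟨v, rfl⟩⟩ : A₀)) := by
        constructor
        · intro v v' hv
          exact ui v v' (congrArg Subtype.val hv)
        · rintro ⟨x, hx⟩
          obtain ⟨v, hv⟩ := (hA₀ x).1 hx
          exact ⟨v, Subtype.ext hv⟩
      rw [← Nat.card_congr (Equiv.ofBijective _ hb)]
      change Nat.card (ι → Fin w → k) = _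
      rw [Nat.card_fun, Nat.card_fun, Nat.card_eq_fintype_card (α := Fin w),
        Nat.card_eq_fintype_card (α := ι), Fintype.card_fin, hι, ← pow_mul]
      congr 1
      rw [Nat.add_sub_cancel, Nat.sub_zero, mul_comm]
    · rw [hF4, hcA i (by omega)]
      congr 4
      omega
  · rintro (_ | i) hi
    · rw [hF1, hF3]
      have h2 : W.card = Fintype.card (Fin w) := by rw [hW, Fintype.card_fin]
      obtain ⟨hfin, hcard⟩ := std_card (k := k) (κ := Fin w) W h2
      rw [Fintype.card_fin] at hcard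
      refine (Set.ncard_le_ncard_of_injOn (fun (ζ : G → ℂ) (v : Matrix ι (Fin w) k) =>
        ζ (φ (uu v))) ?_ ?_ hfin).trans hcard
      · rintro _ ⟨χ, hχ, rfl⟩
        refine ⟨?_, fun a b => ?_, fun v hv => hs1 χ hχ v hv⟩
        · change std₀ χ (φ (uu 0)) = 1
          rw [u0]
          exact (std_ch χ hχ).1
        · change std₀ χ (φ (uu (a + b))) = std₀ χ (φ (uu a)) * std₀ χ (φ (uu b))
          rw [u1]
          exact (std_ch χ hχ).2.1 _ ((hA₀ _).2 ⟨_, rfl⟩) _ ((hA₀ _).2 ⟨_, rfl⟩)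
      · rintro _ ⟨χ, hχ, rfl⟩ _ ⟨χ', hχ', rfl⟩ he
        funext y
        by_cases hy : y ∈ A₀
        · obtain ⟨v, rfl⟩ := (hA₀ y).1 hy
          exact congrFun he v
        · rw [(std_ch χ hχ).2.2 y hy, (std_ch χ' hχ').2.2 y hy]
    · rw [hF4, hF6]
      exact hst i (by omega)
  · rw [Finset.card_map, Finset.card_univ, Fintype.card_fin]
  · intro _ x hx
    rw [hF1, hF2] at hx
    rcases hx with hx | hx
    · obtain ⟨v, rfl⟩ := (hA₀ x).1 hx
      refine ⟨uu v, rfl, ?_⟩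
      intro a ha b
      rw [Finset.mem_map] at ha
      obtain ⟨a', -, rfl⟩ := ha
      change Matrix.fromBlocks (1 : Matrix ι ι k) v 0 (1 : Matrix (Fin w) (Fin w) k)
        (Sum.inr a') b = _
      rcases b with b | b
      · rw [Matrix.fromBlocks_apply₂₁, if_neg (by exact Sum.inr_ne_inl)]
        rfl
      · rw [Matrix.fromBlocks_apply₂₂, Matrix.one_apply]
        simp only [Function.Embedding.inr_apply, Sum.inr.injEq]
    · obtain ⟨g, rfl⟩ := (hmH x).1 hx
      refine ⟨hh g, rfl, ?_⟩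
      intro a ha b
      rw [Finset.mem_map] at ha
      obtain ⟨a', -, rfl⟩ := ha
      change Matrix.fromBlocks (g : Matrix ι ι k) 0 0 (1 : Matrix (Fin w) (Fin w) k)
        (Sum.inr a') b = _
      rcases b with b | b
      · rw [Matrix.fromBlocks_apply₂₁, if_neg (by exact Sum.inr_ne_inl)]
        rfl
      · rw [Matrix.fromBlocks_apply₂₂, Matrix.one_apply]
        simp only [Function.Embedding.inr_apply, Sum.inr.injEq]

/-- PROOF. Induction on `J` with `lin_zero`, `lin_succ`, `lin_reindex`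
(`e : Fin (p + J * w) ⊕ Fin w ≃ ι`); `φ.comp hh` is injective (`uu_hh_scalar`). -/
theorem lin_all (k : Type) [Field k] [Finite k] [Finite G] {w p : ℕ} (hw : 1 ≤ w) (hp : w ≤ p)
    (J : ℕ) : ∀ (ι : Type) [Fintype ι] [DecidableEq ι], Fintype.card ι = p + J * w →
      ∀ φ : Matrix.SpecialLinearGroup ι k →* G,
        (∀ g, φ g = 1 → ∃ c : k, (g : Matrix ι ι k) = c • 1) → LinData k w p φ J := by
  induction J with
  | zero =>
    intro ι _ _ hι φ _
    exact lin_zero k hp (by rw [hι, zero_mul, add_zero]) φ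
  | succ J ih =>
    intro ι _ _ hι φ hφ
    have hne : Nonempty (Fin w) := ⟨⟨0, hw⟩⟩
    have hcard : Fintype.card (Fin (p + J * w) ⊕ Fin w) = Fintype.card ι := by
      rw [Fintype.card_sum, Fintype.card_fin, Fintype.card_fin, hι]
      ring
    let e : Fin (p + J * w) ⊕ Fin w ≃ ι := Fintype.equivOfCardEq hcard
    have hφ' : ∀ g, (φ.comp (slRe e)) g = 1 → ∃ c : k,
        (g : Matrix (Fin (p + J * w) ⊕ Fin w) (Fin (p + J * w) ⊕ Fin w) k) = c • 1 := by
      intro g hg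
      obtain ⟨c, hc⟩ := hφ _ hg
      refine ⟨c, ?_⟩
      ext a b
      have h1 := congrFun (congrFun hc (e a)) (e b)
      change (g : Matrix _ _ k) (e.symm (e a)) (e.symm (e b)) = _ at h1
      rw [Equiv.symm_apply_apply, Equiv.symm_apply_apply] at h1
      rw [h1, Matrix.smul_apply, Matrix.smul_apply, Matrix.one_apply, Matrix.one_apply]
      simp only [EmbeddingLike.apply_eq_iff_eq]
    refine lin_reindex k e φ (lin_succ k hw (Fintype.card_fin _) (φ.comp (slRe e)) hφ'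
      (ih (Fin (p + J * w)) (Fintype.card_fin _) _ ?_))
    intro g hg
    obtain ⟨c, hc⟩ := hφ' _ hg
    have h1 : ((hh g * uu (0 : Matrix (Fin (p + J * w)) (Fin w) k) :
        Matrix.SpecialLinearGroup (Fin (p + J * w) ⊕ Fin w) k) :
        Matrix (Fin (p + J * w) ⊕ Fin w) (Fin (p + J * w) ⊕ Fin w) k) = c • 1 := by
      rw [ld_uu_zero, mul_one]
      exact hc
    refine ⟨1, ?_⟩
    rw [(uu_hh_scalar h1).2, one_smul]
    rfl

end

end MP0775d3.Ge
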