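import Pool.Agent.Lib.MP_0775d3_lc.Ge.LinC
import Pool.Agent.Lib.MP_0775d3_lc.Ge.GeFlag

/-! `GE` for linear groups of large rank. -/

set_option linter.unusedSectionVars false
set_option linter.unusedVariables false

namespace MP0775d3.Ge

open Matrix MP0775d3.Sl2 MP0775d3.Cf

private lemma lin_log {r q m a n : ℕ} (hr : 6 ≤ r) (hq : 2 ≤ q) (hm : r * r ≤ m)
    (hn : (n : ℝ) ≤ (n : ℝ) ^ (1 / (r : ℝ)) * (q : ℝ) ^ (m * m)) (hN : q ^ a ≤ n)
    (ha : (a : ℝ) * 2 + (9 / (r : ℝ) ^ 2 + 1 / r) * (m : ℝ) ^ 2 ≥ (m : ℝ) ^ 2) :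
    0 < (n : ℝ) ∧ 0 < Real.log q ∧ (m : ℝ) ^ 2 * Real.log q ≤ 4 * Real.log n ∧
      (r : ℝ) * Real.log 2 ≤ Real.log n ∧
      Real.log n - 2 * a * Real.log q ≤ 11 / r * Real.log n := by
  have hq0 : (0 : ℝ) < q := by
    have : 0 < q := by omega
    exact_mod_cast this
  have hn0 : (0 : ℝ) < n := by
    have : 0 < n := lt_of_lt_of_le (pow_pos (by omega) a) hN
    exact_mod_cast this
  have hl2 : (0 : ℝ) < Real.log 2 := Real.log_pos (by norm_num)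
  have hlq : Real.log 2 ≤ Real.log q := by
    apply Real.log_le_log (by norm_num)
    exact_mod_cast hq
  have hlq0 : 0 < Real.log q := lt_of_lt_of_le hl2 hlq
  have h1 : (a : ℝ) * Real.log q ≤ Real.log n := by
    rw [← Real.log_pow]
    apply Real.log_le_log (by positivity)
    exact_mod_cast hN
  have h2 : Real.log n ≤ 1 / r * Real.log n + (m : ℝ) ^ 2 * Real.log q := by
    have h : Real.log n ≤ Real.log ((n : ℝ) ^ (1 / (r : ℝ)) * (q : ℝ) ^ (m * m)) :=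
      Real.log_le_log hn0 hn
    rw [Real.log_mul (by positivity) (by positivity), Real.log_rpow hn0, Real.log_pow] at h
    push_cast at h
    rw [pow_two]
    exact h
  have hr6 : (6 : ℝ) ≤ r := by exact_mod_cast hr
  have hr0 : (0 : ℝ) < r := by linarith
  obtain ⟨x, hx⟩ : ∃ x : ℝ, x = 1 / (r : ℝ) := ⟨_, rfl⟩
  have hx0 : 0 < x := by rw [hx]; positivity
  have hx6 : x ≤ 1 / 6 := by
    rw [hx]
    exact one_div_le_one_div_of_le (by norm_num) hr6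
  have h9 : 9 / (r : ℝ) ^ 2 = 9 * x ^ 2 := by
    rw [hx]
    field_simp
  have h10 : 11 / (r : ℝ) = 11 * x := by
    rw [hx]
    field_simp
  rw [h9, ← hx] at ha
  rw [← hx] at h2
  rw [h10]
  have hxx : x ^ 2 ≤ x * (1 / 6) := by nlinarith
  have hm0 : (0 : ℝ) ≤ (m : ℝ) ^ 2 := by positivity
  have hc : (9 * x ^ 2 + x) * (m : ℝ) ^ 2 ≤ (5 / 12) * (m : ℝ) ^ 2 := by
    apply mul_le_mul_of_nonneg_right _ hm0
    nlinarith
  have ha4 : (m : ℝ) ^ 2 ≤ 4 * a := by nlinarith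
  have h3 : (m : ℝ) ^ 2 * Real.log q ≤ 4 * Real.log n := by
    calc (m : ℝ) ^ 2 * Real.log q ≤ (4 * a) * Real.log q :=
          mul_le_mul_of_nonneg_right ha4 hlq0.le
      _ = 4 * (a * Real.log q) := by ring
      _ ≤ 4 * Real.log n := by linarith
  have hln0 : 0 ≤ Real.log n := by
    have : 0 ≤ (m : ℝ) ^ 2 * Real.log q := by positivity
    linarith
  refine ⟨hn0, hlq0, h3, ?_, ?_⟩
  · have hm' : (r : ℝ) * r ≤ m := by exact_mod_cast hm
    have hrr : (4 : ℝ) * r ≤ (m : ℝ) ^ 2 := by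
      have e1 : (6 : ℝ) * r ≤ r * r := by nlinarith
      have e2 : (1 : ℝ) ≤ m := by nlinarith
      nlinarith
    have e3 : (4 * (r : ℝ)) * Real.log 2 ≤ (m : ℝ) ^ 2 * Real.log q := by
      apply mul_le_mul hrr hlq hl2.le hm0
    nlinarith
  · have e1 : Real.log n - 2 * a * Real.log q ≤
        x * Real.log n + ((m : ℝ) ^ 2 - 2 * a) * Real.log q := by
      nlinarith
    have e2 : ((m : ℝ) ^ 2 - 2 * a) * Real.log q ≤ ((9 * x ^ 2 + x) * (m : ℝ) ^ 2) * Real.log q := by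
      apply mul_le_mul_of_nonneg_right _ hlq0.le
      linarith
    have e3 : ((9 * x ^ 2 + x) * (m : ℝ) ^ 2) * Real.log q =
        (9 * x ^ 2 + x) * ((m : ℝ) ^ 2 * Real.log q) := by ring
    have e4 : (9 * x ^ 2 + x) * ((m : ℝ) ^ 2 * Real.log q) ≤ (9 * x ^ 2 + x) * (4 * Real.log n) := by
      apply mul_le_mul_of_nonneg_left h3
      positivity
    have e5 : (9 * x ^ 2 + x) * (4 * Real.log n) ≤ 10 * x * Real.log n := by
      have e6 : (9 * x ^ 2 + x) * 4 ≤ 10 * x := by nlinarith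
      calc (9 * x ^ 2 + x) * (4 * Real.log n) = ((9 * x ^ 2 + x) * 4) * Real.log n := by ring
        _ ≤ (10 * x) * Real.log n := mul_le_mul_of_nonneg_right e6 hln0
    linarith

private lemma lin_real {r q m w a n : ℕ} {d : ℝ} (hr : 6 ≤ r) (hd : 27 / (r : ℝ) ≤ d) (hq : 2 ≤ q)
    (hm : r * r ≤ m) (hw : r * w ≤ m)
    (hn : (n : ℝ) ≤ (n : ℝ) ^ (1 / (r : ℝ)) * (q : ℝ) ^ (m * m)) (hN : q ^ a ≤ n)
    (ha : (a : ℝ) * 2 + (9 / (r : ℝ) ^ 2 + 1 / r) * (m : ℝ) ^ 2 ≥ (m : ℝ) ^ 2) :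
    (∀ e ≤ m * w, (q : ℝ) ^ e ≤ (n : ℝ) ^ d) ∧
      (n : ℝ) / ((q : ℝ) ^ a * (n : ℝ) ^ (-(8 / (r : ℝ)))) ^ 2 ≤ (n : ℝ) ^ d ∧
      2 * ((q : ℝ) ^ (w * w)) ^ (r - 2) * ((q : ℝ) ^ a * (n : ℝ) ^ (-(8 / (r : ℝ)))) /
        (q : ℝ) ^ a ≤ (n : ℝ) ^ (-(3 / (r : ℝ))) := by
  obtain ⟨hn0, hlq, h1, h2, h3⟩ := lin_log hr hq hm hn hN ha
  have hq0 : (0 : ℝ) < q := by
    have : 0 < q := by omega
    exact_mod_cast this
  have hr6 : (6 : ℝ) ≤ r := by exact_mod_cast hr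
  have hr0 : (0 : ℝ) < r := by linarith
  have hl2 : (0 : ℝ) < Real.log 2 := Real.log_pos (by norm_num)
  have hln0 : 0 ≤ Real.log n := by
    have : 0 ≤ (r : ℝ) * Real.log 2 := by positivity
    linarith
  have hw' : (r : ℝ) * w ≤ m := by exact_mod_cast hw
  have hmw : (m : ℝ) * w * Real.log q ≤ 4 / r * Real.log n := by
    have e1 : (r : ℝ) * ((m : ℝ) * w * Real.log q) ≤ 4 * Real.log n := by
      calc (r : ℝ) * ((m : ℝ) * w * Real.log q) = (m : ℝ) * Real.log q * (r * w) := by ring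
        _ ≤ (m : ℝ) * Real.log q * m := by
            apply mul_le_mul_of_nonneg_left hw'
            positivity
        _ = (m : ℝ) ^ 2 * Real.log q := by ring
        _ ≤ 4 * Real.log n := h1
    rw [div_mul_eq_mul_div, le_div_iff₀ hr0]
    linarith
  have hpd : (n : ℝ) ^ (4 / (r : ℝ)) ≤ (n : ℝ) ^ d := by
    rw [← Real.log_le_log_iff (by positivity) (by positivity), Real.log_rpow hn0,
      Real.log_rpow hn0]
    apply mul_le_mul_of_nonneg_right _ hln0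
    refine le_trans ?_ hd
    gcongr
    norm_num
  have hpow : ∀ e : ℕ, e ≤ m * w → (q : ℝ) ^ e ≤ (n : ℝ) ^ (4 / (r : ℝ)) := by
    intro e he
    rw [← Real.log_le_log_iff (by positivity) (by positivity), Real.log_rpow hn0, Real.log_pow]
    have he' : (e : ℝ) ≤ (m : ℝ) * w := by exact_mod_cast he
    calc (e : ℝ) * Real.log q ≤ (m : ℝ) * w * Real.log q :=
          mul_le_mul_of_nonneg_right he' hlq.le
      _ ≤ 4 / r * Real.log n := hmw
  refine ⟨fun e he => (hpow e he).trans hpd, ?_, ?_⟩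
  · rw [← Real.log_le_log_iff (by positivity) (by positivity), Real.log_rpow hn0,
      Real.log_div (by positivity) (by positivity), Real.log_pow,
      Real.log_mul (by positivity) (by positivity), Real.log_pow, Real.log_rpow hn0]
    have e1 : Real.log n - ((2 : ℕ) : ℝ) * (a * Real.log q + -(8 / (r : ℝ)) * Real.log n) =
        (Real.log n - 2 * a * Real.log q) + 16 / r * Real.log n := by
      push_cast
      ring
    rw [e1]
    have e2 : 27 / (r : ℝ) * Real.log n ≤ d * Real.log n := mul_le_mul_of_nonneg_right hd hln0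
    have e3 : 27 / (r : ℝ) * Real.log n = 11 / r * Real.log n + 16 / r * Real.log n := by ring
    linarith
  · have e1 : 2 * ((q : ℝ) ^ (w * w)) ^ (r - 2) * ((q : ℝ) ^ a * (n : ℝ) ^ (-(8 / (r : ℝ)))) /
        (q : ℝ) ^ a = 2 * (q : ℝ) ^ (w * w * (r - 2)) * (n : ℝ) ^ (-(8 / (r : ℝ))) := by
      rw [← pow_mul]
      field_simp
    rw [e1]
    have e2 : w * w * (r - 2) ≤ m * w := by
      calc w * w * (r - 2) ≤ w * w * r := Nat.mul_le_mul_left _ (Nat.sub_le _ _)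
        _ = (r * w) * w := by ring
        _ ≤ m * w := Nat.mul_le_mul_right _ hw
    have e3 := hpow _ e2
    have e4 : (2 : ℝ) ≤ (n : ℝ) ^ (1 / (r : ℝ)) := by
      rw [← Real.log_le_log_iff (by positivity) (by positivity), Real.log_rpow hn0,
        div_mul_eq_mul_div, one_mul, le_div_iff₀ hr0]
      linarith
    calc 2 * (q : ℝ) ^ (w * w * (r - 2)) * (n : ℝ) ^ (-(8 / (r : ℝ)))
        ≤ (n : ℝ) ^ (1 / (r : ℝ)) * (n : ℝ) ^ (4 / (r : ℝ)) * (n : ℝ) ^ (-(8 / (r : ℝ))) := by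
          gcongr
      _ = (n : ℝ) ^ (-(3 / (r : ℝ))) := by
          rw [← Real.rpow_add hn0, ← Real.rpow_add hn0]
          congr 1
          ring

/-- PROOF. `r = max 6 ⌈27 / d⌉₊`, `m₀ = r * r`, `t = 4 (r - 2) + 1`, `γ = 3 / r`, `h = 1 / r`, `ge_flag` for the
chain of `lin_chain` with `M = N n ^ (-8 / r)`, `n = |G| ≤ n ^ (1 / r) q ^ (m ^ 2)`,
`N = ∏ |A i| = q ^ a`. By `lin_params` `2 a ≥ m ^ 2 (1 - 9 / r ^ 2 - 1 / r) ≥ m ^ 2 / 2`, and `N ≤ n`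
(`prod_card_le`), so `q ^ (m ^ 2) ≤ n ^ 4`.
`|A i| ≤ q ^ (m w) ≤ q ^ (m ^ 2 / r) ≤ n ^ (4 / r) ≤ n ^ d` (`p + (J - 1 - i) w ≤ m`).
`σ ^ J = q ^ (w ^ 2 J) ≤ q ^ (m ^ 2 / r) ≤ n ^ (4 / r)`. `2 σ ^ J M / N ≤ 2 n ^ (-4 / r) ≤ n ^ (-3 / r)` since
`n ^ (1 / r) ≥ q ^ (m ^ 2 / (4 r)) ≥ 2`. `n / M ^ 2 = n / N ^ 2 * n ^ (16 / r)` and `n / N ^ 2 ≤`
`n ^ (1 / r) q ^ (m ^ 2 (9 / r ^ 2 + 1 / r)) ≤ n ^ (1 / r + 36 / r ^ 2 + 4 / r) ≤ n ^ (11 / r)`. -/
theorem ge_lin (d : ℝ) (hd : 0 < d) : ∃ γ : ℝ, 0 < γ ∧ ∃ t : ℕ, 1 ≤ t ∧ ∃ m₀ : ℕ,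
    ∃ h : ℝ, 0 < h ∧ ∀ (G : Type) [Group G] [Finite G],
      IsLinType ((Nat.card G : ℝ) ^ h) m₀ G →
      GE (Nat.card G) ((Nat.card G : ℝ) ^ d) ((Nat.card G : ℝ) ^ d) ((Nat.card G : ℝ) ^ (-γ)) t
        G := by
  obtain ⟨r, hr⟩ : ∃ r : ℕ, r = max 6 ⌈27 / d⌉₊ := ⟨_, rfl⟩
  have hr6 : 6 ≤ r := by
    rw [hr]
    exact le_max_left _ _
  have hr0 : (0 : ℝ) < r := by
    have : 0 < r := by omega
    exact_mod_cast this
  have hrd : 27 / (r : ℝ) ≤ d := by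
    rw [div_le_iff₀ hr0]
    have h1 : 27 / d ≤ (r : ℝ) := by
      refine (Nat.le_ceil _).trans ?_
      have h2 : ⌈27 / d⌉₊ ≤ r := by
        rw [hr]
        exact le_max_right _ _
      exact_mod_cast h2
    rw [div_le_iff₀ hd] at h1
    linarith
  refine ⟨3 / r, by positivity, 4 * (r - 2) + 1, by omega, r * r, 1 / r, by positivity, ?_⟩
  intro G _ _ hG
  obtain ⟨q, m, w, p, F, hq, hm, hw1, hw, hmp, hc, hI, hA, hst, ha⟩ := lin_chain hr6 hG
  obtain ⟨n, hn⟩ : ∃ n : ℕ, n = Nat.card G := ⟨_, rfl⟩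
  obtain ⟨a, haa⟩ : ∃ a : ℕ, a = ∑ i ∈ Finset.range (r - 2), (p + ((r - 2) - 1 - i) * w) * w :=
    ⟨_, rfl⟩
  have hprod : ∏ i ∈ Finset.range (r - 2), Nat.card (F.A i) = q ^ a := by
    rw [haa, ← Finset.prod_pow_eq_pow_sum]
    exact Finset.prod_congr rfl fun i hi => hA i (Finset.mem_range.1 hi)
  have hprod' : ∏ i ∈ Finset.range (r - 2), (Nat.card (F.A i) : ℝ) = (q : ℝ) ^ a := by
    rw [← Nat.cast_prod, hprod, Nat.cast_pow]
  have hN : q ^ a ≤ Nat.card G := by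
    rw [← hprod]
    exact prod_card_le F hI
  rw [← haa] at ha
  obtain ⟨h1, h2, h3⟩ := lin_real hr6 hrd hq hm hw hc hN ha
  have hq0 : (0 : ℝ) < q := by
    have : 0 < q := by omega
    exact_mod_cast this
  have hq1 : (1 : ℝ) ≤ q := by
    have : 1 ≤ q := by omega
    exact_mod_cast this
  have hn1 : (1 : ℝ) ≤ (Nat.card G : ℝ) := by
    have : 1 ≤ Nat.card G := Nat.card_pos
    exact_mod_cast this
  have hn0 : (0 : ℝ) < (Nat.card G : ℝ) := by linarith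
  have hs : (1 : ℝ) ≤ (Nat.card G : ℝ) ^ d := Real.one_le_rpow hn1 hd.le
  have key := ge_flag F hs (σ := (q : ℝ) ^ (w * w)) (M := (q : ℝ) ^ a * (Nat.card G : ℝ) ^ (-(8 / (r : ℝ))))
    (by
      intro i hi
      rw [hA i hi]
      push_cast
      apply h1
      apply Nat.mul_le_mul_right
      rw [hmp]
      apply Nat.add_le_add_left
      apply Nat.mul_le_mul_right
      omega)
    hI (one_le_pow₀ hq1)
    (by
      intro i hi
      exact_mod_cast hst i hi)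
    (by positivity)
  rw [hprod'] at key
  exact key.mono le_rfl le_rfl h2 h3 (by positivity) le_rfl hs

end MP0775d3.Ge
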