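import Mathlib

/-! Block matrices. -/

set_option linter.unusedSectionVars false
set_option linter.unusedVariables false

namespace MP0775d3.Ge

open Matrix

section
variable {k : Type} [Field k] {ι κ : Type} [Fintype ι] [DecidableEq ι] [Fintype κ] [DecidableEq κ]

/-- The block matrices `1 v; 0 1`. -/
def uu (v : Matrix ι κ k) : Matrix.SpecialLinearGroup (ι ⊕ κ) k :=
  ⟨Matrix.fromBlocks 1 v 0 1, by
    rw [Matrix.det_fromBlocks_zero₂₁, Matrix.det_one, Matrix.det_one, mul_one]⟩

/-- The block matrices `g 0; 0 1`. -/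
def hh : Matrix.SpecialLinearGroup ι k →* Matrix.SpecialLinearGroup (ι ⊕ κ) k where
  toFun g := ⟨Matrix.fromBlocks (g : Matrix ι ι k) 0 0 1, by
    rw [Matrix.det_fromBlocks_zero₂₁, Matrix.det_one, mul_one]
    exact g.2⟩
  map_one' := by
    apply Subtype.ext
    change Matrix.fromBlocks (1 : Matrix ι ι k) 0 0 1 = 1
    exact Matrix.fromBlocks_one
  map_mul' g g' := by
    apply Subtype.ext
    change Matrix.fromBlocks ((g * g' : Matrix.SpecialLinearGroup ι k) : Matrix ι ι k) 0 0 1 =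
      Matrix.fromBlocks (g : Matrix ι ι k) 0 0 1 * Matrix.fromBlocks (g' : Matrix ι ι k) 0 0 1
    rw [Matrix.fromBlocks_multiply, Matrix.SpecialLinearGroup.coe_mul]
    simp

theorem uu_add (v v' : Matrix ι κ k) : uu (v + v') = uu v * uu v' := by
  apply Subtype.ext
  change Matrix.fromBlocks 1 (v + v') 0 1 = Matrix.fromBlocks 1 v 0 1 * Matrix.fromBlocks 1 v' 0 1
  rw [Matrix.fromBlocks_multiply]
  simp only [Matrix.one_mul, Matrix.mul_one, Matrix.zero_mul, Matrix.mul_zero, add_zero, zero_add]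
  rw [add_comm v v']

private theorem linU_coe (g : Matrix.SpecialLinearGroup ι k) (v : Matrix ι κ k) :
    ((hh g * uu v : Matrix.SpecialLinearGroup (ι ⊕ κ) k) : Matrix (ι ⊕ κ) (ι ⊕ κ) k) =
      Matrix.fromBlocks (g : Matrix ι ι k) ((g : Matrix ι ι k) * v) 0 1 := by
  change Matrix.fromBlocks (g : Matrix ι ι k) 0 0 1 * Matrix.fromBlocks 1 v 0 1 = _
  rw [Matrix.fromBlocks_multiply]
  simp only [Matrix.one_mul, Matrix.mul_one, Matrix.zero_mul, Matrix.mul_zero, add_zero, zero_add]

theorem hh_uu (g : Matrix.SpecialLinearGroup ι k) (v : Matrix ι κ k) :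
    hh g * uu v * (hh g)⁻¹ = uu ((g : Matrix ι ι k) * v) := by
  rw [mul_inv_eq_iff_eq_mul]
  apply Subtype.ext
  rw [linU_coe]
  change _ = Matrix.fromBlocks 1 ((g : Matrix ι ι k) * v) 0 1 *
    Matrix.fromBlocks (g : Matrix ι ι k) 0 0 1
  rw [Matrix.fromBlocks_multiply]
  simp only [Matrix.one_mul, Matrix.mul_one, Matrix.zero_mul, Matrix.mul_zero, add_zero, zero_add]

/-- PROOF. Compare the blocks: the lower right block is `1`, so `c = 1` (`κ` is not empty), and then
`g' = 1`, `v = 0`. -/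
theorem uu_hh_scalar [Nonempty κ] {v : Matrix ι κ k} {g : Matrix.SpecialLinearGroup ι k} {c : k}
    (h : ((hh g * uu v : Matrix.SpecialLinearGroup (ι ⊕ κ) k) : Matrix (ι ⊕ κ) (ι ⊕ κ) k) = c • 1) :
    v = 0 ∧ g = 1 := by
  rw [linU_coe] at h
  obtain ⟨j⟩ := ‹Nonempty κ›
  have hc : c = 1 := by
    have h1 := congrFun (congrFun h (Sum.inr j)) (Sum.inr j)
    rw [Matrix.fromBlocks_apply₂₂, Matrix.one_apply_eq, Matrix.smul_apply, Matrix.one_apply_eq,
      smul_eq_mul, mul_one] at h1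
    exact h1.symm
  rw [hc, one_smul, ← Matrix.fromBlocks_one] at h
  obtain ⟨hg, hv, -, -⟩ := Matrix.fromBlocks_inj.1 h
  refine ⟨?_, Subtype.ext hg⟩
  rw [hg, Matrix.one_mul] at hv
  exact hv

/-- Change of the index type. -/
def slRe {ι' : Type} [Fintype ι'] [DecidableEq ι'] (e : ι ≃ ι') :
    Matrix.SpecialLinearGroup ι k →* Matrix.SpecialLinearGroup ι' k where
  toFun g := ⟨(g : Matrix ι ι k).submatrix e.symm e.symm, by
    rw [Matrix.det_submatrix_equiv_self]
    exact g.2⟩
  map_one' := by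
    apply Subtype.ext
    change (1 : Matrix ι ι k).submatrix e.symm e.symm = 1
    exact Matrix.submatrix_one_equiv _
  map_mul' g g' := by
    apply Subtype.ext
    change ((g * g' : Matrix.SpecialLinearGroup ι k) : Matrix ι ι k).submatrix e.symm e.symm =
      (g : Matrix ι ι k).submatrix e.symm e.symm * (g' : Matrix ι ι k).submatrix e.symm e.symm
    rw [Matrix.SpecialLinearGroup.coe_mul, Matrix.submatrix_mul_equiv]

end

end MP0775d3.Ge
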