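import Pool.Agent.Lib.MP_0775d3_lc.Ge.Defs

/-! Monomial representations and characters of finite abelian groups. -/

set_option linter.unusedSectionVars false
set_option linter.unusedVariables false

namespace MP0775d3.Ge

open Matrix MP0775d3.Sl2 MP0775d3.Cf

section
variable {A Z : Type} [Fintype Z] [DecidableEq Z]

/-- A representation by matrices with at most one nonzero entry in each column permutes the
coordinate lines. PROOF. `R a` is invertible, so the entry in the row `σ a z` of column `z` is not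
zero. `R (a * b) = R a * R b` has in column `z` the entry `R a (σ a (σ b z)) (σ b z) * R b (σ b z) z ≠ 0`
in the row `σ a (σ b z)`. -/
theorem mono_act [Group A] (R : A →* Matrix Z Z ℂ)
    (hR : ∀ a z, ∃ z', ∀ y, y ≠ z' → R a y z = 0) : ∃ σ : A → Z → Z, (∀ z, σ 1 z = z) ∧
      (∀ a b z, σ (a * b) z = σ a (σ b z)) ∧ (∀ a z, R a (σ a z) z ≠ 0) ∧
      ∀ a y z, y ≠ σ a z → R a y z = 0 := by
  choose σ hσ using hR
  have hne : ∀ a z, R a (σ a z) z ≠ 0 := by
    intro a z h0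
    have h1 : (R a⁻¹ * R a) z z = 1 := by
      rw [← map_mul, inv_mul_cancel, map_one, Matrix.one_apply_eq]
    rw [Matrix.mul_apply, Finset.sum_eq_zero] at h1
    · exact zero_ne_one h1
    · intro y _
      by_cases hy : y = σ a z
      · rw [hy, h0, mul_zero]
      · rw [hσ a z y hy, mul_zero]
  refine ⟨σ, ?_, ?_, hne, fun a y z h => hσ a z y h⟩
  · intro z
    have h1 := hne 1 z
    rw [map_one] at h1
    by_contra h2
    exact h1 (Matrix.one_apply_ne h2)
  · intro a b z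
    by_contra h2
    have h1 := hσ (a * b) z (σ a (σ b z)) (fun h => h2 h.symm)
    rw [map_mul, Matrix.mul_apply, Finset.sum_eq_single (σ b z)] at h1
    · exact mul_ne_zero (hne a (σ b z)) (hne b z) h1
    · intro y _ hy
      rw [hσ b z y hy, mul_zero]
    · intro h
      exact absurd (Finset.mem_univ _) h

/-- The idempotent of a character. -/
noncomputable def chId [Group A] [Fintype A] (R : A →* Matrix Z Z ℂ) (φ : A →* ℂˣ) :
    Matrix Z Z ℂ :=
  ((Nat.card A : ℂ)⁻¹) • ∑ a : A, ((φ a⁻¹ : ℂˣ) : ℂ) • R a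

/-- PROOF. Substitution in the sum. -/
theorem mul_chId [CommGroup A] [Fintype A] (R : A →* Matrix Z Z ℂ) (φ : A →* ℂˣ) (a : A) :
    R a * chId R φ = ((φ a : ℂˣ) : ℂ) • chId R φ := by
  unfold chId
  rw [Matrix.mul_smul, Matrix.mul_sum, smul_comm]
  congr 1
  rw [Finset.smul_sum]
  refine Eq.trans (Finset.sum_congr rfl fun b _ => ?_) (Equiv.sum_comp (Equiv.mulLeft a)
    (fun b => ((φ a : ℂˣ) : ℂ) • ((φ b⁻¹ : ℂˣ) : ℂ) • R b))
  have h1 : (Equiv.mulLeft a) b = a * b := rfl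
  rw [h1, Matrix.mul_smul, ← map_mul, smul_smul]
  congr 1
  have h2 : φ b⁻¹ = φ a * φ (a * b)⁻¹ := by
    rw [← map_mul, _root_.mul_inv_rev, mul_comm a, inv_mul_cancel_right]
  rw [h2, Units.val_mul]

theorem chId_mul [CommGroup A] [Fintype A] (R : A →* Matrix Z Z ℂ) (φ : A →* ℂˣ) (a : A) :
    chId R φ * R a = ((φ a : ℂˣ) : ℂ) • chId R φ := by
  rw [← mul_chId]
  unfold chId
  rw [Matrix.smul_mul, Matrix.mul_smul, Matrix.sum_mul, Matrix.mul_sum]
  congr 1
  refine Finset.sum_congr rfl fun b _ => ?_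
  rw [Matrix.smul_mul, Matrix.mul_smul, ← map_mul, ← map_mul, mul_comm]

/-- PROOF. `mul_chId`. -/
theorem chId_mul_self [CommGroup A] [Fintype A] (R : A →* Matrix Z Z ℂ) (φ : A →* ℂˣ) :
    chId R φ * chId R φ = chId R φ := by
  have h1 : ∀ M : Matrix Z Z ℂ, (∀ a, R a * M = ((φ a : ℂˣ) : ℂ) • M) → chId R φ * M = M := by
    intro M hM
    unfold chId
    rw [Matrix.smul_mul, Matrix.sum_mul]
    have h2 : ∀ a : A, (((φ a⁻¹ : ℂˣ) : ℂ) • R a) * M = M := by
      intro a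
      rw [Matrix.smul_mul, hM, smul_smul, ← Units.val_mul, ← map_mul, inv_mul_cancel, map_one,
        Units.val_one, one_smul]
    rw [Finset.sum_congr rfl fun a _ => h2 a, Finset.sum_const, Finset.card_univ,
      Nat.card_eq_fintype_card, ← Nat.cast_smul_eq_nsmul ℂ, smul_smul, inv_mul_cancel₀, one_smul]
    exact Nat.cast_ne_zero.mpr Fintype.card_ne_zero
  exact h1 _ (mul_chId R φ)

/-- PROOF. `φ a • (E φ * E ψ) = R a * E φ * E ψ = E φ * R a * E ψ = ψ a • ..` with `φ a ≠ ψ a`. -/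
theorem chId_mul_ne [CommGroup A] [Fintype A] (R : A →* Matrix Z Z ℂ) {φ ψ : A →* ℂˣ}
    (h : φ ≠ ψ) : chId R φ * chId R ψ = 0 := by
  obtain ⟨a, ha⟩ : ∃ a, φ a ≠ ψ a := by
    by_contra hc
    push Not at hc
    exact h (MonoidHom.ext hc)
  have h1 : (((φ a : ℂˣ) : ℂ) - ((ψ a : ℂˣ) : ℂ)) • (chId R φ * chId R ψ) = 0 := by
    rw [sub_smul, ← Matrix.smul_mul, ← chId_mul, ← Matrix.mul_smul, ← mul_chId, Matrix.mul_assoc,
      sub_self]
  rcases smul_eq_zero.mp h1 with h2 | h2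
  · exact absurd (Units.ext (sub_eq_zero.mp h2)) ha
  · exact h2

/-- PROOF. Orthogonality: `∑ φ, φ a⁻¹ = |A|` for `a = 1` and `0` otherwise, because some character has
`φ a ≠ 1` (`CommGroup.exists_apply_ne_one_of_hasEnoughRootsOfUnity`) and the number of the characters
is `|A|` (`CommGroup.card_monoidHom_of_hasEnoughRootsOfUnity`). -/
theorem sum_chId [CommGroup A] [Fintype A] [Fintype (A →* ℂˣ)] (R : A →* Matrix Z Z ℂ) :
    ∑ φ : A →* ℂˣ, chId R φ = 1 := by
  classical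
  have hA0 : ((Nat.card A : ℕ) : ℂ) ≠ 0 := by
    rw [Nat.card_eq_fintype_card]
    exact Nat.cast_ne_zero.mpr Fintype.card_ne_zero
  have : NeZero ((Monoid.exponent A : ℕ) : ℂ) :=
    ⟨Nat.cast_ne_zero.mpr Monoid.exponent_ne_zero_of_finite⟩
  have hsum : ∀ a : A, ∑ φ : A →* ℂˣ, ((φ a⁻¹ : ℂˣ) : ℂ) = if a = 1 then (Nat.card A : ℂ) else 0 := by
    intro a
    by_cases ha : a = 1
    · rw [if_pos ha, ha]
      have h1 : ∀ φ : A →* ℂˣ, ((φ (1 : A)⁻¹ : ℂˣ) : ℂ) = 1 := by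
        intro φ
        rw [inv_one, map_one, Units.val_one]
      rw [Finset.sum_congr rfl fun φ _ => h1 φ, Finset.sum_const, Finset.card_univ,
        ← Nat.card_eq_fintype_card, CommGroup.card_monoidHom_of_hasEnoughRootsOfUnity A ℂ,
        nsmul_eq_mul, mul_one]
    · rw [if_neg ha]
      have ha' : a⁻¹ ≠ 1 := fun h => ha (inv_eq_one.mp h)
      obtain ⟨ψ, hψ⟩ := CommGroup.exists_apply_ne_one_of_hasEnoughRootsOfUnity A ℂ ha'
      have h1 : ∑ φ : A →* ℂˣ, ((φ a⁻¹ : ℂˣ) : ℂ) =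
          ((ψ a⁻¹ : ℂˣ) : ℂ) * ∑ φ : A →* ℂˣ, ((φ a⁻¹ : ℂˣ) : ℂ) := by
        rw [Finset.mul_sum, ← Equiv.sum_comp (Equiv.mulLeft ψ)]
        refine Finset.sum_congr rfl fun φ _ => ?_
        have h2 : (Equiv.mulLeft ψ) φ = ψ * φ := rfl
        rw [h2, MonoidHom.mul_apply, Units.val_mul]
      have h3 : (((ψ a⁻¹ : ℂˣ) : ℂ) - 1) * ∑ φ : A →* ℂˣ, ((φ a⁻¹ : ℂˣ) : ℂ) = 0 := by
        rw [sub_mul, one_mul, ← h1, sub_self]
      rcases mul_eq_zero.mp h3 with h4 | h4
      · exfalso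
        apply hψ
        apply Units.ext
        rw [Units.val_one]
        exact sub_eq_zero.mp h4
      · exact h4
  unfold chId
  rw [← Finset.smul_sum, Finset.sum_comm]
  have h5 : ∀ a : A, ∑ φ : A →* ℂˣ, ((φ a⁻¹ : ℂˣ) : ℂ) • R a =
      if a = 1 then (Nat.card A : ℂ) • (1 : Matrix Z Z ℂ) else 0 := by
    intro a
    rw [← Finset.sum_smul, hsum a]
    by_cases ha : a = 1
    · rw [if_pos ha, if_pos ha, ha, map_one]
    · rw [if_neg ha, if_neg ha, zero_smul]
  rw [Finset.sum_congr rfl fun a _ => h5 a, Finset.sum_ite_eq' Finset.univ (1 : A),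
    if_pos (Finset.mem_univ _), smul_smul, inv_mul_cancel₀ hA0, one_smul]

end

end MP0775d3.Ge
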