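import Pool.Agent.Lib.MP_0775d3_lc.Ge.Mono

/-! The Fourier transform of a monomial representation of an abelian group. -/

set_option linter.unusedSectionVars false
set_option linter.unusedVariables false

namespace MP0775d3.Ge

open Matrix MP0775d3.Sl2 MP0775d3.Cf

section nf
variable {A Z : Type} [CommGroup A] [Fintype A] [Fintype Z] [DecidableEq Z]
  {R : A →* Matrix Z Z ℂ} {σ : A → Z → Z}

private theorem nf_inv (h1 : ∀ z, σ 1 z = z) (h2 : ∀ a b z, σ (a * b) z = σ a (σ b z)) {a : A}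
    {y z : Z} (h : y = σ a z) : z = σ a⁻¹ y := by
  rw [h, ← h2, inv_mul_cancel, h1]

private theorem nf_inj (h1 : ∀ z, σ 1 z = z) (h2 : ∀ a b z, σ (a * b) z = σ a (σ b z)) {a : A}
    {y z : Z} (h : σ a y = σ a z) : y = z := by
  rw [nf_inv h1 h2 (rfl : σ a y = σ a y), h, ← nf_inv h1 h2 (rfl : σ a z = σ a z)]

/-- The support of the idempotents. -/
private theorem nf_supp (h4 : ∀ a y z, y ≠ σ a z → R a y z = 0) {φ : A →* ℂˣ} {y z : Z}
    (h : chId R φ y z ≠ 0) : ∃ a, y = σ a z := by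
  by_contra hcon
  push Not at hcon
  apply h
  unfold chId
  rw [Matrix.smul_apply, Matrix.sum_apply]
  rw [Finset.sum_eq_zero, smul_zero]
  intro a _
  rw [Matrix.smul_apply, h4 a y z (hcon a), smul_zero]

/-- Proportional columns. -/
private theorem nf_col (h3 : ∀ a z, R a (σ a z) z ≠ 0) (h4 : ∀ a y z, y ≠ σ a z → R a y z = 0)
    (φ : A →* ℂˣ) (a : A) (z : Z) (y : Z) :
    chId R φ y (σ a z) * R a (σ a z) z = ((φ a : ℂˣ) : ℂ) * chId R φ y z := by
  have h := congrFun (congrFun (chId_mul R φ a) y) z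
  rw [Matrix.mul_apply, Matrix.smul_apply, smul_eq_mul] at h
  rw [← h, Finset.sum_eq_single (σ a z)]
  · intro x _ hx
    rw [h4 a x z hx, mul_zero]
  · intro hx
    exact absurd (Finset.mem_univ _) hx

/-- Eigenvectors. -/
private theorem nf_eig (h1 : ∀ z, σ 1 z = z) (h2 : ∀ a b z, σ (a * b) z = σ a (σ b z))
    (h4 : ∀ a y z, y ≠ σ a z → R a y z = 0) {φ : A →* ℂˣ} {v : Z → ℂ}
    (hv : ∀ a y, ∑ x, R a y x * v x = ((φ a : ℂˣ) : ℂ) * v y) (a : A) (z : Z) :
    R a (σ a z) z * v z = ((φ a : ℂˣ) : ℂ) * v (σ a z) := by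
  rw [← hv, Finset.sum_eq_single z]
  · intro x _ hx
    rw [h4 a (σ a z) x fun h => hx (nf_inj h1 h2 h).symm, zero_mul]
  · intro hx
    exact absurd (Finset.mem_univ _) hx

private theorem nf_colv (R : A →* Matrix Z Z ℂ) (φ : A →* ℂˣ) (z : Z) (a : A) (y : Z) :
    ∑ x, R a y x * chId R φ x z = ((φ a : ℂˣ) : ℂ) * chId R φ y z := by
  have h := congrFun (congrFun (mul_chId R φ a) y) z
  rwa [Matrix.mul_apply, Matrix.smul_apply, smul_eq_mul] at h

/-- Two eigenvectors are proportional on an orbit. -/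
private theorem nf_prop (h1 : ∀ z, σ 1 z = z) (h2 : ∀ a b z, σ (a * b) z = σ a (σ b z))
    (h4 : ∀ a y z, y ≠ σ a z → R a y z = 0) {φ : A →* ℂˣ} {v w : Z → ℂ}
    (hv : ∀ a y, ∑ x, R a y x * v x = ((φ a : ℂˣ) : ℂ) * v y)
    (hw : ∀ a y, ∑ x, R a y x * w x = ((φ a : ℂˣ) : ℂ) * w y) (a : A) (z : Z) :
    v (σ a z) * w z = v z * w (σ a z) := by
  have e1 := nf_eig h1 h2 h4 hv a z
  have e2 := nf_eig h1 h2 h4 hw a z
  have h0 : ((φ a : ℂˣ) : ℂ) ≠ 0 := Units.ne_zero _
  apply mul_left_cancel₀ h0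
  rw [← mul_assoc, ← e1, mul_left_comm, ← e2]
  ring

/-- The idempotent fixes its eigenvectors. -/
private theorem nf_fix {φ : A →* ℂˣ} {v : Z → ℂ}
    (hv : ∀ a y, ∑ x, R a y x * v x = ((φ a : ℂˣ) : ℂ) * v y) (y : Z) :
    ∑ x, chId R φ y x * v x = v y := by
  unfold chId
  have h5 : ∀ x, (((Nat.card A : ℂ)⁻¹) • ∑ a : A, ((φ a⁻¹ : ℂˣ) : ℂ) • R a) y x * v x =
      ∑ a : A, (Nat.card A : ℂ)⁻¹ * ((φ a⁻¹ : ℂˣ) : ℂ) * (R a y x * v x) := by
    intro x
    rw [Matrix.smul_apply, Matrix.sum_apply, smul_eq_mul, Finset.mul_sum, Finset.sum_mul]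
    refine Finset.sum_congr rfl fun a _ => ?_
    rw [Matrix.smul_apply, smul_eq_mul]
    ring
  rw [Finset.sum_congr rfl fun x _ => h5 x, Finset.sum_comm]
  have h6 : ∀ a : A, ∑ x, (Nat.card A : ℂ)⁻¹ * ((φ a⁻¹ : ℂˣ) : ℂ) * (R a y x * v x) =
      (Nat.card A : ℂ)⁻¹ * v y := by
    intro a
    rw [← Finset.mul_sum, hv, map_inv, mul_assoc, ← mul_assoc ((((φ a)⁻¹ : ℂˣ)) : ℂ),
      ← Units.val_mul, inv_mul_cancel, Units.val_one, one_mul]
  rw [Finset.sum_congr rfl fun a _ => h6 a, Finset.sum_const, Finset.card_univ, nsmul_eq_mul,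
    Nat.card_eq_fintype_card, ← mul_assoc, mul_inv_cancel₀, one_mul]
  exact Nat.cast_ne_zero.2 Fintype.card_ne_zero

/-- If the diagonal entry is zero, eigenvectors vanish there. -/
private theorem nf_zero (h1 : ∀ z, σ 1 z = z) (h2 : ∀ a b z, σ (a * b) z = σ a (σ b z))
    (h3 : ∀ a z, R a (σ a z) z ≠ 0) (h4 : ∀ a y z, y ≠ σ a z → R a y z = 0) {φ : A →* ℂˣ}
    {v : Z → ℂ} (hv : ∀ a y, ∑ x, R a y x * v x = ((φ a : ℂˣ) : ℂ) * v y) {z : Z}
    (hz : chId R φ z z = 0) : v z = 0 := by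
  rw [← nf_fix hv z]
  refine Finset.sum_eq_zero fun x _ => ?_
  by_cases hx : chId R φ z x = 0
  · rw [hx, zero_mul]
  · obtain ⟨a, ha⟩ := nf_supp h4 hx
    have h5 := nf_inv h1 h2 ha
    have h6 := nf_col h3 h4 φ a⁻¹ z z
    rw [← h5, hz, mul_zero, mul_eq_zero] at h6
    rcases h6 with h6 | h6
    · exact absurd h6 hx
    · have h7 := h3 a⁻¹ z
      rw [← h5] at h7
      exact absurd h6 h7

end nf

/-- An abelian group `A` acts by monomial matrices, which respect the labels `lab`. There is a new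
basis of eigenvectors, with block diagonal matrices `M`, `M'` of the base change (blocks = orbits of
`A` on the coordinate lines), and every monomial `Q` that normalizes `A` and fixes the character of a
new basis vector maps it to a multiple of a new basis vector with the same character.
PROOF. `σ` from `mono_act`; orbits `o z = {y | ∃ a, y = σ a z}` (a set; `o y = o z` iff `y` is in the
orbit), a representative `rep` of every orbit. Put `E φ = chId R φ`, `c φ z = (E φ) (rep z) z`,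
`w φ z₀ = ` the column `z₀` of `E φ` (for `z₀ = rep z₀`). If `z = σ a z₀` then column `z` of `E φ` is a
nonzero multiple of column `z₀` (`E φ * R a = φ a • E φ` and column `z₀` of `R a` is a multiple of
`e_z`). An eigenvector `v` (`R a *ᵥ v = φ a • v` for all `a`) supported in the orbit of `z₀` is
determined by `v z₀` (compare the entries at `σ a z₀`). So if `w φ z₀ ≠ 0`, then `w φ z₀ z₀ ≠ 0` and
every such `v` is a multiple of `w φ z₀`.
`Z' = {(z₀, φ) | rep z₀ = z₀ ∧ E φ z₀ z₀ ≠ 0}`, `M z (z₀, φ) = E φ z z₀`,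
`M' (z₀, φ) z = if z ∈ o z₀ then E φ z₀ z / E φ z₀ z₀ else 0`; then column `z` of `E φ` (for `z` in the
orbit of `z₀`) is `M' (z₀, φ) z` times column `z₀`. `M * M' = ∑ φ, E φ = 1`. `M' * M = 1`:
`∑ z, E φ' z₀ z * E φ z z₀ = (E φ' * E φ) z₀ z₀`. Blocks: rows of an orbit `≤ |A|`, columns of an orbit
`≤` the number of characters `= |A|`. `lab' (z₀, φ) = lab z₀`; `lab` is constant on orbits.
Last part: `v = Q *ᵥ (column z' of M)`. It is an eigenvector with the character `χ z'`:
`R a * Q * M = Q * R (e a) * M` on this column. Its support is in one orbit: if `z₁`, `z₂ = σ b z₁` are in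
the orbit of `z'` and `e a = b` then column `z₁` of `R a * Q = Q * R b` shows that the image of `z₂` is
in the orbit of the image of `z₁`. If `v = 0` take `c = 0`. -/
theorem node_fourier {A Z P : Type} [CommGroup A] [Finite A] [Fintype Z] [DecidableEq Z]
    (lab : Z → P) (R : A →* Matrix Z Z ℂ)
    (hR : ∀ a z, ∃ z', lab z' = lab z ∧ ∀ y, y ≠ z' → R a y z = 0) {s : ℝ}
    (hs : (Nat.card A : ℝ) ≤ s) :
    ∃ (Z' : Type) (_ : Fintype Z') (_ : DecidableEq Z') (M : Matrix Z Z' ℂ) (M' : Matrix Z' Z ℂ)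
      (χ : Z' → A →* ℂˣ) (lab' : Z' → P), M * M' = 1 ∧ M' * M = 1 ∧ Blk s M ∧ Blk s M' ∧
      (∀ z z', M z z' ≠ 0 → lab z = lab' z') ∧
      (∀ a, R a * M = M * Matrix.diagonal fun z' => ((χ z' a : ℂˣ) : ℂ)) ∧
      ∀ (Q : Matrix Z Z ℂ) (z' : Z') (e : A ≃ A),
        (∀ z, lab z = lab' z' → ∃ w, lab w = lab z ∧ ∀ y, y ≠ w → Q y z = 0) →
        (∀ a, χ z' (e a) = χ z' a) →
        (∀ a y z, lab z = lab' z' → (R a * Q) y z = (Q * R (e a)) y z) →
        ∃ (z'' : Z') (c : ℂ), lab' z'' = lab' z' ∧ χ z'' = χ z' ∧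
          ∀ y, (Q * M) y z' = c * M y z'' := by
  classical
  have iA : Fintype A := Fintype.ofFinite A
  have hcA : Nat.card (A →* ℂˣ) = Nat.card A := CommGroup.card_monoidHom_of_hasEnoughRootsOfUnity A ℂ
  have hfC : Finite (A →* ℂˣ) := Nat.finite_of_card_ne_zero (by rw [hcA]; exact Nat.card_pos.ne')
  have iC : Fintype (A →* ℂˣ) := Fintype.ofFinite _
  obtain ⟨σ, h1, h2, h3, h4⟩ := mono_act R fun a z => by
    obtain ⟨z', -, h⟩ := hR a z
    exact ⟨z', h⟩
  have hlab : ∀ a z, lab (σ a z) = lab z := by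
    intro a z
    obtain ⟨z', h5, h6⟩ := hR a z
    have h7 : σ a z = z' := by
      by_contra hne
      exact h3 a z (h6 _ hne)
    rw [h7, h5]
  -- representatives of the orbits
  obtain ⟨rep, r1, r2⟩ : ∃ rep : Z → Z, (∀ z, ∃ a, rep z = σ a z) ∧
      ∀ y z, (∃ a, y = σ a z) → rep y = rep z := by
    let S : Setoid Z :=
      { r := fun y z => ∃ a, y = σ a z
        iseqv :=
          { refl := fun z => ⟨1, (h1 z).symm⟩
            symm := fun {y z} h => by
              obtain ⟨a, ha⟩ := h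
              exact ⟨a⁻¹, nf_inv h1 h2 ha⟩
            trans := fun {x y z} h h' => by
              obtain ⟨a, ha⟩ := h
              obtain ⟨b, hb⟩ := h'
              exact ⟨a * b, by rw [h2, ← hb, ha]⟩ } }
    refine ⟨fun z => (Quotient.mk S z).out, fun z => ?_, fun y z h => ?_⟩
    · exact Quotient.exact (Quotient.out_eq (Quotient.mk S z))
    · have h5 : Quotient.mk S y = Quotient.mk S z := Quotient.sound h
      change (Quotient.mk S y).out = (Quotient.mk S z).out
      rw [h5]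
  have r3 : ∀ z, rep (rep z) = rep z := fun z => r2 _ _ (r1 z)
  have rE : ∀ (φ : A →* ℂˣ) y z, chId R φ y z ≠ 0 → rep y = rep z :=
    fun φ y z h => r2 _ _ (nf_supp h4 h)
  have r4 : ∀ z, ∃ a, z = σ a (rep z) := by
    intro z
    obtain ⟨a, ha⟩ := r1 z
    exact ⟨a⁻¹, nf_inv h1 h2 ha⟩
  obtain ⟨Z', hZ'⟩ : ∃ Z' : Set (Z × (A →* ℂˣ)),
      Z' = {q | rep q.1 = q.1 ∧ chId R q.2 q.1 q.1 ≠ 0} := ⟨_, rfl⟩
  have hmZ : ∀ q : Z × (A →* ℂˣ), q ∈ Z' ↔ rep q.1 = q.1 ∧ chId R q.2 q.1 q.1 ≠ 0 := by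
    intro q
    rw [hZ']
    rfl
  have iZ : Fintype Z' := Fintype.ofFinite _
  have hzero : ∀ (φ : A →* ℂˣ) z, chId R φ z z = 0 → ∀ y, chId R φ y z = 0 := by
    intro φ z hz y
    by_contra hy
    obtain ⟨a, ha⟩ := nf_supp h4 hy
    have h5 := nf_eig h1 h2 h4 (nf_colv R φ z) a z
    rw [hz, mul_zero, ← ha] at h5
    rcases mul_eq_zero.1 h5.symm with h6 | h6
    · exact Units.ne_zero _ h6
    · exact hy h6
  have hcol : ∀ l : Z, (({q | q.1.1 = l} : Set Z').ncard : ℝ) ≤ s := by
    intro l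
    have h5 : ({q | q.1.1 = l} : Set Z').ncard ≤ (Set.univ : Set (A →* ℂˣ)).ncard :=
      Set.ncard_le_ncard_of_injOn (fun q => q.1.2) (fun q _ => Set.mem_univ _)
        (fun q hq q' hq' h => Subtype.ext (Prod.ext
          ((show q.1.1 = l from hq).trans (show q'.1.1 = l from hq').symm) h)) (Set.toFinite _)
    rw [Set.ncard_univ, hcA] at h5
    exact (Nat.cast_le.2 h5).trans hs
  refine ⟨Z', iZ, inferInstance, Matrix.of fun z q => chId R q.1.2 z q.1.1,
    Matrix.of fun q z => chId R q.1.2 q.1.1 z / chId R q.1.2 q.1.1 q.1.1,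
    fun q => q.1.2, fun q => lab q.1.1, ?_, ?_, ?_, ?_, ?_, ?_, ?_⟩
  · -- `M * M' = 1`
    ext y z
    rw [Matrix.mul_apply]
    simp only [Matrix.of_apply]
    have h5 : ∑ q : Z', chId R q.1.2 y q.1.1 * (chId R q.1.2 q.1.1 z / chId R q.1.2 q.1.1 q.1.1) =
        ∑ q ∈ Z'.toFinset, chId R q.2 y q.1 * (chId R q.2 q.1 z / chId R q.2 q.1 q.1) := by
      rw [Finset.sum_subtype Z'.toFinset (p := fun q => q ∈ Z') (fun q => Set.mem_toFinset)
        (fun q => chId R q.2 y q.1 * (chId R q.2 q.1 z / chId R q.2 q.1 q.1))]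
    rw [h5]
    have h6 : ∑ q ∈ Z'.toFinset, chId R q.2 y q.1 * (chId R q.2 q.1 z / chId R q.2 q.1 q.1) =
        ∑ q : Z × (A →* ℂˣ), if q.1 = rep z then chId R q.2 y z else 0 := by
      rw [← Finset.sum_subset (Finset.subset_univ Z'.toFinset)]
      · refine Finset.sum_congr rfl fun q hq => ?_
        rw [Set.mem_toFinset, hmZ] at hq
        split_ifs with h7
        · obtain ⟨a, ha⟩ := r4 z
          have h8 := nf_col h3 h4 q.2 a (rep z) y
          have h9 := nf_col h3 h4 q.2 a (rep z) (rep z)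
          rw [← ha] at h8 h9
          rw [h7] at hq ⊢
          have h10 : R a z (rep z) ≠ 0 := by
            have h11 := h3 a (rep z)
            rwa [← ha] at h11
          have h12 := hq.2
          rw [mul_div_assoc', div_eq_iff h12]
          apply mul_right_cancel₀ h10
          calc chId R q.2 y (rep z) * chId R q.2 (rep z) z * R a z (rep z)
              = chId R q.2 y (rep z) * (chId R q.2 (rep z) z * R a z (rep z)) := by ring
            _ = (((q.2 a : ℂˣ) : ℂ) * chId R q.2 y (rep z)) * chId R q.2 (rep z) (rep z) := by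
              rw [h9]; ring
            _ = chId R q.2 y z * chId R q.2 (rep z) (rep z) * R a z (rep z) := by
              rw [← h8]; ring
        · have h8 : chId R q.2 q.1 z = 0 := by
            by_contra h9
            exact h7 (hq.1.symm.trans (rE _ _ _ h9))
          rw [h8, zero_div, mul_zero]
      · intro q _ hq
        rw [Set.mem_toFinset, hmZ] at hq
        split_ifs with h7
        · have h8 : chId R q.2 q.1 q.1 = 0 := by
            by_contra h9
            exact hq ⟨by rw [h7, r3], h9⟩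
          have h9 := hzero q.2 q.1 h8 y
          obtain ⟨a, ha⟩ := r4 z
          have h10 := nf_col h3 h4 q.2 a (rep z) y
          rw [← h7, h9, mul_zero, h7, ← ha] at h10
          rcases mul_eq_zero.1 h10 with h11 | h11
          · exact h11
          · have h12 := h3 a (rep z)
            rw [← ha] at h12
            exact absurd h11 h12
        · rfl
    rw [h6, Fintype.sum_prod_type, Finset.sum_eq_single (rep z)]
    · simp only [if_true]
      rw [← Matrix.sum_apply, sum_chId]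
    · intro x _ hx
      exact Finset.sum_eq_zero fun φ _ => if_neg hx
    · intro h
      exact absurd (Finset.mem_univ _) h
  · -- `M' * M = 1`
    ext q q'
    rw [Matrix.mul_apply]
    simp only [Matrix.of_apply]
    have hq := (hmZ q.1).1 q.2
    have hq' := (hmZ q'.1).1 q'.2
    have h5 : ∑ z, chId R q.1.2 q.1.1 z / chId R q.1.2 q.1.1 q.1.1 * chId R q'.1.2 z q'.1.1 =
        (chId R q.1.2 * chId R q'.1.2) q.1.1 q'.1.1 / chId R q.1.2 q.1.1 q.1.1 := by
      rw [Matrix.mul_apply, Finset.sum_div]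
      refine Finset.sum_congr rfl fun z _ => ?_
      ring
    rw [h5]
    by_cases h6 : q.1.2 = q'.1.2
    · rw [← h6, chId_mul_self]
      by_cases h7 : q.1.1 = q'.1.1
      · have h8 : q = q' := Subtype.ext (Prod.ext h7 h6)
        rw [h8, Matrix.one_apply_eq, div_self hq'.2]
      · have h8 : chId R q.1.2 q.1.1 q'.1.1 = 0 := by
          by_contra h9
          exact h7 (hq.1.symm.trans ((rE _ _ _ h9).trans hq'.1))
        rw [h8, zero_div, Matrix.one_apply_ne]
        rintro rfl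
        exact h7 rfl
    · rw [chId_mul_ne R h6, Matrix.zero_apply, zero_div, Matrix.one_apply_ne]
      rintro rfl
      exact h6 rfl
  · refine ⟨Z, rep, fun q => q.1.1, fun l => ?_, fun l => ?_, fun z q h => ?_⟩
    · have h5 : ({z | rep z = l} : Set Z) ⊆ (fun a => σ a l) '' (Set.univ : Set A) := by
        intro z hz
        obtain ⟨a, ha⟩ := r4 z
        rw [show rep z = l from hz] at ha
        exact ⟨a, Set.mem_univ _, ha.symm⟩
      have h6 := (Set.ncard_le_ncard h5 (Set.toFinite _)).trans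
        (Set.ncard_image_le (Set.toFinite _))
      rw [Set.ncard_univ] at h6
      exact (Nat.cast_le.2 h6).trans hs
    · exact hcol l
    · exact (rE _ _ _ h).trans ((hmZ q.1).1 q.2).1
  · refine ⟨Z, fun q => q.1.1, rep, fun l => ?_, fun l => ?_, fun q z h => ?_⟩
    · exact hcol l
    · have h5 : ({z | rep z = l} : Set Z) ⊆ (fun a => σ a l) '' (Set.univ : Set A) := by
        intro z hz
        obtain ⟨a, ha⟩ := r4 z
        rw [show rep z = l from hz] at ha
        exact ⟨a, Set.mem_univ _, ha.symm⟩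
      have h6 := (Set.ncard_le_ncard h5 (Set.toFinite _)).trans
        (Set.ncard_image_le (Set.toFinite _))
      rw [Set.ncard_univ] at h6
      exact (Nat.cast_le.2 h6).trans hs
    · have h5 : chId R q.1.2 q.1.1 z ≠ 0 := by
        intro h6
        apply h
        change chId R q.1.2 q.1.1 z / chId R q.1.2 q.1.1 q.1.1 = 0
        rw [h6, zero_div]
      exact ((hmZ q.1).1 q.2).1.symm.trans (rE _ _ _ h5)
  · intro z q h
    have h5 : chId R q.1.2 z q.1.1 ≠ 0 := h
    obtain ⟨a, ha⟩ := nf_supp h4 h5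
    rw [ha, hlab]
  · intro a
    ext y q
    rw [Matrix.mul_diagonal, Matrix.mul_apply]
    simp only [Matrix.of_apply]
    rw [nf_colv R q.1.2 q.1.1 a y, mul_comm]
  · intro Q q e hQ he hc
    obtain ⟨v, hv⟩ : ∃ v : Z → ℂ, ∀ y, v y = (Q * chId R q.1.2) y q.1.1 := ⟨_, fun y => rfl⟩
    have hvs : ∀ y, v y = ∑ x, Q y x * chId R q.1.2 x q.1.1 := by
      intro y
      rw [hv, Matrix.mul_apply]
    have hgoal : ∀ y, (Q * Matrix.of fun z (q : Z') => chId R q.1.2 z q.1.1) y q = v y := by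
      intro y
      rw [hvs, Matrix.mul_apply]
      rfl
    have hlabE : ∀ x, chId R q.1.2 x q.1.1 ≠ 0 → lab x = lab q.1.1 := by
      intro x hx
      obtain ⟨a, ha⟩ := nf_supp h4 hx
      rw [ha, hlab]
    have hve : ∀ a y, ∑ x, R a y x * v x = ((q.1.2 a : ℂˣ) : ℂ) * v y := by
      intro a y
      have h5 : ∑ x, R a y x * v x = ((R a * Q) * chId R q.1.2) y q.1.1 := by
        rw [Matrix.mul_assoc, Matrix.mul_apply]
        exact Finset.sum_congr rfl fun x _ => by rw [hv]
      have h6 : ((R a * Q) * chId R q.1.2) y q.1.1 =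
          ((Q * R (e a)) * chId R q.1.2) y q.1.1 := by
        rw [Matrix.mul_apply, Matrix.mul_apply]
        refine Finset.sum_congr rfl fun x _ => ?_
        by_cases hx : chId R q.1.2 x q.1.1 = 0
        · rw [hx, mul_zero, mul_zero]
        · rw [hc a y x (hlabE x hx)]
      rw [h5, h6, Matrix.mul_assoc, mul_chId, Matrix.mul_smul, Matrix.smul_apply, smul_eq_mul,
        ← hv, he a]
    have hvx : ∀ y, v y ≠ 0 → ∃ x b, Q y x ≠ 0 ∧ x = σ b q.1.1 := by
      intro y hy
      rw [hvs] at hy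
      obtain ⟨x, -, hx⟩ := Finset.exists_ne_zero_of_sum_ne_zero hy
      obtain ⟨b, hb⟩ := nf_supp h4 (right_ne_zero_of_mul hx)
      exact ⟨x, b, left_ne_zero_of_mul hx, hb⟩
    have hsup : ∀ y y', v y ≠ 0 → v y' ≠ 0 → rep y = rep y' := by
      intro y y' hy hy'
      obtain ⟨x, b, hx, hxb⟩ := hvx y hy
      obtain ⟨x', b', hx', hxb'⟩ := hvx y' hy'
      have hxx : x = σ (b * b'⁻¹) x' := by
        rw [h2, ← nf_inv h1 h2 hxb', hxb]
      have hlx : lab x' = lab q.1.1 := by rw [hxb', hlab]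
      have h5 := hc (e.symm (b * b'⁻¹)) y x' hlx
      rw [Equiv.apply_symm_apply] at h5
      have h6 : (Q * R (b * b'⁻¹)) y x' ≠ 0 := by
        rw [Matrix.mul_apply, Finset.sum_eq_single x]
        · refine mul_ne_zero hx ?_
          have h7 := h3 (b * b'⁻¹) x'
          rwa [← hxx] at h7
        · intro u _ hu
          rw [hxx] at hu
          rw [h4 _ u x' hu, mul_zero]
        · intro h
          exact absurd (Finset.mem_univ _) h
      rw [← h5, Matrix.mul_apply] at h6
      obtain ⟨w, -, hw⟩ := Finset.exists_ne_zero_of_sum_ne_zero h6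
      obtain ⟨w₀, -, hw₀⟩ := hQ x' hlx
      have h7 : w = w₀ := by
        by_contra h8
        exact right_ne_zero_of_mul hw (hw₀ w h8)
      have h8 : y' = w₀ := by
        by_contra h9
        exact hx' (hw₀ y' h9)
      have h9 : y = σ (e.symm (b * b'⁻¹)) w := by
        by_contra h10
        exact left_ne_zero_of_mul hw (h4 _ _ _ h10)
      exact r2 y y' ⟨_, by rw [h8, ← h7]; exact h9⟩
    by_cases hv0 : ∀ y, v y = 0
    · refine ⟨q, 0, rfl, rfl, fun y => ?_⟩
      rw [hgoal, hv0, zero_mul]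
    · push Not at hv0
      obtain ⟨y₀, hy₀⟩ := hv0
      obtain ⟨a₀, ha₀⟩ := r4 y₀
      have hz1 : v (rep y₀) ≠ 0 := by
        intro h5
        have h6 := nf_eig h1 h2 h4 hve a₀ (rep y₀)
        rw [h5, mul_zero, ← ha₀] at h6
        rcases mul_eq_zero.1 h6.symm with h7 | h7
        · exact Units.ne_zero _ h7
        · exact hy₀ h7
      have hE : chId R q.1.2 (rep y₀) (rep y₀) ≠ 0 := fun h5 => hz1 (nf_zero h1 h2 h3 h4 hve h5)
      refine ⟨⟨(rep y₀, q.1.2), (hmZ _).2 ⟨r3 y₀, hE⟩⟩,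
        v (rep y₀) / chId R q.1.2 (rep y₀) (rep y₀), ?_, rfl, fun y => ?_⟩
      · change lab (rep y₀) = lab q.1.1
        have h5 : lab y₀ = lab (rep y₀) := by
          have h6 := hlab a₀ (rep y₀)
          rwa [← ha₀] at h6
        rw [← h5]
        obtain ⟨x, b, hx, hxb⟩ := hvx y₀ hy₀
        have hlx : lab x = lab q.1.1 := by rw [hxb, hlab]
        obtain ⟨w₀, hw, hw₀⟩ := hQ x hlx
        have h8 : y₀ = w₀ := by
          by_contra h9
          exact hx (hw₀ y₀ h9)
        rw [h8, hw, hlx]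
      · rw [hgoal]
        change v y = v (rep y₀) / chId R q.1.2 (rep y₀) (rep y₀) * chId R q.1.2 y (rep y₀)
        by_cases hy : ∃ a, y = σ a (rep y₀)
        · obtain ⟨a, rfl⟩ := hy
          have h5 := nf_prop h1 h2 h4 hve (nf_colv R q.1.2 (rep y₀)) a (rep y₀)
          rw [div_mul_eq_mul_div, ← h5, mul_div_assoc, div_self hE, mul_one]
        · have h5 : chId R q.1.2 y (rep y₀) = 0 := by
            by_contra h6
            exact hy (nf_supp h4 h6)
          have h6 : v y = 0 := by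
            by_contra h7
            have h8 := hsup y y₀ h7 hy₀
            obtain ⟨a, ha⟩ := r4 y
            rw [h8] at ha
            exact hy ⟨a, ha⟩
          rw [h5, h6, mul_zero]

end MP0775d3.Ge
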