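import Pool.Agent.Lib.MP_0775d3_lc.Ge.MonoF
import Pool.Agent.Lib.MP_0775d3_lc.Ge.Ch

/-! The tree of Fourier transforms: the states. -/

set_option linter.unusedSectionVars false
set_option linter.unusedVariables false

namespace MP0775d3.Ge

open Matrix MP0775d3.Sl2 MP0775d3.Cf

section
variable {S X : Type} [Group S] [Fintype S] [Fintype X] [DecidableEq X] {J : ℕ}

theorem gp_congr (F : Flag S J) {χ χ' : ℕ → S → ℂ} {i : ℕ} (h : ∀ j < i, χ j = χ' j) :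
    gp F χ i = gp F χ' i := by
  induction i with
  | zero => rfl
  | succ i ih =>
    change gp F χ i * F.el i (χ i) = gp F χ' i * F.el i (χ' i)
    rw [ih (fun j hj => h j (by omega)), h i (by omega)]

theorem Fm_congr (F : Flag S J) (T : S →* Matrix X X ℂ) {χ χ' : ℕ → S → ℂ} {i : ℕ}
    (h : ∀ j ≤ i, χ j = χ' j) : Fm F T χ i = Fm F T χ' i := by
  rw [Fm, Fm, gp_congr F (fun j hj => h j hj.le), h i le_rfl]

/-- The state before stage `i` of the tree. -/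
def St (F : Flag S J) (T : S →* Matrix X X ℂ) (s : ℝ) (i : ℕ) : Prop :=
  ∃ (Z : Type) (_ : Fintype Z) (_ : DecidableEq Z) (Φ : Matrix X Z ℂ) (Ψ : Matrix Z X ℂ)
    (path : Z → ℕ → S → ℂ), Φ * Ψ = 1 ∧ Ψ * Φ = 1 ∧
    Bx (Fintype.card X) s (2 * i + 1) Φ ∧ Bx (Fintype.card X) s (2 * i + 1) Ψ ∧
    (∀ z, ∀ j < i, IsCh (F.A j) (path z j)) ∧ (∀ z, ∀ j, i ≤ j → path z j = 0) ∧
    (∀ j < i, ∀ z x, (Fm F T (path z) j * Φ) x z = Φ x z) ∧
    (i < J → ∀ z x, x ∈ F.A i ∨ x ∈ F.H i → ∃ (z' : Z) (c : ℂ), path z' = path z ∧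
      ∀ y, (T (gp F (path z) i * x * (gp F (path z) i)⁻¹) * Φ) y z = c * Φ y z')

/-- PROOF. `Z = X`, `Φ = Ψ = 1`, `path = 0`. -/
theorem st_zero (F : Flag S J) (T : S →* Matrix X X ℂ)
    (hT : ∀ x b, ∃ a, ∀ y, y ≠ a → T x y b = 0) {s : ℝ} (hs : 1 ≤ s) : St F T s 0 := by
  refine ⟨X, inferInstance, inferInstance, 1, 1, fun _ _ => 0, mul_one 1, mul_one 1,
    bx_of_blk (blk_one hs) hs le_rfl le_rfl, bx_of_blk (blk_one hs) hs le_rfl le_rfl,
    fun z j hj => absurd hj (Nat.not_lt_zero j), fun z j _ => rfl,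
    fun j hj => absurd hj (Nat.not_lt_zero j), ?_⟩
  intro _ z x _
  obtain ⟨a, ha⟩ := hT x z
  refine ⟨a, T x a z, rfl, fun y => ?_⟩
  have e : gp F (fun _ => 0) 0 * x * (gp F (fun _ => 0) 0)⁻¹ = x := by
    change 1 * x * 1⁻¹ = x
    rw [one_mul, inv_one, mul_one]
  rw [e, mul_one]
  by_cases hy : y = a
  · rw [hy, Matrix.one_apply_eq, mul_one]
  · rw [ha y hy, Matrix.one_apply_ne hy, mul_zero]

end

end MP0775d3.Ge
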