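import Pool.Agent.Lib.MP_0775d3_lc.Ge.Ch

/-! The two-sided chain of a group. -/

set_option linter.unusedSectionVars false
set_option linter.unusedVariables false

namespace MP0775d3.Ge

open Matrix MP0775d3.Sl2 MP0775d3.Cf

section
variable {G : Type} [Group G]

/-- Extension by zero from the first factor. -/
private noncomputable def ex1 (χ : G → ℂ) : G × G → ℂ :=
  open Classical in fun p => if p.2 = 1 then χ p.1 else 0

/-- Extension by zero from the second factor. -/
private noncomputable def ex2 (χ : G → ℂ) : G × G → ℂ :=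
  open Classical in fun p => if p.1 = 1 then χ p.2 else 0

private def re1 (χ : G × G → ℂ) : G → ℂ := fun x => χ (x, 1)

private def re2 (χ : G × G → ℂ) : G → ℂ := fun y => χ (1, y)

private theorem mem1 {A : Subgroup G} {p : G × G} : p ∈ A.prod ⊥ ↔ p.1 ∈ A ∧ p.2 = 1 := by
  rw [Subgroup.mem_prod, Subgroup.mem_bot]

private theorem mem2 {A : Subgroup G} {p : G × G} :
    p ∈ (⊥ : Subgroup G).prod A ↔ p.1 = 1 ∧ p.2 ∈ A := by
  rw [Subgroup.mem_prod, Subgroup.mem_bot]

private theorem isCh_re1 {A : Subgroup G} {χ : G × G → ℂ} (h : IsCh (A.prod ⊥) χ) :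
    IsCh A (re1 χ) := by
  refine ⟨h.1, fun x hx y hy => ?_, fun x hx => ?_⟩
  · have := h.2.1 (x, 1) (mem1.2 ⟨hx, rfl⟩) (y, 1) (mem1.2 ⟨hy, rfl⟩)
    rw [Prod.mk_mul_mk, one_mul] at this
    exact this
  · exact h.2.2 (x, 1) fun hx' => hx (mem1.1 hx').1

private theorem isCh_re2 {A : Subgroup G} {χ : G × G → ℂ}
    (h : IsCh ((⊥ : Subgroup G).prod A) χ) : IsCh A (re2 χ) := by
  refine ⟨h.1, fun x hx y hy => ?_, fun x hx => ?_⟩
  · have := h.2.1 (1, x) (mem2.2 ⟨rfl, hx⟩) (1, y) (mem2.2 ⟨rfl, hy⟩)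
    rw [Prod.mk_mul_mk, one_mul] at this
    exact this
  · exact h.2.2 (1, x) fun hx' => hx (mem2.1 hx').2

private theorem ex1_re1 {A : Subgroup G} {χ : G × G → ℂ} (h : IsCh (A.prod ⊥) χ) :
    ex1 (re1 χ) = χ := by
  funext p
  obtain ⟨x, y⟩ := p
  simp only [ex1, re1]
  split_ifs with hy
  · rw [hy]
  · exact (h.2.2 (x, y) fun hx' => hy (mem1.1 hx').2).symm

private theorem ex2_re2 {A : Subgroup G} {χ : G × G → ℂ}
    (h : IsCh ((⊥ : Subgroup G).prod A) χ) : ex2 (re2 χ) = χ := by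
  funext p
  obtain ⟨x, y⟩ := p
  simp only [ex2, re2]
  split_ifs with hx
  · rw [hx]
  · exact (h.2.2 (x, y) fun hx' => hx (mem2.1 hx').1).symm

private theorem isCh_ex1 {A : Subgroup G} {χ : G → ℂ} (h : IsCh A χ) :
    IsCh (A.prod ⊥) (ex1 χ) := by
  refine ⟨?_, fun p hp q hq => ?_, fun p hp => ?_⟩
  · simp only [ex1]
    rw [if_pos Prod.snd_one, Prod.fst_one]
    exact h.1
  · rw [mem1] at hp hq
    simp only [ex1]
    rw [if_pos hp.2, if_pos hq.2, if_pos (by rw [Prod.snd_mul, hp.2, hq.2, one_mul]), Prod.fst_mul]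
    exact h.2.1 _ hp.1 _ hq.1
  · rw [mem1] at hp
    simp only [ex1]
    split_ifs with h2
    · exact h.2.2 _ fun h1 => hp ⟨h1, h2⟩
    · rfl

private theorem isCh_ex2 {A : Subgroup G} {χ : G → ℂ} (h : IsCh A χ) :
    IsCh ((⊥ : Subgroup G).prod A) (ex2 χ) := by
  refine ⟨?_, fun p hp q hq => ?_, fun p hp => ?_⟩
  · simp only [ex2]
    rw [if_pos Prod.fst_one, Prod.snd_one]
    exact h.1
  · rw [mem2] at hp hq
    simp only [ex2]
    rw [if_pos hp.1, if_pos hq.1, if_pos (by rw [Prod.fst_mul, hp.1, hq.1, one_mul]), Prod.snd_mul]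
    exact h.2.1 _ hp.2 _ hq.2
  · rw [mem2] at hp
    simp only [ex2]
    split_ifs with h1
    · exact h.2.2 _ fun h2 => hp ⟨h1, h2⟩
    · rfl

private theorem conj_one_iff (a b : G) : a⁻¹ * b * a = 1 ↔ b = 1 := by
  constructor
  · intro h
    have h2 : b = a * (a⁻¹ * b * a) * a⁻¹ := by group
    rw [h2, h]
    group
  · intro h
    rw [h]
    group

private theorem cj_ex1 (x : G × G) (χ : G → ℂ) : cj x (ex1 χ) = ex1 (cj x.1 χ) := by
  funext p
  simp only [cj, ex1, Prod.snd_mul, Prod.fst_mul, Prod.fst_inv, Prod.snd_inv]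
  by_cases h : p.2 = 1
  · rw [if_pos h, if_pos ((conj_one_iff _ _).2 h)]
  · rw [if_neg h, if_neg fun h' => h ((conj_one_iff _ _).1 h')]

private theorem cj_ex2 (x : G × G) (χ : G → ℂ) : cj x (ex2 χ) = ex2 (cj x.2 χ) := by
  funext p
  simp only [cj, ex2, Prod.snd_mul, Prod.fst_mul, Prod.fst_inv, Prod.snd_inv]
  by_cases h : p.1 = 1
  · rw [if_pos h, if_pos ((conj_one_iff _ _).2 h)]
  · rw [if_neg h, if_neg fun h' => h ((conj_one_iff _ _).1 h')]

private theorem cj_one' (χ : G → ℂ) : cj 1 χ = χ := by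
  funext x
  simp only [cj, inv_one, one_mul, mul_one]

/-- The chain in `G × G`. -/
private noncomputable def twoFlag {J : ℕ} (F : Flag G J) : Flag (G × G) (2 * J) where
  A i := if i < J then (F.A i).prod ⊥ else (⊥ : Subgroup G).prod (F.A (i - J))
  H i := if i < J then (F.H i).prod ⊤ else (⊥ : Subgroup G).prod (F.H (i - J))
  std i χ := if i < J then ex1 (F.std i (re1 χ)) else ex2 (F.std (i - J) (re2 χ))
  el i χ := if i < J then (F.el i (re1 χ), 1) else (1, F.el (i - J) (re2 χ))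
  comm i hi x hx y hy := by
    split_ifs at hx hy with h
    · rw [mem1] at hx hy
      refine Prod.ext ?_ ?_
      · rw [Prod.fst_mul, Prod.fst_mul]
        exact F.comm i h _ hx.1 _ hy.1
      · rw [Prod.snd_mul, Prod.snd_mul, hx.2, hy.2]
    · rw [mem2] at hx hy
      refine Prod.ext ?_ ?_
      · rw [Prod.fst_mul, Prod.fst_mul, hx.1, hy.1]
      · rw [Prod.snd_mul, Prod.snd_mul]
        exact F.comm (i - J) (by omega) _ hx.2 _ hy.2
  nor i hi x hx y hy := by
    split_ifs at hx hy ⊢ with h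
    · rw [Subgroup.mem_prod] at hx
      rw [mem1] at hy ⊢
      refine ⟨F.nor i h _ hx.1 _ hy.1, ?_⟩
      rw [Prod.snd_mul, Prod.snd_mul, hy.2, mul_one, Prod.snd_inv, mul_inv_cancel]
    · rw [mem2] at hx hy ⊢
      refine ⟨?_, F.nor (i - J) (by omega) _ hx.2 _ hy.2⟩
      rw [Prod.fst_mul, Prod.fst_mul, hy.1, mul_one, Prod.fst_inv, mul_inv_cancel]
  el_mem i hi χ hχ := by
    split_ifs at hχ ⊢ with h
    · exact Subgroup.mem_prod.2 ⟨F.el_mem i h _ (isCh_re1 hχ), Subgroup.mem_top _⟩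
    · exact mem2.2 ⟨rfl, F.el_mem (i - J) (by omega) _ (isCh_re2 hχ)⟩
  std_ch i hi χ hχ := by
    split_ifs at hχ ⊢ with h
    · exact isCh_ex1 (F.std_ch i h _ (isCh_re1 hχ))
    · exact isCh_ex2 (F.std_ch (i - J) (by omega) _ (isCh_re2 hχ))
  std_cj i hi χ hχ := by
    split_ifs at hχ ⊢ with h
    · rw [cj_ex1, F.std_cj i h _ (isCh_re1 hχ), ex1_re1 hχ]
    · rw [cj_ex2, F.std_cj (i - J) (by omega) _ (isCh_re2 hχ), ex2_re2 hχ]
  nextA i hi := by
    intro x hx
    by_cases h' : i < J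
    · rw [if_pos h']
      by_cases h : i + 1 < J
      · rw [if_pos h, mem1] at hx
        exact Subgroup.mem_prod.2 ⟨F.nextA i h hx.1, Subgroup.mem_top _⟩
      · rw [if_neg h, mem2] at hx
        refine Subgroup.mem_prod.2 ⟨?_, Subgroup.mem_top _⟩
        rw [hx.1]
        exact one_mem _
    · rw [if_neg (by omega), mem2] at hx
      rw [if_neg h', mem2]
      refine ⟨hx.1, F.nextA (i - J) (by omega) ?_⟩
      rw [show i - J + 1 = i + 1 - J by omega]
      exact hx.2
  nextH i hi := by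
    intro x hx
    by_cases h' : i < J
    · rw [if_pos h']
      by_cases h : i + 1 < J
      · rw [if_pos h, Subgroup.mem_prod] at hx
        exact Subgroup.mem_prod.2 ⟨F.nextH i h hx.1, Subgroup.mem_top _⟩
      · rw [if_neg h, mem2] at hx
        refine Subgroup.mem_prod.2 ⟨?_, Subgroup.mem_top _⟩
        rw [hx.1]
        exact one_mem _
    · rw [if_neg (by omega), mem2] at hx
      rw [if_neg h', mem2]
      refine ⟨hx.1, F.nextH (i - J) (by omega) ?_⟩
      rw [show i - J + 1 = i + 1 - J by omega]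
      exact hx.2
  fix i hi χ hχ x hx := by
    by_cases h' : i < J
    · rw [if_pos h'] at hχ
      rw [if_pos h', cj_ex1]
      by_cases h : i + 1 < J
      · rw [if_pos h, if_pos h, mem1, Subgroup.mem_prod] at hx
        rw [F.fix i h _ (isCh_re1 hχ) x.1 (hx.imp (fun h => h.1) fun h => h.1)]
      · rw [if_neg h, if_neg h, mem2, mem2] at hx
        have hx1 : x.1 = 1 := hx.elim (fun h => h.1) fun h => h.1
        rw [hx1, cj_one']
    · have h : ¬ i + 1 < J := by omega
      rw [if_neg h'] at hχ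
      rw [if_neg h, if_neg h, mem2, mem2] at hx
      rw [if_neg h', cj_ex2]
      rw [F.fix (i - J) (by omega) _ (isCh_re2 hχ) x.2 ?_]
      rw [show i - J + 1 = i + 1 - J by omega]
      exact hx.imp (fun h => h.2) fun h => h.2

end

section
variable {G : Type} [Group G] {J : ℕ}

/-- The chain in `G × G`: first on the left, then on the right.
PROOF. `A i = A i × 1`, `H i = H i × G` for `i < J`, then `1 × A (i - J)`, `1 × H (i - J)`. A character `χ` of
`A i × 1` (extended by zero) is `χ₁ ⊗ δ` with `χ₁ x = χ (x, 1)` and `δ y = if y = 1 then 1 else 0`. -/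
theorem exists_two [Finite G] (F : Flag G J) : ∃ D : Flag (G × G) (2 * J),
    (∀ i < J, D.A i = (F.A i).prod ⊥) ∧ (∀ i < J, D.A (J + i) = (⊥ : Subgroup G).prod (F.A i)) ∧
    (∀ i < J, ∀ χ, D.el i χ = (F.el i fun x => χ (x, 1), 1)) ∧
    ∀ i < J, ∀ χ, D.el (J + i) χ = (1, F.el i fun y => χ (1, y)) := by
  refine ⟨twoFlag F, fun i hi => if_pos hi, fun i hi => ?_, fun i hi χ => if_pos hi,
    fun i hi χ => ?_⟩
  · refine (if_neg (by omega)).trans ?_
    rw [Nat.add_sub_cancel_left]
  · refine (if_neg (by omega)).trans ?_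
    rw [Nat.add_sub_cancel_left]
    rfl

/-- PROOF. The entry `(lreg G x * rreg G y) a b` is `1` if `a = x * b * y⁻¹` and `0` otherwise. -/
theorem lreg_rreg [Fintype G] [DecidableEq G] (x y : G) :
    lreg G x * rreg G y = rreg G y * lreg G x := by
  ext a b
  rw [Matrix.mul_apply, Matrix.mul_apply]
  simp only [lreg, rreg, MonoidHom.coe_mk, OneHom.coe_mk, Matrix.of_apply]
  rw [Finset.sum_eq_single (b * y⁻¹), Finset.sum_eq_single (x * b)]
  · rw [if_pos rfl, if_pos rfl, mul_one, mul_one, mul_assoc]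
  · intro c _ hc
    rw [if_neg hc, mul_zero]
  · intro h
    exact absurd (Finset.mem_univ _) h
  · intro c _ hc
    rw [if_neg hc, mul_zero]
  · intro h
    exact absurd (Finset.mem_univ _) h

theorem lreg_trace [Fintype G] [DecidableEq G] (x : G) (hx : x ≠ 1) : (lreg G x).trace = 0 := by
  rw [Matrix.trace]
  refine Finset.sum_eq_zero fun a _ => ?_
  simp only [Matrix.diag_apply, lreg, MonoidHom.coe_mk, OneHom.coe_mk, Matrix.of_apply]
  exact if_neg fun h => hx (by rwa [right_eq_mul] at h)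

theorem rreg_trace [Fintype G] [DecidableEq G] (x : G) (hx : x ≠ 1) : (rreg G x).trace = 0 := by
  rw [Matrix.trace]
  refine Finset.sum_eq_zero fun a _ => ?_
  simp only [Matrix.diag_apply, rreg, MonoidHom.coe_mk, OneHom.coe_mk, Matrix.of_apply]
  exact if_neg fun h => hx (by rwa [left_eq_mul, inv_eq_one] at h)

/-- A class function commutes with both. PROOF. Entries: `(groupMat f * lreg G x) a b =`
`f (a * (x * b)⁻¹)` and `(lreg G x * groupMat f) a b = f (x⁻¹ * a * b⁻¹)`, conjugate by `x`. -/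
theorem groupMat_lreg [Fintype G] [DecidableEq G] {f : G → ℂ} (hf : IsClassFun f) (x : G) :
    groupMat f * lreg G x = lreg G x * groupMat f := by
  ext a b
  rw [Matrix.mul_apply, Matrix.mul_apply]
  simp only [lreg, MonoidHom.coe_mk, OneHom.coe_mk, Matrix.of_apply, groupMat]
  rw [Finset.sum_eq_single (x * b), Finset.sum_eq_single (x⁻¹ * a)]
  · rw [if_pos rfl, if_pos (by group), mul_one, one_mul]
    have h := hf x (x⁻¹ * a * b⁻¹)
    rw [← h]
    congr 1
    group
  · intro c _ hc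
    rw [if_neg, zero_mul]
    intro h
    exact hc (by rw [h]; group)
  · intro h
    exact absurd (Finset.mem_univ _) h
  · intro c _ hc
    rw [if_neg hc, mul_zero]
  · intro h
    exact absurd (Finset.mem_univ _) h

theorem groupMat_rreg [Fintype G] [DecidableEq G] (f : G → ℂ) (x : G) :
    groupMat f * rreg G x = rreg G x * groupMat f := by
  ext a b
  rw [Matrix.mul_apply, Matrix.mul_apply]
  simp only [rreg, MonoidHom.coe_mk, OneHom.coe_mk, Matrix.of_apply, groupMat]
  rw [Finset.sum_eq_single (b * x⁻¹), Finset.sum_eq_single (a * x)]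
  · rw [if_pos rfl, if_pos (by group), mul_one, one_mul]
    congr 1
    group
  · intro c _ hc
    rw [if_neg, zero_mul]
    intro h
    exact hc (by rw [h]; group)
  · intro h
    exact absurd (Finset.mem_univ _) h
  · intro c _ hc
    rw [if_neg hc, mul_zero]
  · intro h
    exact absurd (Finset.mem_univ _) h

end

end MP0775d3.Ge
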